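import Pool.Agent.Lib.MP_446dfa_ag.grp.Torsor

set_option linter.all false

/-!
# Leading terms of products in `GT(R)`
-/

noncomputable section

namespace MP446I

open MP446 MP446Y MP446Z MP446S MP446G

section Comp

variable {R : Type} [CommRing R] [Algebra ℚ R] {a b c : GT R}

/-- `a` is congruent to `1` in degrees `< n` -/
def Triv (n : ℕ) (a : GT R) : Prop := ∀ w : List (Fin 2), w ≠ [] → w.length < n → a.ser w = 0

lemma Triv.mono {n m : ℕ} (h : Triv n a) (hm : m ≤ n) : Triv m a :=
  fun w h1 h2 => h w h1 (by omega)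

lemma triv_one (a : GT R) : Triv 1 a := by
  intro w h1 h2
  have := List.length_pos_of_ne_nil h1
  omega

lemma Triv.eq {n : ℕ} (h : Triv n a) (w : List (Fin 2)) (hw : w.length < n) :
    a.ser w = (oneF : List (Fin 2) → R) w := by
  cases w with
  | nil => exact a.isGroupLike.one
  | cons i w => exact h _ (by simp) hw

section Unit

variable {S : Type} [CommRing S] [Algebra R S] {E : Type} [Ring E]
  [Algebra R E] [Algebra S E] [IsScalarTower R S E] {ε : S}

/-- the unit `f(x, y)` -/
def appU (b : GT R) {N : ℕ} {I : Submodule R E} (hI : IsNilp N I) {x y : E} (hx : x - 1 ∈ I)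
    (hy : y - 1 ∈ I) : Eˣ :=
  ⟨app b.ser x y, app b.ser y x, b.twoCycle E N I hI x y hx hy, b.twoCycle E N I hI y x hy hx⟩

end Unit

variable (R) in
/-- `1 + ε X` -/
def xe (k : ℕ) (i : Fin 2) : AA (TRR R k) := 1 + ter R k • lt (TRR R k) i

lemma xe_lead (k : ℕ) (i : Fin 2) : Lead (ter R k) (xe R k i) (lt (TRR R k) i) :=
  ⟨0, by unfold xe; rw [smul_zero, add_zero]⟩

lemma EV_lt (k : ℕ) (Q : AA R) : EV (lt (TRR R k) 0) (lt (TRR R k) 1) Q = bcr k Q := (bcr_eq Q).symm

lemma lead_of_one {S : Type} [CommRing S] {E : Type} [Ring E] [Algebra S E] {ε : S} {g : E}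
    {A : E} (h : g = 1 + ε • A) : Lead ε g A := ⟨0, by rw [h, smul_zero, add_zero]⟩

lemma comm_eps {S : Type} [CommRing S] {E : Type} [Ring E] [Algebra S E] {ε : S} {k : ℕ}
    (hε : ε ^ (k + 1) = 0) (B X : E) :
    (1 + ε ^ k • B) * (1 + ε • X) = (1 + ε • X) * (1 + ε ^ k • B) := by
  have e1 : ε ^ k • B * (ε • X) = 0 := by
    rw [smul_mul_smul_comm, ← pow_succ, hε, zero_smul]
  have e2 : (ε • X) * ε ^ k • B = 0 := by
    rw [smul_mul_smul_comm, ← pow_succ', hε, zero_smul]
  rw [add_mul, mul_add, mul_add, e1, add_mul, mul_add, mul_add, e2]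
  simp only [one_mul, mul_one, add_zero]
  abel

/-- the second factor is close to `1` -/
theorem cmp2_aux (h : IsProduct a b c) (hb : b.lam = 1) {n : ℕ} (hn : Triv n b) (k : ℕ) :
    k ≤ n → ∀ w : List (Fin 2), w.length = k → w ≠ [] → c.ser w = a.ser w + b.ser w := by
  induction k using Nat.strong_induction_on with
  | _ k ih =>
    intro hk w hw hne
    have hk1 : 1 ≤ k := by
      have := List.length_pos_of_ne_nil hne
      omega
    have hca : ∀ v : List (Fin 2), v.length < k → c.ser v = a.ser v := by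
      intro v hv
      by_cases h0 : v = []
      · rw [h0, c.isGroupLike.one, a.isGroupLike.one]
      · rw [ih v.length hv (by omega) v rfl h0, hn v h0 (by omega), add_zero]
    have hbo : ∀ v : List (Fin 2), v.length < k → b.ser v = (oneF : List (Fin 2) → R) v :=
      fun v hv => hn.eq v (by omega)
    set S := TRR R k with hS
    set ε := ter R k with hε'
    have hε : ε ^ (k + 1) = 0 := ter_pow R k
    have lx : Lead ε (xe R k 0) (lt S 0) := xe_lead k 0
    have ly : Lead ε (xe R k 1) (lt S 1) := xe_lead k 1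
    let g : (AA S)ˣ := appU b (isNilp_ep (R := R) (E := AA S) hε) (Lead.mem' lx) (Lead.mem' ly)
    have hg : (g : AA S) = app b.ser (xe R k 0) (xe R k 1) := rfl
    have h1 := h.ser (AA S) (k + 1) (epI R (AA S) ε) (isNilp_ep hε) (xe R k 0) (xe R k 1)
      (Lead.mem' lx) (Lead.mem' ly) g hg
    rw [hb, Units.val_one, powU_one, powU_one] at h1
    have hg2 := app_diff hbo hε lx ly
    rw [app_oneF, ← hg] at hg2
    set B : AA S := EV (lt S 0) (lt S 1) (prt (fun w => b.ser w - oneF w) k) with hB
    have hcomm : (g : AA S) * xe R k 0 = xe R k 0 * g := by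
      rw [hg2]
      exact comm_eps hε B (lt S 0)
    rw [hcomm, mul_assoc, Units.mul_inv, mul_one] at h1
    have c1 : Cg ε k (app c.ser (xe R k 0) (xe R k 1)) (app a.ser (xe R k 0) (xe R k 1))
        (EV (lt S 0) (lt S 1) (prt (dif c a) k)) := Cg_app hca hε lx ly
    have c2 : Cg ε k (g : AA S) 1 B := ⟨hg2, 0, by rw [smul_zero, add_zero]⟩
    have c3 := (Cg.refl (n := k) (app_one a.isGroupLike.one hε lx ly)).mul hk1 hε c2
    have key := c1.eq c3 h1 (mul_one _).symm
    rw [zero_add, hB, EV_lt, EV_lt] at key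
    have key2 := prt_inj (bcr_inj key) w hw
    have e3 : (oneF : List (Fin 2) → R) w = 0 := by
      cases w with
      | nil => exact absurd rfl hne
      | cons i w => rfl
    rw [dif, e3, sub_zero] at key2
    rw [← key2]
    ring

/-- the second factor is close to `1` -/
theorem cmp2 (h : IsProduct a b c) (hb : b.lam = 1) {n : ℕ} (hn : Triv n b) :
    (∀ w : List (Fin 2), w.length < n → c.ser w = a.ser w) ∧
      ∀ w : List (Fin 2), w.length = n → w ≠ [] → c.ser w = a.ser w + b.ser w := by
  refine ⟨fun w hw => ?_, fun w hw hne => cmp2_aux h hb hn n le_rfl w hw hne⟩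
  by_cases h0 : w = []
  · rw [h0, c.isGroupLike.one, a.isGroupLike.one]
  · rw [cmp2_aux h hb hn w.length (by omega) w rfl h0, hn w h0 hw, add_zero]

lemma word_smul {E : Type} [Ring E] [Algebra R E] (r : R) (A B : E) (w : List (Fin 2)) :
    (w.map ![r • A, r • B]).prod = r ^ w.length • (w.map ![A, B]).prod := by
  induction w with
  | nil => simp
  | cons i w ih =>
    rw [List.map_cons, List.prod_cons, ih, List.map_cons, List.prod_cons, List.length_cons]
    have : ∀ X Y : E, r • X * r ^ w.length • Y = r ^ (w.length + 1) • (X * Y) := by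
      intro X Y
      rw [smul_mul_smul_comm, ← pow_succ']
    fin_cases i
    · exact this _ _
    · exact this _ _

lemma EV_smul_prt {E : Type} [Ring E] [Algebra R E] (r : R) (A B : E) (f : List (Fin 2) → R)
    (n : ℕ) : EV (r • A) (r • B) (prt f n) = EV A B (prt (fun w => r ^ n * f w) n) := by
  rw [EV_prt, EV_prt]
  refine Sn_congr (fun w hw => ?_)
  rw [word_smul, hw, smul_smul, mul_comm]

/-- the first factor is close to `1` -/
theorem cmp1_aux (h : IsProduct a b c) (ha : a.lam = 1) {n : ℕ} (hn : Triv n a) (k : ℕ) :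
    k ≤ n → ∀ w : List (Fin 2), w.length = k → w ≠ [] →
      c.ser w = b.ser w + (b.lam : R) ^ k * a.ser w := by
  induction k using Nat.strong_induction_on with
  | _ k ih =>
    intro hk w hw hne
    have hk1 : 1 ≤ k := by
      have := List.length_pos_of_ne_nil hne
      omega
    have hcb : ∀ v : List (Fin 2), v.length < k → c.ser v = b.ser v := by
      intro v hv
      by_cases h0 : v = []
      · rw [h0, c.isGroupLike.one, b.isGroupLike.one]
      · rw [ih v.length hv (by omega) v rfl h0, hn v h0 (by omega), mul_zero, add_zero]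
    have hao : ∀ v : List (Fin 2), v.length < k → a.ser v = (oneF : List (Fin 2) → R) v :=
      fun v hv => hn.eq v (by omega)
    set S := TRR R k with hS
    set ε := ter R k with hε'
    have hε : ε ^ (k + 1) = 0 := ter_pow R k
    have lx : Lead ε (xe R k 0) (lt S 0) := xe_lead k 0
    have ly : Lead ε (xe R k 1) (lt S 1) := xe_lead k 1
    let g : (AA S)ˣ := appU b (isNilp_ep (R := R) (E := AA S) hε) (Lead.mem' lx) (Lead.mem' ly)
    have hg : (g : AA S) = app b.ser (xe R k 0) (xe R k 1) := rfl
    have h1 := h.ser (AA S) (k + 1) (epI R (AA S) ε) (isNilp_ep hε) (xe R k 0) (xe R k 1)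
      (Lead.mem' lx) (Lead.mem' ly) g hg
    have hg1 := app_one b.isGroupLike.one hε lx ly
    rw [← hg] at hg1
    obtain ⟨C, hC⟩ := hg1
    have lg : Lead ε (g : AA S) C := lead_of_one hC
    have lG : Lead ε ((g : AA S) * powU (xe R k 0) (b.lam : R) * (g⁻¹ : (AA S)ˣ))
        ((b.lam : R) • lt S 0) := by
      have := (lg.mul (powU_lead hε lx (b.lam : R))).mul lg.inv
      rwa [show C + (b.lam : R) • lt S 0 + -C = (b.lam : R) • lt S 0 by abel] at this
    have lH : Lead ε (powU (xe R k 1) (b.lam : R)) ((b.lam : R) • lt S 1) :=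
      powU_lead hε ly (b.lam : R)
    have h2 := app_diff hao hε lG lH
    rw [app_oneF, EV_smul_prt] at h2
    have c1 : Cg ε k (app c.ser (xe R k 0) (xe R k 1)) (app b.ser (xe R k 0) (xe R k 1))
        (EV (lt S 0) (lt S 1) (prt (dif c b) k)) := Cg_app hcb hε lx ly
    have c2 : Cg ε k (app a.ser ((g : AA S) * powU (xe R k 0) (b.lam : R) * (g⁻¹ : (AA S)ˣ))
        (powU (xe R k 1) (b.lam : R))) 1 (EV (lt S 0) (lt S 1)
        (prt (fun w => (b.lam : R) ^ k * (a.ser w - oneF w)) k)) :=
      ⟨h2, 0, by rw [smul_zero, add_zero]⟩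
    have c3 := c2.mul hk1 hε (Cg.refl (n := k) (app_one b.isGroupLike.one hε lx ly))
    have key := c1.eq c3 h1 (one_mul _).symm
    rw [add_zero, EV_lt, EV_lt] at key
    have key2 := prt_inj (bcr_inj key) w hw
    have e3 : (oneF : List (Fin 2) → R) w = 0 := by
      cases w with
      | nil => exact absurd rfl hne
      | cons i w => rfl
    rw [dif, e3, sub_zero] at key2
    rw [← key2]
    ring

/-- the first factor is close to `1` -/
theorem cmp1 (h : IsProduct a b c) (ha : a.lam = 1) {n : ℕ} (hn : Triv n a) :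
    (∀ w : List (Fin 2), w.length < n → c.ser w = b.ser w) ∧
      ∀ w : List (Fin 2), w.length = n → w ≠ [] →
        c.ser w = b.ser w + (b.lam : R) ^ n * a.ser w := by
  refine ⟨fun w hw => ?_, fun w hw hne => cmp1_aux h ha hn n le_rfl w hw hne⟩
  by_cases h0 : w = []
  · rw [h0, c.isGroupLike.one, b.isGroupLike.one]
  · rw [cmp1_aux h ha hn w.length (by omega) w rfl h0, hn w h0 hw, mul_zero, add_zero]

end Comp

end MP446I
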