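import Mathlib

/-!
# The motivic Galois group and the Grothendieck-Teichmüller group as group functors

`R` is a commutative `ℚ`-algebra.  A formal power series in non-commuting variables indexed by
`α`, with coefficients in `R`, is given by its coefficients, i.e. it is a function `List α → R` on
the words in the alphabet `α`.
-/

noncomputable section

namespace MP446I

/-! ### Group-like series -/

section Series

variable {α R : Type} [CommRing R]

/-- The list of all shuffles of two words (with repetitions). -/
def shuffle {α : Type} : List α → List α → List (List α)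
  | [], w => [w]
  | v, [] => [v]
  | a :: v, b :: w => (shuffle v (b :: w)).map (a :: ·) ++ (shuffle (a :: v) w).map (b :: ·)

/-- A series `u` is group-like (`Δ u = u ⊗ u`, where the letters are primitive): its constant term
is `1` and its coefficients satisfy the shuffle relations. -/
structure IsGroupLike (u : List α → R) : Prop where
  one : u [] = 1
  shuffle : ∀ v w, u v * u w = ((shuffle v w).map u).sum

/-- The product of two series. -/
def conv (u v : List α → R) : List α → R :=
  fun w => ∑ i ∈ Finset.range (w.length + 1), u (w.take i) * v (w.drop i)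

end Series

/-! ### The motivic Galois group

The group `G = U ⋊ 𝔾_m`, where `U` is the prounipotent group whose Lie algebra is the (completed)
free Lie algebra on generators `σ_0, σ_1, σ_2, …` of weights `3, 5, 7, …`, on the homogeneous
elements of weight `n` of which `c ∈ 𝔾_m` acts by the multiplication by `c ^ n`. -/

section Mot

/-- The weight of a word in the letters `σ_0, σ_1, …`; the letter `σ_i` has weight `2 i + 3`. -/
def weight (w : List ℕ) : ℕ := (w.map (fun i => 2 * i + 3)).sum

/-- The automorphism `σ_i ↦ c ^ (2 i + 3) σ_i` of the algebra of power series. -/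
def scale {R : Type} [CommRing R] (c : R) (u : List ℕ → R) : List ℕ → R :=
  fun w => c ^ weight w * u w

/-- The elements `(u, c)` of `G(R) = U(R) ⋊ Rˣ`, where `U(R)` is the group of the group-like power
series in `σ_0, σ_1, …` with coefficients in `R`. -/
@[ext] structure Mot (R : Type) [CommRing R] where
  /-- the component `u` in `U(R)` -/
  ser : List ℕ → R
  /-- the component `c` in `𝔾_m(R) = Rˣ` -/
  scal : Rˣ
  isGroupLike : IsGroupLike ser

end Mot

/-! ### The Grothendieck-Teichmüller group

A relation in the `R`-points of the prounipotent completion of a group `Γ` is expressed by saying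
that it holds for all homomorphisms from `Γ` to groups `1 + I`, where `I` is a nilpotent
subalgebra (without unit) of an `R`-algebra `E`. -/

section GT

section Nilp

variable {R : Type} [CommRing R] {E : Type} [Ring E] [Algebra R E]

/-- `I` is a subalgebra (without unit) of `E`, and all products of `N` elements of `I` vanish. -/
structure IsNilp (N : ℕ) (I : Submodule R E) : Prop where
  mul_mem : ∀ x ∈ I, ∀ y ∈ I, x * y ∈ I
  prod_zero : ∀ l : List E, (∀ x ∈ l, x ∈ I) → l.length = N → l.prod = 0

/-- The value `f(a, b) = ∑_w f_w w(a, b)` of the series `f` at two elements `a`, `b` of a nilpotent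
subalgebra (the sum over all words is finite). -/
def val (f : List (Fin 2) → R) (a b : E) : E := ∑ᶠ w : List (Fin 2), f w • (w.map ![a, b]).prod

variable [Algebra ℚ R]

variable (R) in
/-- The logarithm `∑_{k ≥ 1} (-1)^(k-1) (g - 1)^k / k` of a unipotent element `g`. -/
def logU (g : E) : E := ∑ᶠ k : ℕ, algebraMap ℚ R ((-1) ^ k / (k + 1)) • (g - 1) ^ (k + 1)

/-- The power `g ^ r = ∑_k r (r - 1) ⋯ (r - k + 1) / k! (g - 1) ^ k` (the binomial series), `r ∈ R`,
of a unipotent element `g`. -/
def powU (g : E) (r : R) : E :=
  ∑ᶠ k : ℕ, (algebraMap ℚ R (1 / k.factorial) * ∏ i ∈ Finset.range k, (r - i)) • (g - 1) ^ k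

/-- The value at two unipotent elements `g`, `h` of the element `f` of the prounipotent completion
of the free group on `x = exp X`, `y = exp Y`, i.e. the value of the series `f` for `X = log g` and
`Y = log h`. -/
def app (f : List (Fin 2) → R) (g h : E) : E := val f (logU R g) (logU R h)

end Nilp

/-- The relations of Artin's presentation of the pure braid group on four strands, for elements
`x i j` (`i < j`) of a group.  The strands `1, 2, 3, 4` are numbered `0, 1, 2, 3`. -/
structure PureBraid {G : Type} [Group G] (x : Fin 4 → Fin 4 → G) : Prop where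
  tri : ∀ i j k, i < j → j < k → Commute (x i j * x i k * x j k) (x i j) ∧
    Commute (x i j * x i k * x j k) (x i k) ∧ Commute (x i j * x i k * x j k) (x j k)
  far : Commute (x 0 1) (x 2 3) ∧ Commute (x 0 3) (x 1 2)
  cross : Commute (x 0 2) ((x 0 1)⁻¹ * x 1 3 * x 0 1)

/-- The elements `(λ, f)` of `GT(R)`: `λ` is in `Rˣ`, and `f`, in the prounipotent completion over
`R` of the free group on `x`, `y`, is a group-like power series in `X = log x` and `Y = log y` (`X`
is the letter `0`, `Y` the letter `1`); they satisfy Drinfeld's relations. -/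
structure GT (R : Type) [CommRing R] [Algebra ℚ R] where
  /-- the component `λ` -/
  lam : Rˣ
  /-- the component `f` -/
  ser : List (Fin 2) → R
  isGroupLike : IsGroupLike ser
  twoCycle : ∀ (E : Type) [Ring E] [Algebra R E] (N : ℕ) (I : Submodule R E), IsNilp N I →
    ∀ x y : E, x - 1 ∈ I → y - 1 ∈ I → app ser x y * app ser y x = 1
  hexagon : ∀ (E : Type) [Ring E] [Algebra R E] (N : ℕ) (I : Submodule R E), IsNilp N I →
    ∀ x y z : E, x - 1 ∈ I → y - 1 ∈ I → z - 1 ∈ I → x * y * z = 1 →
    ∀ m : R, 2 * m + 1 = lam →
      app ser z x * powU z m * app ser y z * powU y m * app ser x y * powU x m = 1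
  pentagon : ∀ (E : Type) [Ring E] [Algebra R E] (N : ℕ) (I : Submodule R E), IsNilp N I →
    ∀ x : Fin 4 → Fin 4 → Eˣ, PureBraid x → (∀ i j, i < j → (x i j : E) - 1 ∈ I) →
      app ser (x 0 1 : E) (x 1 2 * x 1 3) * app ser (x 0 2 * x 1 2 : E) (x 2 3) =
        app ser (x 1 2 : E) (x 2 3) * app ser (x 0 1 * x 0 2 : E) (x 1 3 * x 2 3) *
          app ser (x 0 1 : E) (x 1 2)

/-- `c` is the product of `a = (λ₁, f₁)` and `b = (λ₂, f₂)` for Drinfeld's composition law: it is
`(λ₁ λ₂, f₁(f₂ x^λ₂ f₂⁻¹, y^λ₂) f₂)`, where `f₂ = f₂(x, y)`.

With `(λ, f)` one associates the endomorphism `x ↦ f x^λ f⁻¹`, `y ↦ y^λ` of the prounipotent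
completion of the free group; then the endomorphism of `c` is that of `b` composed with that of
`a` (first apply that of `a`, then that of `b`). -/
structure IsProduct {R : Type} [CommRing R] [Algebra ℚ R] (a b c : GT R) : Prop where
  lam : c.lam = a.lam * b.lam
  ser : ∀ (E : Type) [Ring E] [Algebra R E] (N : ℕ) (I : Submodule R E), IsNilp N I →
    ∀ x y : E, x - 1 ∈ I → y - 1 ∈ I → ∀ g : Eˣ, (g : E) = app b.ser x y →
      app c.ser x y = app a.ser (g * powU x (b.lam : R) * (g⁻¹ : Eˣ)) (powU y (b.lam : R)) * g

end GT

end MP446I
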