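import Pool.Agent.Lib.MP_446dfa_ag.grp.Ser
import Pool.Agent.Lib.MP_446dfa_ag.grp.Defs

set_option linter.all false

/-!
# Shuffles and group-like series
-/

noncomputable section

namespace MP446I

section Shuffle

variable {α : Type}

@[simp] lemma shuffle_nil_left (w : List α) : shuffle [] w = [w] := by
  cases w <;> simp [shuffle]

@[simp] lemma shuffle_nil_right (v : List α) : shuffle v [] = [v] := by
  cases v <;> simp [shuffle]

@[simp] lemma shuffle_cons (a : α) (v : List α) (b : α) (w : List α) : shuffle (a :: v) (b :: w) =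
    (shuffle v (b :: w)).map (a :: ·) ++ (shuffle (a :: v) w).map (b :: ·) := by
  simp [shuffle]

lemma shuffle_length (v w : List α) : ∀ s ∈ shuffle v w, s.length = v.length + w.length := by
  induction v generalizing w with
  | nil => intro s hs; simp at hs; subst hs; simp
  | cons a v ih =>
    induction w with
    | nil => intro s hs; simp at hs; subst hs; simp
    | cons b w ih2 =>
      intro s hs
      rw [shuffle_cons, List.mem_append, List.mem_map, List.mem_map] at hs
      rcases hs with ⟨t, ht, rfl⟩ | ⟨t, ht, rfl⟩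
      · have := ih _ t ht
        simp only [List.length_cons] at this ⊢
        omega
      · have := ih2 t ht
        simp only [List.length_cons] at this ⊢
        omega

end Shuffle

section Cop

variable {α R : Type} [CommRing R]

/-- the coproduct of a series, for which the letters are primitive -/
def cop (u : Ser α R) : Ser α (Ser α R) := ⟨fun p => ⟨fun q => ((shuffle p q).map u.cf).sum⟩⟩

lemma cop_apply (u : Ser α R) (p q : List α) : cop u p q = ((shuffle p q).map u.cf).sum := rfl

@[simp] lemma cop_nil_left (u : Ser α R) (q : List α) : cop u [] q = u q := by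
  rw [cop_apply, shuffle_nil_left]; simp

@[simp] lemma cop_nil_right (u : Ser α R) (p : List α) : cop u p [] = u p := by
  rw [cop_apply, shuffle_nil_right]; simp

lemma cop_nil (u : Ser α R) : cop u [] = u := Ser.ext' (fun q => cop_nil_left u q)

lemma cop_cons (u : Ser α R) (a : α) (p : List α) (b : α) (q : List α) :
    cop u (a :: p) (b :: q) = cop (dl a u) p (b :: q) + cop (dl b u) (a :: p) q := by
  rw [cop_apply, shuffle_cons, List.map_append, List.sum_append, List.map_map, List.map_map]
  rfl

lemma cop_congr {u v : Ser α R} {p q : List α}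
    (h : ∀ s : List α, s.length = p.length + q.length → u s = v s) : cop u p q = cop v p q := by
  rw [cop_apply, cop_apply]
  congr 1
  apply List.map_congr_left
  intro s hs
  exact h s (shuffle_length p q s hs)

lemma cop_add (u v : Ser α R) : cop (u + v) = cop u + cop v := by
  apply Ser.ext'
  intro p
  apply Ser.ext'
  intro q
  rw [Ser.add_apply, Ser.add_apply, cop_apply, cop_apply, cop_apply]
  induction shuffle p q with
  | nil => simp
  | cons s l ih =>
    simp only [List.map_cons, List.sum_cons] at ih ⊢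
    rw [ih, Ser.add_apply]
    ring

lemma cop_smul_apply (c : R) (u : Ser α R) (p q : List α) :
    cop (⟨fun w => c * u w⟩ : Ser α R) p q = c * cop u p q := by
  rw [cop_apply, cop_apply]
  induction shuffle p q with
  | nil => simp
  | cons s l ih =>
    simp only [List.map_cons, List.sum_cons] at ih ⊢
    rw [ih, mul_add]

/-- the second derivative -/
lemma mul2_cons (X V : Ser α (Ser α R)) (p : List α) (b : α) (q : List α) :
    (X * V) p (b :: q) = ∑ i ∈ Finset.range (p.length + 1), X (p.take i) [] * V (p.drop i) (b :: q) +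
      ((⟨fun s => dl b (X s)⟩ : Ser α (Ser α R)) * V) p q := by
  rw [Ser.mul_apply, Ser.sum_apply, Ser.mul_apply, Ser.sum_apply, ← Finset.sum_add_distrib]
  refine Finset.sum_congr rfl (fun i _ => ?_)
  rw [Ser.mul_cons]

lemma mul2_nil (X V : Ser α (Ser α R)) (p : List α) :
    (X * V) p [] = ∑ i ∈ Finset.range (p.length + 1), X (p.take i) [] * V (p.drop i) [] := by
  rw [Ser.mul_apply, Ser.sum_apply]
  refine Finset.sum_congr rfl (fun i _ => ?_)
  rw [Ser.mul_nil]

lemma cop_dl_mul (u v : Ser α R) (a : α) (p q : List α) :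
    cop (dl a (u * v)) p q = u [] * cop (dl a v) p q + cop (dl a u * v) p q := by
  rw [Ser.dl_mul, cop_add, Ser.add_apply, Ser.add_apply, cop_smul_apply]

lemma cop_mul_apply (p q : List α) (u v : Ser α R) :
    cop (u * v) p q = (cop u * cop v) p q := by
  induction p generalizing u v q with
  | nil => rw [Ser.mul_nil, cop_nil, cop_nil, cop_nil]
  | cons a p ih =>
    induction q generalizing u v with
    | nil =>
      rw [mul2_nil, cop_nil_right, Ser.mul_apply]
      refine Finset.sum_congr rfl (fun i _ => ?_)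
      rw [cop_nil_right, cop_nil_right]
    | cons b q ih2 =>
      rw [cop_cons, cop_dl_mul, cop_dl_mul, ih, ih2, mul2_cons, mul2_cons (cop u)]
      rw [Ser.mul_cons (cop (dl b u)), Ser.mul_cons (⟨fun s => dl b (cop u s)⟩ : Ser α (Ser α R)),
        Ser.add_apply, Ser.add_apply, List.length_cons,
        Finset.sum_range_succ' _ (p.length + 1)]
      have e1 : dl a (⟨fun s => dl b (cop u s)⟩ : Ser α (Ser α R)) =
          (⟨fun s => dl b (cop (dl a u) s)⟩ : Ser α (Ser α R)) + dl a (cop (dl b u)) := by
        apply Ser.ext'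
        intro s
        apply Ser.ext'
        intro t
        exact cop_cons u a s b t
      rw [e1, Ser.add_mul', Ser.add_apply, Ser.add_apply]
      have e2 : (⟨fun s => dl b (cop u s)⟩ : Ser α (Ser α R)) [] = cop (dl b u) [] := by
        rw [cop_nil, Ser.mk_apply, cop_nil]
      rw [e2]
      simp only [List.take_succ_cons, List.drop_succ_cons, List.take_zero, List.drop_zero,
        cop_nil_right, dl_apply]
      rw [cop_cons v]
      ring

lemma cop_mul (u v : Ser α R) : cop (u * v) = cop u * cop v := by
  apply Ser.ext'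
  intro p
  apply Ser.ext'
  intro q
  exact cop_mul_apply p q u v

/-- `u ⊗ v` -/
def ten (u v : Ser α R) : Ser α (Ser α R) := ⟨fun p => ⟨fun q => u p * v q⟩⟩

@[simp] lemma ten_apply (u v : Ser α R) (p q : List α) : ten u v p q = u p * v q := rfl

lemma ten_mul (u v u' v' : Ser α R) : ten u v * ten u' v' = ten (u * u') (v * v') := by
  apply Ser.ext'
  intro p
  apply Ser.ext'
  intro q
  rw [ten_apply, Ser.mul_apply, Ser.sum_apply, Ser.mul_apply, Ser.mul_apply, Finset.sum_mul_sum]
  refine Finset.sum_congr rfl (fun i _ => ?_)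
  rw [Ser.mul_apply]
  refine Finset.sum_congr rfl (fun j _ => ?_)
  rw [ten_apply, ten_apply]
  ring

lemma ten_one : ten (1 : Ser α R) 1 = 1 := by
  apply Ser.ext'
  intro p
  apply Ser.ext'
  intro q
  cases p with
  | nil => cases q <;> simp
  | cons a p => rw [ten_apply, Ser.one_cons, zero_mul, Ser.one_cons]; rfl

lemma ten_pow (u v : Ser α R) (k : ℕ) : ten u v ^ k = ten (u ^ k) (v ^ k) := by
  induction k with
  | zero => rw [pow_zero, pow_zero, pow_zero, ten_one]
  | succ k ih => rw [pow_succ, ih, ten_mul, ← pow_succ, ← pow_succ]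

lemma cop_one : cop (1 : Ser α R) = 1 := by
  apply Ser.ext'
  intro p
  cases p with
  | nil => rw [cop_nil]; rfl
  | cons a p =>
    apply Ser.ext'
    intro q
    rw [Ser.one_cons, Ser.zero_apply]
    cases q with
    | nil => rw [cop_nil_right]; rfl
    | cons b q =>
      rw [cop_cons, dl_one, dl_one]
      have h : ∀ p q : List α, cop (0 : Ser α R) p q = 0 := by
        intro p q
        have := cop_smul_apply (0 : R) (0 : Ser α R) p q
        simp only [zero_mul] at this
        exact this
      rw [h, h, add_zero]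

lemma cop_pow (u : Ser α R) (k : ℕ) : cop (u ^ k) = cop u ^ k := by
  induction k with
  | zero => rw [pow_zero, pow_zero, cop_one]
  | succ k ih => rw [pow_succ, cop_mul, ih, pow_succ]

end Cop

section GrpLike

variable {α R : Type} [CommRing R]

lemma isGroupLike_iff (u : Ser α R) : IsGroupLike u.cf ↔ u [] = 1 ∧ cop u = ten u u := by
  constructor
  · intro h
    refine ⟨h.one, ?_⟩
    apply Ser.ext'
    intro p
    apply Ser.ext'
    intro q
    rw [cop_apply, ten_apply, h.shuffle]
  · rintro ⟨h1, h2⟩
    refine ⟨h1, fun v w => ?_⟩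
    rw [← cop_apply, h2, ten_apply]

lemma gl_one : IsGroupLike (1 : Ser α R).cf := by
  rw [isGroupLike_iff]
  exact ⟨rfl, by rw [cop_one, ten_one]⟩

lemma gl_mul {u v : Ser α R} (hu : IsGroupLike u.cf) (hv : IsGroupLike v.cf) :
    IsGroupLike (u * v).cf := by
  rw [isGroupLike_iff] at hu hv ⊢
  refine ⟨by rw [Ser.mul_nil, hu.1, hv.1, one_mul], ?_⟩
  rw [cop_mul, hu.2, hv.2, ten_mul]

lemma gl_inv {u : Ser α R} (hu : IsGroupLike u.cf) :
    ∃ v : Ser α R, IsGroupLike v.cf ∧ u * v = 1 ∧ v * u = 1 := by
  obtain ⟨v, h1, h2, h3⟩ := exists_inv u hu.one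
  refine ⟨v, ?_, h1, h2⟩
  rw [isGroupLike_iff] at hu ⊢
  refine ⟨h3, ?_⟩
  have e1 : cop v * ten u u = 1 := by rw [← hu.2, ← cop_mul, h2, cop_one]
  have e2 : ten u u * ten v v = 1 := by rw [ten_mul, h1, ten_one]
  calc cop v = cop v * (ten u u * ten v v) := by rw [e2, mul_one]
    _ = ten v v := by rw [← mul_assoc, e1, one_mul]

/-- primitive series -/
def IsPrim (x : Ser α R) : Prop := cop x = ten x 1 + ten 1 x

lemma IsPrim.nil {x : Ser α R} (h : IsPrim x) : x [] = 0 := by
  have h1 := congrArg (fun U : Ser α (Ser α R) => U [] []) h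
  simp at h1
  exact h1

lemma IsPrim.shuffle {x : Ser α R} (h : IsPrim x) {p q : List α} (hp : p ≠ []) (hq : q ≠ []) :
    cop x p q = 0 := by
  rw [h, Ser.add_apply, Ser.add_apply, ten_apply, ten_apply, Ser.one_of_ne hp, Ser.one_of_ne hq]
  ring

lemma ten_comm (x y : Ser α R) : ten x 1 * ten 1 y = ten 1 y * ten x 1 := by
  rw [ten_mul, ten_mul]
  simp only [one_mul, mul_one]

lemma ten_add_left (x y z : Ser α R) : ten (x + y) z = ten x z + ten y z := by
  apply Ser.ext'
  intro p
  apply Ser.ext'
  intro q
  simp [add_mul]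

lemma ten_add_right (x y z : Ser α R) : ten z (x + y) = ten z x + ten z y := by
  apply Ser.ext'
  intro p
  apply Ser.ext'
  intro q
  simp [mul_add]

lemma ten_sub_left (x y z : Ser α R) : ten (x - y) z = ten x z - ten y z := by
  apply Ser.ext'
  intro p
  apply Ser.ext'
  intro q
  simp [sub_mul]

lemma ten_sub_right (x y z : Ser α R) : ten z (x - y) = ten z x - ten z y := by
  apply Ser.ext'
  intro p
  apply Ser.ext'
  intro q
  simp [mul_sub]

lemma cop_sub (u v : Ser α R) : cop (u - v) = cop u - cop v := by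
  rw [eq_sub_iff_add_eq, ← cop_add, sub_add_cancel]

lemma IsPrim.add {x y : Ser α R} (hx : IsPrim x) (hy : IsPrim y) : IsPrim (x + y) := by
  unfold IsPrim at hx hy ⊢
  rw [cop_add, hx, hy, ten_add_left, ten_add_right]
  abel

lemma cop_smul (c : R) (x : Ser α R) (p q : List α) : cop (c • x) p q = c * cop x p q :=
  cop_smul_apply c x p q

lemma IsPrim.smul {x : Ser α R} (hx : IsPrim x) (c : R) : IsPrim (c • x) := by
  unfold IsPrim at hx ⊢
  apply Ser.ext'
  intro p
  apply Ser.ext'
  intro q
  rw [cop_smul, hx]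
  simp
  ring

lemma IsPrim.zero : IsPrim (0 : Ser α R) := by
  have h : cop (0 : Ser α R) = 0 := by
    have := cop_add (0 : Ser α R) 0
    rw [add_zero] at this
    exact left_eq_add.1 this
  unfold IsPrim
  rw [h]
  apply Ser.ext'
  intro p
  apply Ser.ext'
  intro q
  simp

lemma IsPrim.sum {ι : Type*} (s : Finset ι) (x : ι → Ser α R) (h : ∀ i ∈ s, IsPrim (x i)) :
    IsPrim (∑ i ∈ s, x i) := by
  classical
  induction s using Finset.induction_on with
  | empty => exact IsPrim.zero
  | insert i s hi ih =>
    rw [Finset.sum_insert hi]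
    exact (h i (Finset.mem_insert_self _ _)).add (ih (fun j hj => h j (Finset.mem_insert_of_mem hj)))

lemma IsPrim.lie {x y : Ser α R} (hx : IsPrim x) (hy : IsPrim y) : IsPrim (x * y - y * x) := by
  unfold IsPrim at hx hy ⊢
  rw [cop_sub, cop_mul, cop_mul, hx, hy, ten_sub_left, ten_sub_right]
  have e1 := ten_comm x y
  have e2 := ten_comm y x
  have e3 : ten x 1 * ten y 1 = ten (x * y) 1 := by rw [ten_mul, mul_one]
  have e4 : ten y 1 * ten x 1 = ten (y * x) 1 := by rw [ten_mul, mul_one]
  have e5 : ten 1 x * ten 1 y = ten 1 (x * y) := by rw [ten_mul, mul_one]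
  have e6 : ten 1 y * ten 1 x = ten 1 (y * x) := by rw [ten_mul, mul_one]
  rw [add_mul, mul_add, mul_add, add_mul, mul_add, mul_add, e3, e4, e5, e6, e1, e2]
  abel

end GrpLike

section Exp

variable {α R : Type} [CommRing R] [Algebra ℚ R]

/-- the coefficients of the exponential -/
def ec (R : Type) [CommRing R] [Algebra ℚ R] (k : ℕ) : R := algebraMap ℚ R (1 / k.factorial)

lemma ec_zero : ec R 0 = 1 := by simp [ec]
lemma ec_one : ec R 1 = 1 := by simp [ec]

lemma ec_choose (i j : ℕ) : ec R (i + j) * ((i + j).choose i : R) = ec R i * ec R j := by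
  unfold ec
  rw [← map_natCast (algebraMap ℚ R), ← map_mul, ← map_mul]
  congr 1
  have h := Nat.add_choose_mul_factorial_mul_factorial i j
  rw [← Nat.choose_symm_add] at h
  have h1 : (i.factorial : ℚ) ≠ 0 := by exact_mod_cast i.factorial_ne_zero
  have h2 : (j.factorial : ℚ) ≠ 0 := by exact_mod_cast j.factorial_ne_zero
  have h3 : ((i + j).factorial : ℚ) ≠ 0 := by exact_mod_cast (i + j).factorial_ne_zero
  field_simp
  rw [← h]
  push_cast
  ring

/-- the exponential of a series without constant term -/
def expS (x : Ser α R) : Ser α R := lsum (ec R) x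

lemma expS_apply {x : Ser α R} (hx : x [] = 0) {w : List α} {M : ℕ} (hM : w.length < M) :
    expS x w = (∑ k ∈ Finset.range M, ec R k • x ^ k) w := lsum_apply hx hM

lemma expS_nil (x : Ser α R) : expS x [] = 1 := by
  unfold expS
  rw [lsum_nil, ec_zero]

lemma sum_antidiag (F : ℕ → ℕ → R) (a b : ℕ) (h : ∀ i j, a < i ∨ b < j → F i j = 0) :
    ∑ k ∈ Finset.range (a + b + 1), ∑ ij ∈ Finset.HasAntidiagonal.antidiagonal k, F ij.1 ij.2 =
      ∑ i ∈ Finset.range (a + 1), ∑ j ∈ Finset.range (b + 1), F i j := by
  rw [Finset.sum_sigma', ← Finset.sum_product']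
  symm
  rw [← Finset.sum_filter_of_ne (s := (Finset.range (a + b + 1)).sigma Finset.HasAntidiagonal.antidiagonal)
    (p := fun x => x.2.1 ≤ a ∧ x.2.2 ≤ b)]
  · refine Finset.sum_bij' (fun x _ => ⟨x.1 + x.2, x⟩) (fun x _ => x.2) ?_ ?_ ?_ ?_ ?_
    · intro x hx
      simp only [Finset.mem_product, Finset.mem_range] at hx
      rw [Finset.mem_filter, Finset.mem_sigma, Finset.mem_range,
        Finset.HasAntidiagonal.mem_antidiagonal]
      refine ⟨⟨?_, rfl⟩, ?_, ?_⟩
      · dsimp only
        omega
      · dsimp only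
        omega
      · dsimp only
        omega
    · rintro ⟨k, x⟩ hx
      simp only [Finset.mem_filter, Finset.mem_sigma, Finset.mem_range,
        Finset.HasAntidiagonal.mem_antidiagonal] at hx
      simp only [Finset.mem_product, Finset.mem_range]
      omega
    · intro x hx
      rfl
    · rintro ⟨k, x⟩ hx
      simp only [Finset.mem_filter, Finset.mem_sigma, Finset.mem_range,
        Finset.HasAntidiagonal.mem_antidiagonal] at hx
      obtain ⟨⟨h1, rfl⟩, h3⟩ := hx
      rfl
    · intro x hx
      rfl
  · intro x hx hne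
    by_contra hc
    apply hne
    apply h
    rw [not_and_or] at hc
    omega

lemma gl_exp {x : Ser α R} (hx : IsPrim x) : IsGroupLike (expS x).cf := by
  rw [isGroupLike_iff]
  refine ⟨expS_nil x, ?_⟩
  apply Ser.ext'
  intro p
  apply Ser.ext'
  intro q
  have h0 := hx.nil
  have e1 : cop (expS x) p q = cop (∑ k ∈ Finset.range (p.length + q.length + 1), ec R k • x ^ k) p q :=
    cop_congr (fun s hs => expS_apply h0 (by omega))
  have e2 : ∀ (s : Finset ℕ) (f : ℕ → Ser α R), cop (∑ k ∈ s, f k) p q = ∑ k ∈ s, cop (f k) p q := by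
    intro s f
    induction s using Finset.induction_on with
    | empty =>
      have := IsPrim.zero (α := α) (R := R)
      rw [Finset.sum_empty, Finset.sum_empty, this]
      simp
    | insert i s hi ih =>
      rw [Finset.sum_insert hi, Finset.sum_insert hi, cop_add, Ser.add_apply, Ser.add_apply, ih]
  have e3 : ∀ k : ℕ, cop (ec R k • x ^ k) p q =
      ∑ ij ∈ Finset.HasAntidiagonal.antidiagonal k, (ec R ij.1 * (x ^ ij.1) p) * (ec R ij.2 * (x ^ ij.2) q) := by
    intro k
    rw [cop_smul, cop_pow, hx, (show Commute (ten x 1) (ten 1 x) from ten_comm x x).add_pow']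
    rw [Ser.sum_apply, Ser.sum_apply, Finset.mul_sum]
    refine Finset.sum_congr rfl (fun ij hij => ?_)
    rw [Finset.HasAntidiagonal.mem_antidiagonal] at hij
    have e4 : ten x 1 ^ ij.1 * ten 1 x ^ ij.2 = ten (x ^ ij.1) (x ^ ij.2) := by
      rw [ten_pow, ten_pow, ten_mul, one_pow, one_pow, mul_one, one_mul]
    rw [e4]
    have e5 : ∀ (m : ℕ) (U : Ser α (Ser α R)), (m • U) p q = m * U p q := by
      intro m U
      induction m with
      | zero => simp
      | succ m ih =>
        rw [succ_nsmul, Ser.add_apply, Ser.add_apply, ih]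
        push_cast
        ring
    rw [e5, ten_apply, ← hij, ← mul_assoc, ec_choose]
    ring
  rw [e1, e2, ten_apply, Finset.sum_congr rfl (fun k _ => e3 k)]
  rw [sum_antidiag (fun i j => (ec R i * (x ^ i) p) * (ec R j * (x ^ j) q)) p.length q.length]
  · rw [← Finset.sum_mul_sum]
    rfl
  · intro i j hij
    rcases hij with hi | hj
    · rw [Ser.pow_short h0 i p hi, mul_zero, zero_mul]
    · rw [Ser.pow_short h0 j q hj, mul_zero, mul_zero]

end Exp

end MP446I
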