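import Pool.Agent.Lib.MP_446dfa_ag.grp.Mot
import Pool.Agent.Lib.MP_446dfa_ag.ddi.Surj
import Pool.Agent.Lib.MP_446dfa_ag.ddi.FreeInj

set_option linter.all false

/-!
# Series of given weight
-/

noncomputable section

namespace MP446I

open MP446 MP446Y MP446Z

attribute [local instance 100] LieRing.ofAssociativeRing

section Agree

variable {R : Type} [CommRing R]

/-- the series agree in weights `< m` -/
def AgW (m : ℕ) (u v : Ser ℕ R) : Prop := ∀ w : List ℕ, weight w < m → u w = v w

lemma AgW.mul {m : ℕ} {u v u' v' : Ser ℕ R} (h : AgW m u u') (h' : AgW m v v') :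
    AgW m (u * v) (u' * v') := by
  intro w hw
  rw [Ser.mul_apply, Ser.mul_apply]
  refine Finset.sum_congr rfl (fun i _ => ?_)
  have := weight_take_drop i w
  rw [h _ (by omega), h' _ (by omega)]

lemma AgW.refl (m : ℕ) (u : Ser ℕ R) : AgW m u u := fun _ _ => rfl

lemma AgW.symm {m : ℕ} {u v : Ser ℕ R} (h : AgW m u v) : AgW m v u := fun w hw => (h w hw).symm

lemma AgW.trans {m : ℕ} {u v t : Ser ℕ R} (h : AgW m u v) (h' : AgW m v t) : AgW m u t :=
  fun w hw => (h w hw).trans (h' w hw)

lemma AgW.add {m : ℕ} {u v u' v' : Ser ℕ R} (h : AgW m u u') (h' : AgW m v v') :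
    AgW m (u + v) (u' + v') := fun w hw => by
  rw [Ser.add_apply, Ser.add_apply, h w hw, h' w hw]

/-- homogeneous series of weight `n` -/
def HomW (n : ℕ) (x : Ser ℕ R) : Prop := ∀ w : List ℕ, weight w ≠ n → x w = 0

lemma HomW.mul {a b : ℕ} {x y : Ser ℕ R} (hx : HomW a x) (hy : HomW b y) : HomW (a + b) (x * y) := by
  intro w hw
  rw [Ser.mul_apply]
  refine Finset.sum_eq_zero (fun i _ => ?_)
  have := weight_take_drop i w
  by_cases h : weight (w.take i) = a
  · rw [hy _ (by omega), mul_zero]
  · rw [hx _ h, zero_mul]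

lemma HomW.one : HomW 0 (1 : Ser ℕ R) := by
  intro w hw
  apply Ser.one_of_ne
  rintro rfl
  exact hw weight_nil

lemma HomW.pow {n : ℕ} {x : Ser ℕ R} (hx : HomW n x) (k : ℕ) : HomW (k * n) (x ^ k) := by
  induction k with
  | zero => rw [zero_mul, pow_zero]; exact HomW.one
  | succ k ih => rw [pow_succ, add_mul, one_mul]; exact ih.mul hx

lemma HomW.add {n : ℕ} {x y : Ser ℕ R} (hx : HomW n x) (hy : HomW n y) : HomW n (x + y) :=
  fun w hw => by rw [Ser.add_apply, hx w hw, hy w hw, add_zero]

lemma HomW.smul {n : ℕ} {x : Ser ℕ R} (hx : HomW n x) (c : R) : HomW n (c • x) :=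
  fun w hw => by rw [Ser.smul_apply, hx w hw, mul_zero]

lemma HomW.zero {n : ℕ} : HomW n (0 : Ser ℕ R) := fun w _ => rfl

lemma HomW.sum {ι : Type*} {n : ℕ} (s : Finset ι) (x : ι → Ser ℕ R) (h : ∀ i ∈ s, HomW n (x i)) :
    HomW n (∑ i ∈ s, x i) := by
  intro w hw
  rw [Ser.sum_apply]
  exact Finset.sum_eq_zero (fun i hi => h i hi w hw)

lemma HomW.scl {n : ℕ} {x : Ser ℕ R} (hx : HomW n x) (c : R) : scl c x = c ^ n • x := by
  apply Ser.ext'
  intro w
  rw [scl_apply, Ser.smul_apply]
  by_cases h : weight w = n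
  · rw [h]
  · rw [hx w h, mul_zero, mul_zero]

lemma HomW.nil {n : ℕ} (hn : 1 ≤ n) {x : Ser ℕ R} (hx : HomW n x) : x [] = 0 :=
  hx [] (by rw [weight_nil]; omega)

/-- primitive and homogeneous of weight `n` -/
def PH (n : ℕ) (x : Ser ℕ R) : Prop := IsPrim x ∧ HomW n x

lemma PH.add {n : ℕ} {x y : Ser ℕ R} (hx : PH n x) (hy : PH n y) : PH n (x + y) :=
  ⟨hx.1.add hy.1, hx.2.add hy.2⟩

lemma PH.smul {n : ℕ} {x : Ser ℕ R} (hx : PH n x) (c : R) : PH n (c • x) :=
  ⟨hx.1.smul c, hx.2.smul c⟩

lemma PH.zero {n : ℕ} : PH n (0 : Ser ℕ R) := ⟨IsPrim.zero, HomW.zero⟩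

lemma PH.sum {ι : Type*} {n : ℕ} (s : Finset ι) (x : ι → Ser ℕ R) (h : ∀ i ∈ s, PH n (x i)) :
    PH n (∑ i ∈ s, x i) :=
  ⟨IsPrim.sum s x (fun i hi => (h i hi).1), HomW.sum s x (fun i hi => (h i hi).2)⟩

lemma scl_pow (c : R) (x : Ser ℕ R) (k : ℕ) : scl c (x ^ k) = scl c x ^ k := by
  induction k with
  | zero => rw [pow_zero, pow_zero, scl_one]
  | succ k ih => rw [pow_succ, scl_mul, ih, pow_succ]

end Agree

section MapS

variable {α R S : Type} [CommRing R] [CommRing S] (φ : R →+* S)

/-- the image of a series under a ring homomorphism -/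
def mapS (u : Ser α R) : Ser α S := ⟨fun w => φ (u w)⟩

@[simp] lemma mapS_apply (u : Ser α R) (w : List α) : mapS φ u w = φ (u w) := rfl

lemma mapS_mul (u v : Ser α R) : mapS φ (u * v) = mapS φ u * mapS φ v := by
  apply Ser.ext'
  intro w
  rw [mapS_apply, Ser.mul_apply, Ser.mul_apply, map_sum]
  exact Finset.sum_congr rfl (fun i _ => map_mul φ _ _)

lemma mapS_one : mapS φ (1 : Ser α R) = 1 := by
  apply Ser.ext'
  intro w
  cases w with
  | nil => simp
  | cons a w => simp

lemma mapS_pow (u : Ser α R) (k : ℕ) : mapS φ (u ^ k) = mapS φ u ^ k := by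
  induction k with
  | zero => rw [pow_zero, pow_zero, mapS_one]
  | succ k ih => rw [pow_succ, mapS_mul, ih, pow_succ]

lemma mapS_add (u v : Ser α R) : mapS φ (u + v) = mapS φ u + mapS φ v := by
  apply Ser.ext'
  intro w
  simp

lemma mapS_smul (c : R) (u : Ser α R) : mapS φ (c • u) = φ c • mapS φ u := by
  apply Ser.ext'
  intro w
  simp

lemma mapS_prim {x : Ser α R} (hx : IsPrim x) : IsPrim (mapS φ x) := by
  unfold IsPrim at hx ⊢
  apply Ser.ext'
  intro p
  apply Ser.ext'
  intro q
  have h : cop (mapS φ x) p q = φ (cop x p q) := by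
    rw [cop_apply, cop_apply, map_list_sum, List.map_map]
    rfl
  have h2 : ∀ w : List α, φ ((1 : Ser α R) w) = (1 : Ser α S) w := fun w => by
    rw [← mapS_apply, mapS_one]
  rw [h, hx, Ser.add_apply, Ser.add_apply, Ser.add_apply, Ser.add_apply, ten_apply, ten_apply,
    ten_apply, ten_apply, map_add, map_mul, map_mul, h2, h2]
  rfl

end MapS

section ExpW

variable {R : Type} [CommRing R] [Algebra ℚ R]

lemma expS_scl (c : R) (x : Ser ℕ R) : scl c (expS x) = expS (scl c x) := by
  apply Ser.ext'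
  intro w
  rw [scl_apply]
  unfold expS lsum
  rw [Ser.mk_apply, Ser.mk_apply, Finset.mul_sum]
  refine Finset.sum_congr rfl (fun k _ => ?_)
  rw [← scl_pow, scl_apply]
  ring

lemma mapS_expS {α S : Type} [CommRing S] [Algebra ℚ S] (φ : R →+* S) (x : Ser α R) :
    mapS φ (expS x) = expS (mapS φ x) := by
  apply Ser.ext'
  intro w
  rw [mapS_apply]
  unfold expS lsum
  rw [Ser.mk_apply, Ser.mk_apply, map_sum]
  refine Finset.sum_congr rfl (fun k _ => ?_)
  rw [map_mul, ← mapS_pow, mapS_apply]
  congr 1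
  have : φ.comp (algebraMap ℚ R) = algebraMap ℚ S := Subsingleton.elim _ _
  exact RingHom.congr_fun this _

/-- the exponential of a series of weight `n` up to weight `n` -/
lemma expS_agree {n : ℕ} (hn : 1 ≤ n) {x : Ser ℕ R} (hx : HomW n x) :
    AgW (n + 1) (expS x) (1 + x) := by
  intro w hw
  rw [expS_apply (hx.nil hn) (M := w.length + 1 + 1) (by omega), Ser.sum_apply,
    Finset.sum_range_succ', Finset.sum_range_succ', Finset.sum_eq_zero]
  · rw [zero_add, zero_add, pow_one, pow_zero, Ser.smul_apply, Ser.smul_apply, ec_zero, ec_one,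
      one_mul, one_mul, Ser.add_apply, add_comm]
  · intro k _
    rw [Ser.smul_apply, hx.pow (k + 1 + 1) w ?_, mul_zero]
    have : n + n ≤ (k + 1 + 1) * n := by
      rw [show (k + 1 + 1) * n = k * n + (n + n) by ring]
      omega
    omega

end ExpW

section Coeff

/-- the coefficients of an element of the free Lie algebra -/
def sN (x : FreeLieAlgebra ℚ ℕ) : Ser ℕ ℚ := ⟨fun w => (embN ℚ x).coeff (FreeMonoid.ofList w)⟩

/-- the coefficients of a non-commutative polynomial -/
def toS (X : FA ℚ ℕ) : Ser ℕ ℚ := ⟨fun w => X.coeff (FreeMonoid.ofList w)⟩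

lemma toS_add (X Y : FA ℚ ℕ) : toS (X + Y) = toS X + toS Y := by
  apply Ser.ext'
  intro w
  change (X + Y).coeff (FreeMonoid.ofList w) = _
  rw [MonoidAlgebra.coeff_add, Finsupp.add_apply]
  rfl

lemma toS_smul (c : ℚ) (X : FA ℚ ℕ) : toS (c • X) = c • toS X := by
  apply Ser.ext'
  intro w
  change (c • X).coeff (FreeMonoid.ofList w) = _
  rw [MonoidAlgebra.coeff_smul, Finsupp.smul_apply, smul_eq_mul]
  rfl

lemma toS_sub (X Y : FA ℚ ℕ) : toS (X - Y) = toS X - toS Y := by
  have := toS_add (X - Y) Y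
  rw [sub_add_cancel] at this
  rw [this, add_sub_cancel_right]

lemma toS_zero : toS 0 = 0 := by
  have := toS_smul 0 0
  rw [zero_smul, zero_smul] at this
  exact this

lemma toS_one : toS 1 = 1 := by
  apply Ser.ext'
  intro w
  change (1 : FA ℚ ℕ).coeff (FreeMonoid.ofList w) = _
  rw [MonoidAlgebra.one_def, MonoidAlgebra.coeff_single]
  cases w with
  | nil => exact Finsupp.single_eq_same
  | cons a w =>
    rw [Ser.one_cons, Finsupp.single_eq_of_ne]
    intro h
    have := congrArg FreeMonoid.toList h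
    simp at this

lemma toS_letter_nil (i : ℕ) (X : FA ℚ ℕ) : toS (letter ℚ i * X) [] = 0 := by
  induction X using MonoidAlgebra.induction_linear with
  | zero => rw [mul_zero, toS_zero]; rfl
  | add f g hf hg => rw [mul_add, toS_add, Ser.add_apply, hf, hg, add_zero]
  | single w c =>
    change (letter ℚ i * MonoidAlgebra.single w c : FA ℚ ℕ).coeff _ = 0
    rw [letter, MonoidAlgebra.of_apply, MonoidAlgebra.single_mul_single,
      MonoidAlgebra.coeff_single, Finsupp.single_eq_of_ne]
    intro h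
    have := congrArg FreeMonoid.toList h
    simp at this

lemma toS_letter_cons (i j : ℕ) (w : List ℕ) (X : FA ℚ ℕ) :
    toS (letter ℚ i * X) (j :: w) = if i = j then toS X w else 0 := by
  classical
  induction X using MonoidAlgebra.induction_linear with
  | zero => rw [mul_zero, toS_zero]; simp
  | add f g hf hg =>
    rw [mul_add, toS_add, toS_add, Ser.add_apply, Ser.add_apply, hf, hg]
    split_ifs <;> simp
  | single v c =>
    change (letter ℚ i * MonoidAlgebra.single v c : FA ℚ ℕ).coeff _ =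
      if i = j then (MonoidAlgebra.single v c : FA ℚ ℕ).coeff _ else 0
    rw [letter, MonoidAlgebra.of_apply, MonoidAlgebra.single_mul_single,
      MonoidAlgebra.coeff_single, MonoidAlgebra.coeff_single, one_mul, Finsupp.single_apply,
      Finsupp.single_apply]
    by_cases h : i = j
    · subst h
      rw [if_pos rfl]
      congr 1
      rw [eq_iff_iff]
      constructor
      · intro h
        have := congrArg FreeMonoid.toList h
        have h' : FreeMonoid.toList v = w := by simpa using this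
        rw [← h']
        rfl
      · rintro rfl
        rfl
    · rw [if_neg h, if_neg]
      intro h2
      have := congrArg FreeMonoid.toList h2
      simp at this
      exact h this.1

lemma toS_mul (X Y : FA ℚ ℕ) : toS (X * Y) = toS X * toS Y := by
  induction X using FA_induction with
  | h1 => rw [one_mul, toS_one, one_mul]
  | hmul i X ih =>
    rw [mul_assoc]
    apply Ser.ext'
    intro w
    cases w with
    | nil => rw [toS_letter_nil, Ser.mul_nil, toS_letter_nil, zero_mul]
    | cons j w =>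
      rw [toS_letter_cons, Ser.mul_cons, toS_letter_nil, zero_mul, zero_add, ih]
      have : dl j (toS (letter ℚ i * X)) = if i = j then toS X else 0 := by
        apply Ser.ext'
        intro v
        rw [dl_apply, toS_letter_cons]
        split_ifs <;> rfl
      rw [this]
      split_ifs
      · rfl
      · rw [zero_mul]; rfl
  | hadd X Z hX hZ => rw [add_mul, toS_add, hX, hZ, toS_add, add_mul]
  | hsmul c X hX => rw [smul_mul_assoc, toS_smul, hX, toS_smul, smul_mul_assoc]

lemma sN_eq (x : FreeLieAlgebra ℚ ℕ) : sN x = toS (embN ℚ x) := rfl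

lemma sN_add (x y : FreeLieAlgebra ℚ ℕ) : sN (x + y) = sN x + sN y := by
  rw [sN_eq, map_add, toS_add]; rfl

lemma sN_smul (c : ℚ) (x : FreeLieAlgebra ℚ ℕ) : sN (c • x) = c • sN x := by
  rw [sN_eq, map_smul, toS_smul]; rfl

lemma prim_letter (i : ℕ) : IsPrim (toS (letter ℚ i)) := by
  have e : toS (letter ℚ i) = toS (letter ℚ i * 1) := by rw [mul_one]
  have h0 : toS (letter ℚ i) [] = 0 := by rw [e, toS_letter_nil]
  have h2 : ∀ w : List ℕ, 2 ≤ w.length → toS (letter ℚ i) w = 0 := by
    intro w hw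
    cases w with
    | nil => exact h0
    | cons a w =>
      rw [e, toS_letter_cons, toS_one]
      cases w with
      | nil => simp at hw
      | cons b w => simp
  unfold IsPrim
  apply Ser.ext'
  intro p
  apply Ser.ext'
  intro q
  rw [Ser.add_apply, Ser.add_apply, ten_apply, ten_apply]
  cases p with
  | nil => rw [cop_nil_left, h0, Ser.one_nil]; ring
  | cons a p =>
    cases q with
    | nil => rw [cop_nil_right, h0, Ser.one_nil]; ring
    | cons b q =>
      rw [Ser.one_cons, Ser.one_cons]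
      have : cop (toS (letter ℚ i)) (a :: p) (b :: q) = cop (0 : Ser ℕ ℚ) (a :: p) (b :: q) :=
        cop_congr (fun s hs => by
          rw [h2 s (by rw [hs]; simp only [List.length_cons]; omega)]
          rfl)
      rw [this, IsPrim.shuffle IsPrim.zero (by simp) (by simp)]
      ring

lemma prim_sN (x : FreeLieAlgebra ℚ ℕ) : IsPrim (sN x) := by
  induction x using FL_induction with
  | hof i => rw [sN_eq, embN_of]; exact prim_letter i
  | hadd x y hx hy => rw [sN_add]; exact hx.add hy
  | hsmul c x hx => rw [sN_smul]; exact hx.smul c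
  | hlie x y hx hy =>
    rw [sN_eq, embN_lie, toS_sub, toS_mul, toS_mul]
    exact hx.lie hy

lemma homW_sN {n : ℕ} {x : FreeLieAlgebra ℚ ℕ} (hx : x ∈ freeWt ℚ n) : HomW n (sN x) :=
  fun w hw => HN_coeff ℚ (embN_freeWt_wt n x hx) w hw

lemma sN_inj {x : FreeLieAlgebra ℚ ℕ} (h : sN x = 0) : x = 0 := by
  apply free_injective ℚ
  change embN ℚ x = embN ℚ 0
  rw [map_zero]
  ext w
  exact congrArg (fun u : Ser ℕ ℚ => u (FreeMonoid.toList w)) h

end Coeff

end MP446I
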