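import Pool.Agent.Lib.MP_446dfa_ag.grp.Mono
import Pool.Agent.Lib.MP_446dfa_ag.grp.Src
import Pool.Agent.Lib.MP_446dfa_ag.grp.Comp

set_option linter.all false

/-!
# Normalisation of a monomorphism `G → GT`
-/

noncomputable section

namespace MP446I

open MP446 MP446Y MP446Z MP446S MP446G Polynomial

attribute [local instance 100] LieRing.ofAssociativeRing

section U1

variable {R : Type} [CommRing R]

/-- the element `(u, 1)` -/
def U1 (u : Ser ℕ R) (hu : IsGroupLike u.cf) : Mot R := ⟨u.cf, 1, hu⟩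

lemma U1_S (u : Ser ℕ R) (hu : IsGroupLike u.cf) : (U1 u hu).S = u := rfl

lemma U1_mul_S (u : Ser ℕ R) (hu : IsGroupLike u.cf) (g : Mot R) :
    (U1 u hu * g).S = u * g.S := by
  rw [Mot.mul_S]
  change u * scl ((1 : Rˣ) : R) g.S = _
  rw [Units.val_one, one_scl]

lemma U1_mul_scal (u : Ser ℕ R) (hu : IsGroupLike u.cf) (g : Mot R) :
    (U1 u hu * g).scal = g.scal := by
  rw [Mot.mul_scal]
  exact one_mul _

lemma U1_one (h : IsGroupLike (1 : Ser ℕ R).cf) : U1 1 h = 1 := rfl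

lemma U1_congr {u v : Ser ℕ R} (h : u = v) (hu : IsGroupLike u.cf) (hv : IsGroupLike v.cf) :
    U1 u hu = U1 v hv := by
  subst h; rfl

lemma U1_map {S : Type} [CommRing S] (φ : R →+* S) (u : Ser ℕ R) (hu : IsGroupLike u.cf)
    (hv : IsGroupLike (mapS φ u).cf) : (U1 u hu).map φ = U1 (mapS φ u) hv := by
  apply Mot.ext''
  · rfl
  · exact map_one (Units.map (φ : R →* S))

/-- the element `(1, c)` -/
def C1 (c : Rˣ) : Mot R := ⟨(1 : Ser ℕ R).cf, c, gl_one⟩

lemma C1_S (c : Rˣ) : (C1 c).S = 1 := rfl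
lemma C1_scal (c : Rˣ) : (C1 c).scal = c := rfl

lemma C1_mul_U1 (c : Rˣ) (u : Ser ℕ R) (hu : IsGroupLike u.cf) (v : Ser ℕ R)
    (hv : IsGroupLike v.cf) (huv : v = scl (c : R) u) : C1 c * U1 u hu = U1 v hv * C1 c := by
  apply Mot.ext''
  · rw [Mot.mul_S, U1_mul_S, U1_S, huv]
    change 1 * scl (c : R) u = scl (c : R) u * 1
    rw [one_mul, mul_one]
  · rw [Mot.mul_scal, U1_mul_scal]
    exact mul_one _

lemma eq_U1_mul_C1 (g : Mot R) : g = U1 g.S g.isGroupLike * C1 g.scal := by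
  apply Mot.ext''
  · rw [U1_mul_S, C1_S, mul_one]
  · rw [U1_mul_scal]; rfl

lemma C1_map {S : Type} [CommRing S] (φ : R →+* S) (c : Rˣ) :
    (C1 c).map φ = C1 (Units.map φ c) := by
  apply Mot.ext''
  · exact mapS_one φ
  · rfl

end U1

section Two

/-- the unit `2` -/
def twoU (R : Type) [CommRing R] [Algebra ℚ R] : Rˣ :=
  Units.map (algebraMap ℚ R : ℚ →* R) (Units.mk0 2 two_ne_zero)

lemma twoU_val (R : Type) [CommRing R] [Algebra ℚ R] : ((twoU R : Rˣ) : R) = algebraMap ℚ R 2 := rfl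

lemma GT_ext {R : Type} [CommRing R] [Algebra ℚ R] {a b : GT R} (h1 : a.lam = b.lam)
    (h2 : ∀ w, a.ser w = b.ser w) : a = b := by
  cases a; cases b
  simp only at h1 h2
  subst h1
  have := funext h2
  subst this
  rfl

lemma two_pow_coeff {R : Type} [CommRing R] [Algebra ℚ R] {i k : ℕ} (hik : i ≠ k) (c : R)
    (h : c * (algebraMap ℚ R 2) ^ i = (algebraMap ℚ R 2) ^ k * c) : c = 0 := by
  apply rat_cancel ((2 : ℚ) ^ i - 2 ^ k)
  · exact two_pow_ne hik
  · rw [map_sub, map_pow, map_pow, sub_mul, ← h]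
    ring

end Two

/-- a monomorphism for the opposite composition law -/
structure IsMonoA (ρ : ∀ (R : Type) [CommRing R] [Algebra ℚ R], Mot R → GT R) : Prop where
  natural : ∀ (R S : Type) [CommRing R] [Algebra ℚ R] [CommRing S] [Algebra ℚ S] (φ : R →+* S)
    (g : Mot R) (w : List (Fin 2)), (ρ S (g.map φ)).ser w = φ ((ρ R g).ser w)
  naturalLam : ∀ (R S : Type) [CommRing R] [Algebra ℚ R] [CommRing S] [Algebra ℚ S] (φ : R →+* S)
    (g : Mot R), (ρ S (g.map φ)).lam = Units.map φ (ρ R g).lam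
  mul : ∀ (R : Type) [CommRing R] [Algebra ℚ R] (g h : Mot R),
    IsProduct (ρ R h) (ρ R g) (ρ R (g * h))
  injective : ∀ (R : Type) [CommRing R] [Algebra ℚ R], Function.Injective (ρ R)

/-- a monomorphism for the opposite composition law, compatible with the projections to `𝔾_m` -/
structure IsMono (ρ : ∀ (R : Type) [CommRing R] [Algebra ℚ R], Mot R → GT R) : Prop where
  natural : ∀ (R S : Type) [CommRing R] [Algebra ℚ R] [CommRing S] [Algebra ℚ S] (φ : R →+* S)
    (g : Mot R) (w : List (Fin 2)), (ρ S (g.map φ)).ser w = φ ((ρ R g).ser w)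
  lam : ∀ (R : Type) [CommRing R] [Algebra ℚ R] (g : Mot R), (ρ R g).lam = g.scal
  mul : ∀ (R : Type) [CommRing R] [Algebra ℚ R] (g h : Mot R),
    IsProduct (ρ R h) (ρ R g) (ρ R (g * h))
  injective : ∀ (R : Type) [CommRing R] [Algebra ℚ R], Function.Injective (ρ R)

section Inv

variable {ρ : ∀ (R : Type) [CommRing R] [Algebra ℚ R], Mot R → GT R}

lemma map_mul_mot {R S : Type} [CommRing R] [CommRing S] (φ : R →+* S) (g h : Mot R) :
    (g * h).map φ = g.map φ * h.map φ := by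
  apply Mot.ext''
  · change mapS φ (g.S * scl (g.scal : R) h.S) = mapS φ g.S * scl (φ (g.scal : R)) (mapS φ h.S)
    rw [mapS_mul]
    congr 1
    apply Ser.ext'
    intro w
    simp
  · exact map_mul (Units.map (φ : R →* S)) _ _

lemma map_inv_mot {R S : Type} [CommRing R] [CommRing S] (φ : R →+* S) (g : Mot R) :
    (g.map φ)⁻¹ = (g⁻¹).map φ := by
  rw [inv_eq_iff_mul_eq_one, ← map_mul_mot, mul_inv_cancel]
  apply Mot.ext''
  · exact mapS_one φ
  · exact map_one (Units.map (φ : R →* S))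

/-- passage to the opposite composition law -/
lemma IsMonomorphism.inv (h : IsMonomorphism ρ) :
    IsMonoA (fun (R : Type) [CommRing R] [Algebra ℚ R] (g : Mot R) => ρ R g⁻¹) where
  natural := by
    intro R S _ _ _ _ φ g w
    change (ρ S (g.map φ)⁻¹).ser w = _
    rw [map_inv_mot]
    exact (h.natural R S φ g⁻¹).2 w
  naturalLam := by
    intro R S _ _ _ _ φ g
    change (ρ S (g.map φ)⁻¹).lam = _
    rw [map_inv_mot]
    exact (h.natural R S φ g⁻¹).1
  mul := by
    intro R _ _ g g'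
    change IsProduct (ρ R g'⁻¹) (ρ R g⁻¹) (ρ R (g * g')⁻¹)
    rw [mul_inv_rev]
    exact h.mul R g'⁻¹ g⁻¹
  injective := by
    intro R _ _ g g' hg
    exact inv_injective (h.injective R hg)

end Inv

variable {ρ : ∀ (R : Type) [CommRing R] [Algebra ℚ R], Mot R → GT R} (hρ : IsMonoA ρ)

section Lam1

variable {R : Type} [CommRing R] [Algebra ℚ R]

include hρ

lemma lam_mul (g h : Mot R) : (ρ R (g * h)).lam = (ρ R g).lam * (ρ R h).lam := by
  rw [(hρ.mul R g h).lam, mul_comm]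

lemma lam_one : (ρ R 1).lam = 1 := by
  have h := lam_mul hρ (R := R) 1 1
  rw [mul_one] at h
  exact left_eq_mul.1 h

lemma lam_conj (c : Rˣ) (u : Ser ℕ R) (hu : IsGroupLike u.cf) (v : Ser ℕ R)
    (hv : IsGroupLike v.cf) (huv : v = scl (c : R) u) :
    (ρ R (U1 v hv)).lam = (ρ R (U1 u hu)).lam := by
  have h := congrArg (fun g => (ρ R g).lam) (C1_mul_U1 c u hu v hv huv)
  simp only [lam_mul hρ] at h
  rw [mul_comm] at h
  exact (mul_right_cancel h).symm

lemma lam_nat {S : Type} [CommRing S] [Algebra ℚ S] (φ : R →+* S) (u : Ser ℕ R)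
    (hu : IsGroupLike u.cf) (v : Ser ℕ S) (hv : IsGroupLike v.cf) (h : mapS φ u = v) :
    ((ρ S (U1 v hv)).lam : S) = φ ((ρ R (U1 u hu)).lam : R) := by
  subst h
  rw [← U1_map φ u hu hv, hρ.naturalLam R S φ]
  rfl

/-- the composition of `ρ` and `λ` is trivial on `U` -/
lemma lam_U1 (u : Ser ℕ R) (hu : IsGroupLike u.cf) : (ρ R (U1 u hu)).lam = 1 := by
  let u' : Ser ℕ R[X] := scl (X : R[X]) (mapS (C : R →+* R[X]) u)
  have hu' : IsGroupLike u'.cf := gl_scale _ (gl_map (C : R →+* R[X]) hu)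
  have u'_apply : ∀ w, u' w = X ^ weight w * C (u w) := fun w => rfl
  set p : R[X] := ((ρ R[X] (U1 u' hu')).lam : R[X]) with hp
  have h0 : p.coeff 0 = 1 := by
    have e1 : mapS (evalRingHom (0 : R)) u' = 1 := by
      apply Ser.ext'
      intro v
      rw [mapS_apply, u'_apply]
      cases v with
      | nil => simp [weight_nil, hu.one]
      | cons a v => simp [weight_cons]
    have e2 := lam_nat hρ (evalRingHom (0 : R)) u' hu' 1 gl_one e1
    rw [U1_one, lam_one hρ, Units.val_one, ← hp] at e2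
    rw [coeff_zero_eq_eval_zero]
    exact e2.symm
  have h1 : ∀ i : ℕ, i ≠ 0 → p.coeff i = 0 := by
    intro i hi
    let σ : R[X] →+* R[X] := compRingHom (C (algebraMap ℚ R 2) * X)
    have e1 : mapS σ u' = scl ((twoU R[X] : R[X]ˣ) : R[X]) u' := by
      apply Ser.ext'
      intro v
      change (X ^ weight v * C (u v)).comp (C (algebraMap ℚ R 2) * X) =
        (algebraMap ℚ R[X] 2) ^ weight v * (X ^ weight v * C (u v))
      rw [mul_comp, pow_comp, X_comp, C_comp, mul_pow, mul_assoc]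
      rfl
    have hv : IsGroupLike (scl ((twoU R[X] : R[X]ˣ) : R[X]) u').cf := gl_scale _ hu'
    have e2 := lam_nat hρ σ u' hu' _ hv e1
    rw [lam_conj hρ (twoU R[X]) u' hu' _ hv rfl, ← hp] at e2
    have e4 := congrArg (fun p : R[X] => p.coeff i) e2
    change p.coeff i = (p.comp (C (algebraMap ℚ R 2) * X)).coeff i at e4
    rw [comp_C_mul_X_coeff] at e4
    apply two_pow_coeff hi
    rw [← e4]
    ring
  have h2 : p = 1 := by
    ext i
    by_cases hi : i = 0
    · rw [hi, h0, coeff_one_zero]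
    · rw [h1 i hi, coeff_one, if_neg hi]
  have e1 : mapS (evalRingHom (1 : R)) u' = u := by
    apply Ser.ext'
    intro v
    rw [mapS_apply, u'_apply]
    simp
  have e2 := lam_nat hρ (evalRingHom (1 : R)) u' hu' u hu e1
  rw [← hp, h2, map_one] at e2
  exact Units.ext e2

lemma rhoA_one_triv (n : ℕ) : Triv n (ρ R 1) := by
  induction n with
  | zero => intro w _ h; omega
  | succ n ih =>
    intro w h1 h2
    by_cases h : w.length < n
    · exact ih w h1 h
    · have h3 := hρ.mul R 1 1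
      rw [one_mul] at h3
      have h4 := (cmp2 h3 (lam_one hρ) ih).2 w (by omega) h1
      exact left_eq_add.1 h4

lemma rhoA_one {w : List (Fin 2)} (hw : w ≠ []) : (ρ R 1).ser w = 0 :=
  rhoA_one_triv hρ (w.length + 1) w hw (by omega)

lemma natA_U1 {S : Type} [CommRing S] [Algebra ℚ S] (φ : R →+* S) (u : Ser ℕ R)
    (hu : IsGroupLike u.cf) (v : Ser ℕ S) (hv : IsGroupLike v.cf) (h : mapS φ u = v)
    (w : List (Fin 2)) : (ρ S (U1 v hv)).ser w = φ ((ρ R (U1 u hu)).ser w) := by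
  subst h
  rw [← hρ.natural R S φ, U1_map φ u hu hv]

/-- equivariance of the leading terms -/
lemma equivA_lead (c : Rˣ) (u : Ser ℕ R) (hu : IsGroupLike u.cf) (v : Ser ℕ R)
    (hv : IsGroupLike v.cf) (huv : v = scl (c : R) u) {n : ℕ} (hn : Triv n (ρ R (U1 u hu))) :
    Triv n (ρ R (U1 v hv)) ∧ ∀ w : List (Fin 2), w.length = n → w ≠ [] →
      (ρ R (U1 v hv)).ser w = ((ρ R (C1 c)).lam : R) ^ n * (ρ R (U1 u hu)).ser w := by
  have hP := C1_mul_U1 c u hu v hv huv
  have h1 := hρ.mul R (C1 c) (U1 u hu)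
  have h2 := hρ.mul R (U1 v hv) (C1 c)
  rw [← hP] at h2
  have step : ∀ m ≤ n, Triv m (ρ R (U1 v hv)) → ∀ w : List (Fin 2), w.length = m → w ≠ [] →
      (ρ R (U1 v hv)).ser w = ((ρ R (C1 c)).lam : R) ^ m * (ρ R (U1 u hu)).ser w := by
    intro m hm ht w hw hne
    have e1 := (cmp1 h1 (lam_U1 hρ u hu) (hn.mono hm)).2 w hw hne
    have e2 := (cmp2 h2 (lam_U1 hρ v hv) ht).2 w hw hne
    rw [e1] at e2
    exact (add_left_cancel e2).symm
  have ht : ∀ m ≤ n, Triv m (ρ R (U1 v hv)) := by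
    intro m
    induction m with
    | zero => intro _ w _ h; omega
    | succ m ih =>
      intro hm w h1 h2
      by_cases h : w.length < m
      · exact ih (by omega) w h1 h
      · rw [step m (by omega) (ih (by omega)) w (by omega) h1, hn w h1 (by omega), mul_zero]
  exact ⟨ht n le_rfl, step n le_rfl (ht n le_rfl)⟩

end Lam1

section Lam2

/-- `exp (s x)` for an element `x` of the free Lie algebra -/
def Zs (x : FreeLieAlgebra ℚ ℕ) {S : Type} [CommRing S] [Algebra ℚ S] (s : S) : Ser ℕ S :=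
  s • mapS (algebraMap ℚ S) (sN x)

lemma Zs_prim (x : FreeLieAlgebra ℚ ℕ) {S : Type} [CommRing S] [Algebra ℚ S] (s : S) :
    IsPrim (Zs x s) := (mapS_prim _ (prim_sN x)).smul s

lemma Zs_hom {n : ℕ} {x : FreeLieAlgebra ℚ ℕ} (hx : x ∈ freeWt ℚ n) {S : Type} [CommRing S]
    [Algebra ℚ S] (s : S) : HomW n (Zs x s) :=
  HomW.smul (fun v hv => by rw [mapS_apply, homW_sN hx v hv, map_zero]) s

lemma Zs_map (x : FreeLieAlgebra ℚ ℕ) {S T : Type} [CommRing S] [Algebra ℚ S] [CommRing T]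
    [Algebra ℚ T] (φ : S →+* T) (s : S) : mapS φ (Zs x s) = Zs x (φ s) := by
  unfold Zs
  rw [mapS_smul]
  congr 1
  apply Ser.ext'
  intro w
  have : φ.comp (algebraMap ℚ S) = algebraMap ℚ T := Subsingleton.elim _ _
  exact RingHom.congr_fun this _

lemma eval_inr {R : Type} [CommRing R] [Algebra ℚ R] (r : R) (p : ℚ[X]) :
    eval₂ (algebraMap ℚ (TrivSqZeroExt R R)) (TrivSqZeroExt.inr r) p =
      TrivSqZeroExt.inl (algebraMap ℚ R (p.coeff 0)) +
        TrivSqZeroExt.inr (algebraMap ℚ R (p.coeff 1) * r) := by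
  have h0 : ∀ q : ℚ[X], (eval₂ (algebraMap ℚ (TrivSqZeroExt R R)) (TrivSqZeroExt.inr r) q).fst =
      algebraMap ℚ R (q.coeff 0) := by
    intro q
    have h1 := hom_eval₂ q (algebraMap ℚ (TrivSqZeroExt R R))
      (TrivSqZeroExt.fstHom R R R : TrivSqZeroExt R R →+* R) (TrivSqZeroExt.inr r)
    have h2 : (TrivSqZeroExt.fstHom R R R : TrivSqZeroExt R R →+* R) (TrivSqZeroExt.inr r) = 0 :=
      rfl
    rw [h2] at h1
    have h3 : ((TrivSqZeroExt.fstHom R R R : TrivSqZeroExt R R →+* R).comp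
        (algebraMap ℚ (TrivSqZeroExt R R))) = algebraMap ℚ R := Subsingleton.elim _ _
    rw [h3, eval₂_at_zero] at h1
    exact h1
  have e : p = divX p * X + C (p.coeff 0) := (divX_mul_X_add p).symm
  conv_lhs => rw [e]
  rw [eval₂_add, eval₂_mul, eval₂_X, eval₂_C]
  have h4 : ∀ q : ℚ, algebraMap ℚ (TrivSqZeroExt R R) q = TrivSqZeroExt.inl (algebraMap ℚ R q) :=
    fun q => rfl
  rw [h4]
  ext
  · simp [TrivSqZeroExt.fst_mul]
  · rw [TrivSqZeroExt.snd_add, TrivSqZeroExt.snd_mul, h0, TrivSqZeroExt.fst_inr,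
      TrivSqZeroExt.snd_inr, TrivSqZeroExt.snd_inl, TrivSqZeroExt.snd_add, TrivSqZeroExt.snd_inl,
      TrivSqZeroExt.snd_inr, coeff_divX]
    simp

include hρ

/-- comparison of the actions of `𝔾_m` -/
lemma exists_degree {n : ℕ} (hn : 1 ≤ n) {x : FreeLieAlgebra ℚ ℕ} (hx : x ∈ freeWt ℚ n)
    (hx0 : x ≠ 0) : ∃ m : ℕ, 1 ≤ m ∧ ∀ (R : Type) [CommRing R] [Algebra ℚ R] (c : Rˣ),
      (c : R) ^ n = ((ρ R (C1 c)).lam : R) ^ m := by
  set p : List (Fin 2) → ℚ[X] := (ρ ℚ[X] (U1 (expS (Zs x (X : ℚ[X]))) (gl_exp (Zs_prim x _)))).ser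
    with hp
  have key : ∀ {S : Type} [CommRing S] [Algebra ℚ S] (s : S) (w : List (Fin 2)),
      (ρ S (U1 (expS (Zs x s)) (gl_exp (Zs_prim x _)))).ser w = eval₂ (algebraMap ℚ S) s (p w) := by
    intro S _ _ s w
    refine natA_U1 hρ (eval₂RingHom (algebraMap ℚ S) s) (expS (Zs x X)) (gl_exp (Zs_prim x _)) _ _ ?_ w
    rw [mapS_expS, Zs_map]
    simp
  have hp0 : ∀ w : List (Fin 2), w ≠ [] → (p w).coeff 0 = 0 := by
    intro w hw
    have h1 := key (0 : ℚ) w
    have h2 : U1 (expS (Zs x (0 : ℚ))) (gl_exp (Zs_prim x _)) = 1 := by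
      rw [← U1_one gl_one]
      apply U1_congr
      unfold Zs
      rw [zero_smul]
      apply Ser.ext'
      intro v
      rw [expS_apply rfl (M := v.length + 1) (by omega), Ser.sum_apply, Finset.sum_range_succ',
        Finset.sum_eq_zero]
      · simp [ec_zero]
      · intro k _
        rw [zero_pow (by omega), smul_zero]
        rfl
    rw [h2, rhoA_one hρ hw, eval₂_at_zero] at h1
    simpa using h1.symm
  -- some coefficient is not zero
  have hex : ∃ m : ℕ, ∃ w : List (Fin 2), w ≠ [] ∧ w.length = m ∧ (p w).coeff 1 ≠ 0 := by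
    by_contra hcon
    push Not at hcon
    have e1 : ρ (TrivSqZeroExt ℚ ℚ) (U1 (expS (Zs x (TrivSqZeroExt.inr 1))) (gl_exp (Zs_prim x _))) =
        ρ (TrivSqZeroExt ℚ ℚ) 1 := by
      apply GT_ext
      · rw [lam_U1 hρ, lam_one hρ]
      · intro w
        by_cases hw : w = []
        · rw [hw, GT.isGroupLike _ |>.one, GT.isGroupLike _ |>.one]
        · rw [key, eval_inr, hp0 w hw, hcon w.length w hw rfl, rhoA_one hρ hw]
          simp
    have h2 := congrArg Mot.S (hρ.injective _ e1)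
    rw [U1_S, Mot.one_S] at h2
    apply hx0
    apply sN_inj
    apply Ser.ext'
    intro v
    by_cases hv : weight v = n
    · have e1 := expS_agree hn (Zs_hom hx (TrivSqZeroExt.inr 1 : TrivSqZeroExt ℚ ℚ)) v (by omega)
      rw [h2, Ser.add_apply] at e1
      have e2 := left_eq_add.1 e1
      have e3 := congrArg TrivSqZeroExt.snd e2
      change (TrivSqZeroExt.inr 1 * TrivSqZeroExt.inl (sN x v) : TrivSqZeroExt ℚ ℚ).snd = 0 at e3
      rw [TrivSqZeroExt.snd_mul, TrivSqZeroExt.fst_inr, TrivSqZeroExt.snd_inr,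
        TrivSqZeroExt.fst_inl, TrivSqZeroExt.snd_inl] at e3
      simpa using e3
    · exact homW_sN hx v hv
  classical
  obtain ⟨w, hw1, hw2, hw3⟩ := Nat.find_spec hex
  set m := Nat.find hex with hm
  have hmin : ∀ v : List (Fin 2), v ≠ [] → v.length < m → (p v).coeff 1 = 0 := by
    intro v h1 h2
    by_contra h3
    exact Nat.find_min hex h2 ⟨v, h1, rfl, h3⟩
  refine ⟨m, ?_, ?_⟩
  · rw [← hw2]
    exact List.length_pos_of_ne_nil hw1
  · intro R _ _ c
    let D := TrivSqZeroExt R R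
    let ι : R →+* D := TrivSqZeroExt.inlHom R R
    let c' : Dˣ := Units.map ι c
    have hcv : (c' : D) = TrivSqZeroExt.inl (c : R) := rfl
    have hcp : ∀ (l : R) (k : ℕ) (r : R), (TrivSqZeroExt.inl l : D) ^ k * TrivSqZeroExt.inr r =
        TrivSqZeroExt.inr (l ^ k * r) := by
      intro l k r
      rw [TrivSqZeroExt.inl_pow, TrivSqZeroExt.inl_mul_inr]
      rfl
    have hE : expS (Zs x (TrivSqZeroExt.inr ((c : R) ^ n) : D)) =
        scl (c' : D) (expS (Zs x (TrivSqZeroExt.inr 1 : D))) := by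
      rw [expS_scl, (Zs_hom hx _).scl, hcv]
      congr 1
      unfold Zs
      rw [smul_smul, hcp, mul_one]
    have hT : Triv m (ρ D (U1 (expS (Zs x (TrivSqZeroExt.inr 1 : D))) (gl_exp (Zs_prim x _)))) := by
      intro v h1 h2
      rw [key, eval_inr, hp0 v h1, hmin v h1 h2]
      simp
    have h1 := (equivA_lead hρ c' _ (gl_exp (Zs_prim x _)) _ (gl_exp (Zs_prim x _)) hE hT).2 w hw2 hw1
    rw [key, key, eval_inr, eval_inr, hp0 w hw1] at h1
    have h2 : ((ρ D (C1 c')).lam : D) = TrivSqZeroExt.inl ((ρ R (C1 c)).lam : R) := by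
      have := hρ.naturalLam R D ι (C1 c)
      rw [C1_map] at this
      exact congrArg Units.val this
    rw [h2] at h1
    rw [map_zero, TrivSqZeroExt.inl_zero, zero_add, zero_add, mul_one, hcp] at h1
    have h3 := TrivSqZeroExt.inr_injective h1
    have h4 : algebraMap ℚ R ((p w).coeff 1) * ((c : R) ^ n - ((ρ R (C1 c)).lam : R) ^ m) = 0 := by
      rw [mul_sub, h3]
      ring
    exact sub_eq_zero.1 (rat_cancel _ hw3 _ h4)

omit hρ in
lemma gen_mem (i : ℕ) : FreeLieAlgebra.of ℚ i ∈ freeWt ℚ (2 * i + 3) :=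
  Submodule.subset_span ⟨[i], by simp, rfl⟩

omit hρ in
lemma gen_ne (i : ℕ) : FreeLieAlgebra.of ℚ i ≠ 0 := by
  intro h
  have h1 : sN (FreeLieAlgebra.of ℚ i) [i] = sN 0 [i] := by rw [h]
  rw [sN_eq, sN_eq, embN_of, map_zero, toS_zero] at h1
  have e : toS (letter ℚ i) = toS (letter ℚ i * 1) := by rw [mul_one]
  rw [e, toS_letter_cons, if_pos rfl, toS_one] at h1
  simp at h1

/-- the composition of `ρ` and `λ` is the projection to `𝔾_m` -/
theorem lam_C1 {R : Type} [CommRing R] [Algebra ℚ R] (c : Rˣ) : (ρ R (C1 c)).lam = c := by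
  obtain ⟨m3, h3, k3⟩ := exists_degree hρ (by norm_num) (gen_mem 0) (gen_ne 0)
  obtain ⟨m5, h5, k5⟩ := exists_degree hρ (by norm_num) (gen_mem 1) (gen_ne 1)
  have e3 := k3 ℚ (twoU ℚ)
  have e5 := k5 ℚ (twoU ℚ)
  set l : ℚ := ((ρ ℚ (C1 (twoU ℚ))).lam : ℚ) with hl
  have hl0 : l ≠ 0 := Units.ne_zero _
  have tw : ((twoU ℚ : ℚˣ) : ℚ) = 2 := rfl
  rw [tw] at e3 e5
  have v3 := congrArg (padicValRat 2) e3
  have v5 := congrArg (padicValRat 2) e5
  rw [padicValRat.pow, padicValRat.pow] at v3 v5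
  have v2 : padicValRat 2 (2 : ℚ) = 1 := by
    have := padicValRat.self (p := 2) (by norm_num)
    exact_mod_cast this
  rw [v2] at v3 v5
  set v := padicValRat 2 l with hv
  simp only [mul_zero, zero_add, mul_one] at v3 v5
  have hv1 : v = 1 := by
    have d3 : v ∣ 3 := ⟨m3, by push_cast at v3; linarith⟩
    have d5 : v ∣ 5 := ⟨m5, by push_cast at v5; linarith⟩
    have d1 : v ∣ 1 := by
      have : (1 : ℤ) = 2 * 3 - 5 := by norm_num
      rw [this]
      exact dvd_sub (Dvd.dvd.mul_left d3 2) d5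
    have hpos : 0 < v := by
      by_contra hneg
      have h6 : (m3 : ℤ) * v ≤ 0 := mul_nonpos_of_nonneg_of_nonpos (by positivity) (by omega)
      push_cast at v3
      omega
    exact le_antisymm (Int.le_of_dvd one_pos d1) hpos
  rw [hv1] at v3 v5
  have hm3 : m3 = 3 := by push_cast at v3; omega
  have hm5 : m5 = 5 := by push_cast at v5; omega
  have f3 := k3 R c
  have f5 := k5 R c
  rw [hm3] at f3
  rw [hm5] at f5
  simp only [mul_zero, zero_add, mul_one] at f3 f5
  set L := (ρ R (C1 c)).lam with hL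
  have g3 : c ^ 3 = L ^ 3 := Units.ext (by push_cast; exact f3)
  have g5 : c ^ 5 = L ^ 5 := Units.ext (by push_cast; norm_num at f5; exact f5)
  calc L = (L ^ 3) ^ 2 * (L ^ 5)⁻¹ := by group
    _ = (c ^ 3) ^ 2 * (c ^ 5)⁻¹ := by rw [g3, g5]
    _ = c := by group

theorem IsMonoA.isMono : IsMono ρ where
  natural := hρ.natural
  lam := by
    intro R _ _ g
    conv_lhs => rw [eq_U1_mul_C1 g]
    rw [lam_mul hρ, lam_U1 hρ, lam_C1 hρ, one_mul]
  mul := hρ.mul
  injective := hρ.injective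

end Lam2

end MP446I
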