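import Pool.Agent.Lib.MP_446dfa_ag.grp.Prim
import Pool.Agent.Lib.MP_446dfa_ag.gt.Rep2

set_option linter.all false

/-!
# Leading terms of differences, over a commutative `ℚ`-algebra
-/

noncomputable section

namespace MP446I

open MP446 MP446Y MP446Z MP446S MP446G

section LeadR

variable {R : Type} [CommRing R] {S : Type} [CommRing S] [Algebra R S] {E : Type} [Ring E]
  [Algebra R E] [Algebra S E] [IsScalarTower R S E]

lemma smc (c : R) (r : S) (x : E) : c • r • x = r • c • x := by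
  rw [← algebraMap_smul S c (r • x), ← algebraMap_smul S c x, smul_smul, smul_smul, mul_comm]

variable (R E) in
/-- the multiples of `ε` -/
def epI (ε : S) : Submodule R E where
  carrier := {a | ∃ c : E, a = ε • c}
  add_mem' := by
    rintro _ _ ⟨c, rfl⟩ ⟨d, rfl⟩
    exact ⟨c + d, by rw [smul_add]⟩
  zero_mem' := ⟨0, by rw [smul_zero]⟩
  smul_mem' := by
    rintro k _ ⟨c, rfl⟩
    exact ⟨k • c, smc _ _ _⟩

variable {ε : S} {n : ℕ}

lemma prod_ep (l : List E) (h : ∀ x ∈ l, x ∈ epI R E ε) : ∃ c : E, l.prod = ε ^ l.length • c := by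
  induction l with
  | nil => exact ⟨1, by simp⟩
  | cons x l ih =>
    obtain ⟨c, hc⟩ := ih (fun y hy => h y (List.mem_cons_of_mem _ hy))
    obtain ⟨d, hd⟩ := h x List.mem_cons_self
    exact ⟨d * c, by rw [List.prod_cons, hc, hd, smul_mul_smul_comm, List.length_cons, pow_succ,
      mul_comm ε]⟩

lemma isNilp_ep (hε : ε ^ (n + 1) = 0) : IsNilp (n + 1) (epI R E ε) where
  mul_mem := by
    rintro _ ⟨c, rfl⟩ y _
    exact ⟨c * y, by rw [smul_mul_assoc]⟩
  prod_zero := by
    intro l hl hn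
    obtain ⟨c, hc⟩ := prod_ep l hl
    rw [hc, hn, hε, zero_smul]

lemma word_ep (w : List (Fin 2)) (A B s t : E) :
    ∃ c : E, (w.map ![ε • (A + ε • s), ε • (B + ε • t)]).prod =
      ε ^ w.length • ((w.map ![A, B]).prod + ε • c) := by
  induction w with
  | nil => exact ⟨0, by simp⟩
  | cons i w ih =>
    obtain ⟨c, hc⟩ := ih
    have key2 : ∀ (X s : E), ∃ c' : E, (ε • (X + ε • s)) * (ε ^ w.length • ((w.map ![A, B]).prod + ε • c))
        = ε ^ (w.length + 1) • (X * (w.map ![A, B]).prod + ε • c') := by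
      intro X s
      refine ⟨X * c + s * (w.map ![A, B]).prod + ε • (s * c), ?_⟩
      rw [smul_mul_smul_comm, pow_succ, mul_comm ε]
      congr 1
      rw [add_mul, mul_add, mul_add, mul_smul_comm, smul_mul_assoc, smul_mul_smul_comm, smul_add,
        smul_add, smul_smul]
      abel
    rw [List.map_cons, List.prod_cons, hc, List.map_cons, List.prod_cons, List.length_cons]
    fin_cases i
    · exact key2 A s
    · exact key2 B t

lemma ep_zero {k : ℕ} (hε : ε ^ (n + 1) = 0) (hk : n + 1 ≤ k) : ε ^ k = 0 := by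
  rw [show k = (n + 1) + (k - (n + 1)) by omega, pow_add, hε, zero_mul]

/-- the value is a finite sum -/
lemma val_sum (f : List (Fin 2) → R) (hε : ε ^ (n + 1) = 0) (A B s t : E) :
    val f (ε • (A + ε • s)) (ε • (B + ε • t)) =
      ∑ w ∈ wl (n + 1), f w • (w.map ![ε • (A + ε • s), ε • (B + ε • t)]).prod := by
  unfold val
  rw [finsum_eq_sum_of_support_subset]
  intro w hw
  rw [Finset.mem_coe, mem_wl]
  by_contra h
  apply hw
  obtain ⟨c, hc⟩ := word_ep (ε := ε) w A B s t
  change f w • (w.map ![ε • (A + ε • s), ε • (B + ε • t)]).prod = 0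
  rw [hc, ep_zero hε (by omega), zero_smul, smul_zero]

/-- the leading term of a difference of two values -/
lemma val_diff {f g : List (Fin 2) → R} (hfg : ∀ w : List (Fin 2), w.length < n → f w = g w)
    (hε : ε ^ (n + 1) = 0) (A B s t : E) :
    val f (ε • (A + ε • s)) (ε • (B + ε • t)) = val g (ε • (A + ε • s)) (ε • (B + ε • t)) +
      ε ^ n • EV A B (prt (fun w => f w - g w) n) := by
  rw [val_sum f hε, val_sum g hε, EV_prt, Sn_eq, Finset.smul_sum, ← sub_eq_iff_eq_add',
    ← Finset.sum_sub_distrib, Finset.sum_filter]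
  refine Finset.sum_congr rfl (fun w hw => ?_)
  rw [mem_wl] at hw
  rw [← sub_smul]
  by_cases h : w.length = n
  · rw [if_pos h]
    obtain ⟨c, hc⟩ := word_ep (ε := ε) w A B s t
    rw [hc, h, smul_add, smul_smul, ← pow_succ, hε, zero_smul, add_zero, smc]
  · rw [if_neg h, hfg w (by omega), sub_self, zero_smul]

lemma val_one {f : List (Fin 2) → R} (h0 : f [] = 1) (hε : ε ^ (n + 1) = 0) (A B s t : E) :
    ∃ c : E, val f (ε • (A + ε • s)) (ε • (B + ε • t)) = 1 + ε • c := by
  rw [val_sum f hε, ← Finset.insert_erase (s := wl (n + 1)) (a := []) (by rw [mem_wl]; simp),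
    Finset.sum_insert (Finset.notMem_erase _ _)]
  have h : ∀ w ∈ (wl (n + 1)).erase [], f w • (w.map ![ε • (A + ε • s), ε • (B + ε • t)]).prod ∈
      epI R E ε := by
    intro w hw
    rw [Finset.mem_erase] at hw
    obtain ⟨c, hc⟩ := word_ep (ε := ε) w A B s t
    apply Submodule.smul_mem
    have := List.length_pos_of_ne_nil hw.1
    refine ⟨ε ^ (w.length - 1) • ((w.map ![A, B]).prod + ε • c), ?_⟩
    rw [hc, smul_smul, ← pow_succ']
    congr 2
    omega
  obtain ⟨c, hc⟩ := Submodule.sum_mem _ h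
  exact ⟨c, by rw [hc, h0]; simp⟩

lemma Lead.mem' {g A : E} (hg : Lead ε g A) : g - 1 ∈ epI R E ε := by
  obtain ⟨s, rfl⟩ := hg
  exact ⟨A + ε • s, by abel⟩

variable [Algebra ℚ R]

/-- sums of a power series without the first terms -/
lemma ser_lead (hε : ε ^ (n + 1) = 0) (c : ℕ → R) (y : E) (k₀ : ℕ) :
    ∃ s : E, ∑ᶠ k : ℕ, c k • (ε • y) ^ (k + k₀) = c 0 • (ε • y) ^ k₀ + ε ^ (k₀ + 1) • s := by
  have h1 : ∀ k : ℕ, (ε • y) ^ k = ε ^ k • y ^ k := fun k => smul_pow _ _ _
  rw [finsum_eq_sum_of_support_subset (s := Finset.range (n + 1)), Finset.sum_range_succ']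
  · refine ⟨∑ k ∈ Finset.range n, c (k + 1) • (ε ^ k • y ^ (k + 1 + k₀)), ?_⟩
    rw [add_comm, zero_add]
    congr 1
    rw [Finset.smul_sum]
    refine Finset.sum_congr rfl (fun k _ => ?_)
    rw [h1, smc (c (k + 1)) (ε ^ (k + 1 + k₀)), smc (c (k + 1)) (ε ^ k),
      smul_smul (ε ^ (k₀ + 1)), ← pow_add]
    congr 2
    omega
  · intro k hk
    rw [Finset.mem_coe, Finset.mem_range]
    by_contra h
    apply hk
    change c k • (ε • y) ^ (k + k₀) = 0
    rw [h1, ep_zero hε (by omega), zero_smul, smul_zero]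

lemma log_lead (hε : ε ^ (n + 1) = 0) {g A : E} (hg : Lead ε g A) :
    ∃ s : E, logU R g = ε • (A + ε • s) := by
  obtain ⟨s, rfl⟩ := hg
  unfold logU
  rw [add_sub_cancel_left]
  obtain ⟨t, ht⟩ := ser_lead (R := R) hε (fun k => algebraMap ℚ R ((-1) ^ k / (k + 1)))
    (A + ε • s) 1
  refine ⟨s + t, ?_⟩
  rw [ht]
  simp only [pow_zero, Nat.cast_zero, zero_add, div_one, map_one, one_smul, pow_one]
  rw [show (1 + 1 : ℕ) = 2 from rfl, pow_two, ← smul_smul]
  simp only [smul_add]
  abel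

lemma powU_lead (hε : ε ^ (n + 1) = 0) {g A : E} (hg : Lead ε g A) (r : R) :
    Lead ε (powU g r) (r • A) := by
  obtain ⟨s, rfl⟩ := hg
  unfold powU
  rw [add_sub_cancel_left]
  have h0 : ∀ k : ℕ, ¬ k < n + 1 → (ε • (A + ε • s)) ^ k = 0 := by
    intro k hk
    rw [smul_pow, ep_zero hε (by omega), zero_smul]
  rw [finsum_eq_sum_of_support_subset (s := Finset.range (n + 1 + 1)), Finset.sum_range_succ',
    Finset.sum_range_succ']
  · refine ⟨r • s + ∑ k ∈ Finset.range n, (algebraMap ℚ R (1 / (k + 1 + 1).factorial) *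
      ∏ i ∈ Finset.range (k + 1 + 1), (r - i)) • (ε ^ k • (A + ε • s) ^ (k + 2)), ?_⟩
    have e1 : ∀ k : ℕ, (algebraMap ℚ R (1 / (k + 1 + 1).factorial) *
        ∏ i ∈ Finset.range (k + 1 + 1), (r - i)) • (ε • (A + ε • s)) ^ (k + 1 + 1) =
        ε • ε • ((algebraMap ℚ R (1 / (k + 1 + 1).factorial) *
        ∏ i ∈ Finset.range (k + 1 + 1), (r - i)) • (ε ^ k • (A + ε • s) ^ (k + 2))) := by
      intro k
      rw [smul_pow, smc _ (ε ^ (k + 1 + 1)), smc _ (ε ^ k), smul_smul ε (ε ^ k), smul_smul ε,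
        ← pow_succ', ← pow_succ']
    rw [Finset.sum_congr rfl (fun k _ => e1 k), ← Finset.smul_sum, ← Finset.smul_sum]
    simp only [zero_add, Nat.factorial_zero, Nat.factorial_one, Nat.cast_one, div_one, map_one,
      one_mul, Finset.prod_range_one, Finset.prod_range_zero, Nat.cast_zero, sub_zero, pow_zero,
      one_smul, pow_one, smul_add]
    rw [smc r ε A, smc r ε (ε • s), smc r ε s]
    generalize (∑ k ∈ Finset.range n, (algebraMap ℚ R (1 / (k + 1 + 1).factorial) *
      ∏ i ∈ Finset.range (k + 1 + 1), (r - i)) • (ε ^ k • (A + ε • s) ^ (k + 2))) = Z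
    abel
  · intro k hk
    rw [Finset.mem_coe, Finset.mem_range]
    by_contra h
    apply hk
    change _ • (ε • (A + ε • s)) ^ k = 0
    rw [h0 k (by omega), smul_zero]

omit [Algebra S E] [IsScalarTower R S E] in
lemma powU_one (g : E) : powU g (1 : R) = g := by
  unfold powU
  rw [finsum_eq_sum_of_support_subset (s := Finset.range 2), Finset.sum_range_succ,
    Finset.sum_range_one]
  · simp
  · intro k hk
    rw [Finset.mem_coe, Finset.mem_range]
    by_contra h
    apply hk
    have : ∏ i ∈ Finset.range k, ((1 : R) - i) = 0 :=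
      Finset.prod_eq_zero (Finset.mem_range.2 (show 1 < k by omega)) (by simp)
    change (_ * ∏ i ∈ Finset.range k, ((1 : R) - i)) • (g - 1) ^ k = 0
    rw [this, mul_zero, zero_smul]

/-- the leading term of a difference -/
lemma app_diff {f g : List (Fin 2) → R} (hfg : ∀ w : List (Fin 2), w.length < n → f w = g w)
    (hε : ε ^ (n + 1) = 0) {x A y B : E} (hx : Lead ε x A) (hy : Lead ε y B) :
    app f x y = app g x y + ε ^ n • EV A B (prt (fun w => f w - g w) n) := by
  obtain ⟨s, hs⟩ := log_lead (R := R) hε hx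
  obtain ⟨t, ht⟩ := log_lead (R := R) hε hy
  unfold app
  rw [hs, ht]
  exact val_diff hfg hε A B s t

lemma app_one {f : List (Fin 2) → R} (h0 : f [] = 1) (hε : ε ^ (n + 1) = 0)
    {x A y B : E} (hx : Lead ε x A) (hy : Lead ε y B) : ∃ c : E, app f x y = 1 + ε • c := by
  obtain ⟨s, hs⟩ := log_lead (R := R) hε hx
  obtain ⟨t, ht⟩ := log_lead (R := R) hε hy
  unfold app
  rw [hs, ht]
  exact val_one h0 hε A B s t

/-- the trivial series -/
lemma app_oneF (x y : E) : app (oneF (α := Fin 2) (A := R)) x y = 1 := by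
  unfold app val
  rw [finsum_eq_single _ []]
  · simp [oneF]
  · intro w hw
    cases w with
    | nil => exact absurd rfl hw
    | cons a w => rw [oneF, zero_smul]

end LeadR

section Cg

variable {S : Type} [CommRing S] {E : Type} [Ring E] [Algebra S E] {ε : S} {n : ℕ}

/-- `P = Q + ε ^ n D` and `Q` is congruent to `1` modulo `ε` -/
def Cg (ε : S) (n : ℕ) (P Q D : E) : Prop := P = Q + ε ^ n • D ∧ ∃ c : E, Q = 1 + ε • c

lemma Cg.mul (hn : 1 ≤ n) (hε : ε ^ (n + 1) = 0) {P Q D P' Q' D' : E} (h : Cg ε n P Q D)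
    (h' : Cg ε n P' Q' D') : Cg ε n (P * P') (Q * Q') (D + D') := by
  obtain ⟨rfl, c, hc⟩ := h
  obtain ⟨rfl, c', hc'⟩ := h'
  have e0 : ε ^ n * ε ^ n = 0 := by
    rw [← pow_add, show n + n = (n + 1) + (n - 1) by omega, pow_add, hε, zero_mul]
  have e1 : Q * ε ^ n • D' = ε ^ n • D' := by
    rw [hc, add_mul, one_mul, smul_mul_smul_comm, ← pow_succ', hε, zero_smul, add_zero]
  have e2 : ε ^ n • D * Q' = ε ^ n • D := by
    rw [hc', mul_add, mul_one, smul_mul_smul_comm, ← pow_succ, hε, zero_smul, add_zero]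
  refine ⟨?_, c + c' + ε • (c * c'), ?_⟩
  · rw [add_mul, mul_add, mul_add, smul_mul_smul_comm, e0, zero_smul, e1, e2, smul_add]
    abel
  · rw [hc, hc', add_mul, one_mul, mul_add, mul_one, smul_mul_smul_comm, ← smul_smul]
    simp only [smul_add]
    abel

lemma Cg.refl {Q : E} (h : ∃ c : E, Q = 1 + ε • c) : Cg ε n Q Q 0 :=
  ⟨by rw [smul_zero, add_zero], h⟩

lemma Cg.eq {P Q D P' Q' D' : E} (h : Cg ε n P Q D) (h' : Cg ε n P' Q' D') (h1 : P = P')
    (h2 : Q = Q') : ε ^ n • D = ε ^ n • D' := by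
  rw [h.1, h'.1, h2] at h1
  exact add_left_cancel h1

lemma Lead.one_add {g A : E} (h : Lead ε g A) : ∃ c : E, g = 1 + ε • c := by
  obtain ⟨s, hs⟩ := h
  exact ⟨_, hs⟩

end Cg

section TRR

open Polynomial

variable (R : Type) [CommRing R] (n : ℕ)

/-- truncated polynomials -/
abbrev TRR : Type := R[X] ⧸ Ideal.span {(X : R[X]) ^ (n + 1)}

/-- the class of the variable -/
def ter : TRR R n := Ideal.Quotient.mk _ X

lemma ter_pow : ter R n ^ (n + 1) = 0 := by
  unfold ter
  rw [← map_pow, Ideal.Quotient.eq_zero_iff_mem]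
  exact Ideal.mem_span_singleton_self _

lemma ter_nilp : IsNilpotent (ter R n) := ⟨n + 1, ter_pow R n⟩

/-- the coefficient of `ε ^ n` -/
def muR : TRR R n →ₗ[R] R :=
  (Submodule.liftQ ((Ideal.span {(X : R[X]) ^ (n + 1)}).restrictScalars R) (lcoeff R n) (by
    intro p hp
    rw [Submodule.restrictScalars_mem, Ideal.mem_span_singleton] at hp
    obtain ⟨q, rfl⟩ := hp
    rw [LinearMap.mem_ker, lcoeff_apply, coeff_X_pow_mul']
    simp)) ∘ₗ
  (Submodule.Quotient.restrictScalarsEquiv R (Ideal.span {(X : R[X]) ^ (n + 1)})).symm.toLinearMap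

lemma muR_spec (c : R) : muR R n (ter R n ^ n * algebraMap R (TRR R n) c) = c := by
  have : ter R n ^ n * algebraMap R (TRR R n) c = Ideal.Quotient.mk _ (C c * X ^ n) := by
    rw [mul_comm, map_mul, map_pow]; rfl
  rw [this]
  change lcoeff R n (C c * X ^ n) = c
  rw [lcoeff_apply, coeff_C_mul, coeff_X_pow]
  simp

end TRR

section Bch

variable {R : Type} [CommRing R] {n : ℕ}

/-- base change of a polynomial -/
def bcr (n : ℕ) (Q : AA R) : AA (TRR R n) := mm (algebraMap R (TRR R n)).toAddMonoidHom Q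

lemma EV_bcr {E : Type} [Ring E] [Algebra R E] [Algebra (TRR R n) E]
    [IsScalarTower R (TRR R n) E] (a b : E) (Q : AA R) :
    EV a b (bcr n Q) = EV a b Q := by
  induction Q using MonoidAlgebra.induction_linear with
  | zero => unfold bcr; rw [map_zero, map_zero, map_zero]
  | add f g hf hg =>
    unfold bcr at hf hg ⊢
    rw [map_add, map_add, map_add, hf, hg]
  | single w c =>
    unfold bcr
    rw [mm_single, single_eq, single_eq, map_smul, map_smul, EV_ow, EV_ow]
    exact algebraMap_smul (M := E) (TRR R n) c _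

lemma bcr_eq (Q : AA R) : bcr n Q = EV (lt (TRR R n) 0) (lt (TRR R n) 1) Q := by
  have h := EV_bcr (n := n) (lt (TRR R n) 0) (lt (TRR R n) 1) Q
  rw [EV_self] at h
  exact h

lemma cf_mmr {k l : Type} [CommRing k] [CommRing l] (μ : k →+ l) (X : AA k) (w : List (Fin 2)) :
    cf (mm μ X) w = μ (cf X w) := rfl

lemma mm_backr {l : Type} [CommRing l] (ν : R →+ l) (Q : AA R) :
    mm (ν.comp (muR R n).toAddMonoidHom) (ter R n ^ n • bcr n Q) = mm ν Q := by
  apply AA_ext
  intro w
  rw [cf_mmr, cf_smul]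
  change ν (muR R n (ter R n ^ n * algebraMap R (TRR R n) (cf Q w))) = _
  rw [muR_spec]
  rfl

lemma bcr_inj {Q Q' : AA R} (h : ter R n ^ n • bcr n Q = ter R n ^ n • bcr n Q') : Q = Q' := by
  have h1 := congrArg (mm ((AddMonoidHom.id R).comp (muR R n).toAddMonoidHom)) h
  rw [mm_backr, mm_backr] at h1
  apply AA_ext
  intro w
  have h2 := congrArg (fun X => cf X w) h1
  simp only [cf_mmr] at h2
  exact h2

end Bch

end MP446I
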