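import Pool.Agent.Lib.MP_446dfa_ag.grp.Lam

set_option linter.all false

/-!
# Every monomorphism from `G` to `GT` is an isomorphism
-/

noncomputable section

namespace MP446I

open MP446 MP446Y MP446Z MP446S MP446G Polynomial

attribute [local instance 100] LieRing.ofAssociativeRing

variable {ρ : ∀ (R : Type) [CommRing R] [Algebra ℚ R], Mot R → GT R} (hρ : IsMono ρ)

section Basic

variable {R : Type} [CommRing R] [Algebra ℚ R]

include hρ

lemma rho_lam (u : Ser ℕ R) (hu : IsGroupLike u.cf) : (ρ R (U1 u hu)).lam = 1 := hρ.lam R _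

lemma rho_one_triv (n : ℕ) : Triv n (ρ R 1) := by
  induction n with
  | zero => intro w _ h; omega
  | succ n ih =>
    intro w h1 h2
    by_cases h : w.length < n
    · exact ih w h1 h
    · have h3 := hρ.mul R 1 1
      rw [one_mul] at h3
      have h4 := (cmp2 h3 (hρ.lam R 1) ih).2 w (by omega) h1
      exact left_eq_add.1 h4

lemma rho_one {w : List (Fin 2)} (hw : w ≠ []) : (ρ R 1).ser w = 0 :=
  rho_one_triv hρ (w.length + 1) w hw (by omega)

lemma nat_U1 {S : Type} [CommRing S] [Algebra ℚ S] (φ : R →+* S) (u : Ser ℕ R)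
    (hu : IsGroupLike u.cf) (v : Ser ℕ S) (hv : IsGroupLike v.cf) (h : mapS φ u = v)
    (w : List (Fin 2)) : (ρ S (U1 v hv)).ser w = φ ((ρ R (U1 u hu)).ser w) := by
  subst h
  rw [← hρ.natural R S φ, U1_map φ u hu hv]

/-- equivariance of the leading terms -/
lemma equiv_lead (c : Rˣ) (u : Ser ℕ R) (hu : IsGroupLike u.cf) (v : Ser ℕ R)
    (hv : IsGroupLike v.cf) (huv : v = scl (c : R) u) {n : ℕ} (hn : Triv n (ρ R (U1 u hu))) :
    Triv n (ρ R (U1 v hv)) ∧ ∀ w : List (Fin 2), w.length = n → w ≠ [] →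
      (ρ R (U1 v hv)).ser w = (c : R) ^ n * (ρ R (U1 u hu)).ser w := by
  let C : Mot R := ⟨(1 : Ser ℕ R).cf, c, gl_one⟩
  have hP : C * U1 u hu = U1 v hv * C := by
    apply Mot.ext''
    · rw [Mot.mul_S, U1_mul_S, U1_S, huv]
      change 1 * scl (c : R) u = scl (c : R) u * 1
      rw [one_mul, mul_one]
    · rw [Mot.mul_scal, U1_mul_scal]
      exact mul_one _
  have h1 := hρ.mul R C (U1 u hu)
  have h2 := hρ.mul R (U1 v hv) C
  rw [← hP] at h2
  have hlam : (ρ R C).lam = c := hρ.lam R C
  have step : ∀ m ≤ n, Triv m (ρ R (U1 v hv)) → ∀ w : List (Fin 2), w.length = m → w ≠ [] →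
      (ρ R (U1 v hv)).ser w = (c : R) ^ m * (ρ R (U1 u hu)).ser w := by
    intro m hm ht w hw hne
    have e1 := (cmp1 h1 (rho_lam hρ u hu) (hn.mono hm)).2 w hw hne
    have e2 := (cmp2 h2 (rho_lam hρ v hv) ht).2 w hw hne
    rw [hlam] at e1
    rw [e1] at e2
    exact (add_left_cancel e2).symm
  have ht : ∀ m ≤ n, Triv m (ρ R (U1 v hv)) := by
    intro m
    induction m with
    | zero => intro _ w _ h; omega
    | succ m ih =>
      intro hm w h1 h2
      by_cases h : w.length < m
      · exact ih (by omega) w h1 h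
      · rw [step m (by omega) (ih (by omega)) w (by omega) h1, hn w h1 (by omega), mul_zero]
  exact ⟨ht n le_rfl, step n le_rfl (ht n le_rfl)⟩

end Basic

section Filt

variable {R : Type} [CommRing R] [Algebra ℚ R]

include hρ

/-- elements of `U` of weight `≥ n` go to elements of `GT` of degree `≥ n` -/
lemma triv_of_agree (n : ℕ) (u : Ser ℕ R) (hu : IsGroupLike u.cf) (h : AgW n u 1) :
    Triv n (ρ R (U1 u hu)) := by
  cases n with
  | zero => intro w _ hw; omega
  | succ m =>
    let u' : Ser ℕ R[X] := scl (X : R[X]) (mapS (C : R →+* R[X]) u)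
    have hu' : IsGroupLike u'.cf := gl_scale _ (gl_map (C : R →+* R[X]) hu)
    set F := ρ R[X] (U1 u' hu') with hF
    have u'_apply : ∀ w, u' w = X ^ weight w * C (u w) := fun w => rfl
    -- reduction modulo `X ^ (m + 1)`
    have h3 : ∀ w : List (Fin 2), w ≠ [] → ∀ i < m + 1, (F.ser w).coeff i = 0 := by
      intro w hw
      let π : R[X] →+* TRR R m := Ideal.Quotient.mk _
      have e1 : mapS π u' = 1 := by
        apply Ser.ext'
        intro v
        rw [mapS_apply, u'_apply]
        by_cases hv : weight v < m + 1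
        · rw [h v hv]
          cases v with
          | nil => simp [weight_nil]
          | cons a v => simp
        · have hne : v ≠ [] := by
            rintro rfl
            rw [weight_nil] at hv
            omega
          have : π (X ^ weight v) = 0 := by
            change Ideal.Quotient.mk _ (X ^ weight v) = _
            rw [Ideal.Quotient.eq_zero_iff_mem, Ideal.mem_span_singleton]
            exact pow_dvd_pow X (by omega)
          rw [map_mul, this, zero_mul, Ser.one_of_ne hne]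
      have e2 := nat_U1 hρ π u' hu' 1 gl_one e1 w
      rw [U1_one, rho_one hρ hw] at e2
      have e3 : F.ser w ∈ Ideal.span {(X : R[X]) ^ (m + 1)} := by
        rw [← Ideal.Quotient.eq_zero_iff_mem]
        exact e2.symm
      rw [Ideal.mem_span_singleton, X_pow_dvd_iff] at e3
      exact e3
    -- equivariance
    have h1 : ∀ k : ℕ, Triv k F → ∀ w : List (Fin 2), w.length = k → w ≠ [] → ∀ i : ℕ, i ≠ k →
        (F.ser w).coeff i = 0 := by
      intro k hk w hw hne i hi
      let σ : R[X] →+* R[X] := compRingHom (C (algebraMap ℚ R 2) * X)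
      have e1 : mapS σ u' = scl ((twoU R[X] : R[X]ˣ) : R[X]) u' := by
        apply Ser.ext'
        intro v
        change (X ^ weight v * C (u v)).comp (C (algebraMap ℚ R 2) * X) =
          (algebraMap ℚ R[X] 2) ^ weight v * (X ^ weight v * C (u v))
        rw [mul_comp, pow_comp, X_comp, C_comp, mul_pow, mul_assoc]
        rfl
      have hv : IsGroupLike (scl ((twoU R[X] : R[X]ˣ) : R[X]) u').cf := gl_scale _ hu'
      have e2 := nat_U1 hρ σ u' hu' _ hv e1 w
      have e3 := (equiv_lead hρ (twoU R[X]) u' hu' _ hv rfl hk).2 w hw hne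
      rw [e2] at e3
      have e4 := congrArg (fun p : R[X] => p.coeff i) e3
      change ((F.ser w).comp (C (algebraMap ℚ R 2) * X)).coeff i =
        ((algebraMap ℚ R[X] 2) ^ k * F.ser w).coeff i at e4
      have e5 : algebraMap ℚ R[X] 2 = C (algebraMap ℚ R 2) := rfl
      rw [comp_C_mul_X_coeff, e5, ← C_pow, coeff_C_mul] at e4
      exact two_pow_coeff hi _ e4
    have h4 : ∀ k ≤ m + 1, Triv k F := by
      intro k
      induction k with
      | zero => intro _ w _ h; omega
      | succ k ih =>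
        intro hk w hne hw
        by_cases h : w.length < k
        · exact ih (by omega) w hne h
        · ext i
          rw [coeff_zero]
          by_cases hi : i = k
          · exact h3 w hne i (by omega)
          · exact h1 k (ih (by omega)) w (by omega) hne i hi
    intro w hne hw
    have e1 : mapS (evalRingHom (1 : R)) u' = u := by
      apply Ser.ext'
      intro v
      rw [mapS_apply, u'_apply]
      simp
    rw [nat_U1 hρ (evalRingHom (1 : R)) u' hu' u hu e1 w]
    have := h4 (m + 1) le_rfl w hne hw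
    rw [hF] at this
    rw [this, map_zero]

/-- congruent elements have congruent images -/
lemma rho_agree (m : ℕ) (g g' : Mot R) (hs : g.scal = g'.scal) (h : AgW m g.S g'.S)
    (w : List (Fin 2)) (hw : w.length < m) : (ρ R g).ser w = (ρ R g').ser w := by
  obtain ⟨v, hv, h1, h2⟩ := gl_inv (u := g'.S) g'.isGroupLike
  have ht : IsGroupLike (g.S * v).cf := gl_mul (u := g.S) g.isGroupLike hv
  have e : U1 (g.S * v) ht * g' = g := by
    apply Mot.ext''
    · rw [U1_mul_S, mul_assoc, h2, mul_one]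
    · rw [U1_mul_scal, hs]
  have ha : AgW m (g.S * v) 1 := by
    rw [← h1]
    exact h.mul (AgW.refl m v)
  have h3 := hρ.mul R (U1 (g.S * v) ht) g'
  rw [e] at h3
  exact (cmp2 h3 (rho_lam hρ _ _) (triv_of_agree hρ m _ ht ha)).1 w hw

lemma rho_add (m : ℕ) (u : Ser ℕ R) (hu : IsGroupLike u.cf) (h : AgW m u 1) (g : Mot R)
    (w : List (Fin 2)) (hw : w.length = m) (hne : w ≠ []) :
    (ρ R (U1 u hu * g)).ser w = (ρ R g).ser w + (ρ R (U1 u hu)).ser w :=
  (cmp2 (hρ.mul R (U1 u hu) g) (rho_lam hρ _ _) (triv_of_agree hρ m u hu h)).2 w hw hne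

lemma rho_add_low (m : ℕ) (u : Ser ℕ R) (hu : IsGroupLike u.cf) (h : AgW m u 1) (g : Mot R)
    (w : List (Fin 2)) (hw : w.length < m) :
    (ρ R (U1 u hu * g)).ser w = (ρ R g).ser w :=
  (cmp2 (hρ.mul R (U1 u hu) g) (rho_lam hρ _ _) (triv_of_agree hρ m u hu h)).1 w hw

end Filt

section Yf

variable {R : Type} [CommRing R] [Algebra ℚ R]

open Classical in
/-- the coefficients of the image of `exp x` -/
def Yf (ρ : ∀ (R : Type) [CommRing R] [Algebra ℚ R], Mot R → GT R) {R : Type} [CommRing R]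
    [Algebra ℚ R] (x : Ser ℕ R) (w : List (Fin 2)) : R :=
  if h : IsPrim x then (ρ R (U1 (expS x) (gl_exp h))).ser w else 0

lemma Yf_eq {x : Ser ℕ R} (h : IsPrim x) (w : List (Fin 2)) :
    Yf ρ x w = (ρ R (U1 (expS x) (gl_exp h))).ser w := by
  unfold Yf
  rw [dif_pos h]

variable {n : ℕ} (hn : 1 ≤ n)

lemma agree_exp {x : Ser ℕ R} (hn : 1 ≤ n) (hx : HomW n x) : AgW n (expS x) 1 := by
  intro w hw
  rw [expS_agree hn hx w (by omega), Ser.add_apply, hx w (by omega), add_zero]

include hρ

lemma triv_exp (hn : 1 ≤ n) {x : Ser ℕ R} (hx : PH n x) : Triv n (ρ R (U1 (expS x) (gl_exp hx.1))) :=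
  triv_of_agree hρ n _ _ (agree_exp hn hx.2)

lemma Yf_add (hn : 1 ≤ n) {x y : Ser ℕ R} (hx : PH n x) (hy : PH n y) (w : List (Fin 2))
    (hw : w.length = n) : Yf ρ (x + y) w = Yf ρ x w + Yf ρ y w := by
  have hne : w ≠ [] := by
    rintro rfl
    simp at hw
    omega
  rw [Yf_eq hx.1, Yf_eq hy.1, Yf_eq (hx.add hy).1]
  have h1 : AgW (n + 1) (expS (x + y)) (expS x * expS y) := by
    have e1 := expS_agree hn (hx.2.add hy.2)
    have e2 := (expS_agree hn hx.2).mul (expS_agree hn hy.2)
    refine (e1.trans ?_).trans e2.symm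
    intro v hv
    have e3 : (1 + x) * (1 + y) = 1 + (x + y) + x * y := by noncomm_ring
    rw [e3, Ser.add_apply (1 + (x + y)), (hx.2.mul hy.2) v (by omega), add_zero]
  rw [rho_agree hρ (n + 1) (U1 (expS (x + y)) (gl_exp (hx.add hy).1))
    (U1 (expS x) (gl_exp hx.1) * U1 (expS y) (gl_exp hy.1)) (U1_mul_scal _ _ _).symm
    (by rw [U1_mul_S]; exact h1) w (by omega),
    rho_add hρ n _ _ (agree_exp hn hx.2) _ w hw hne, add_comm]

lemma Yf_zero (hn : 1 ≤ n) (w : List (Fin 2)) (hw : w.length = n) : Yf ρ (0 : Ser ℕ R) w = 0 := by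
  have h := Yf_add hρ hn (PH.zero (R := R) (n := n)) (PH.zero (R := R) (n := n)) w hw
  rw [add_zero] at h
  exact left_eq_add.1 h

lemma Yf_sum (hn : 1 ≤ n) {ι : Type*} (s : Finset ι) (x : ι → Ser ℕ R) (hx : ∀ i ∈ s, PH n (x i))
    (w : List (Fin 2)) (hw : w.length = n) : Yf ρ (∑ i ∈ s, x i) w = ∑ i ∈ s, Yf ρ (x i) w := by
  classical
  induction s using Finset.induction_on with
  | empty => rw [Finset.sum_empty, Finset.sum_empty]; exact Yf_zero hρ hn w hw
  | insert i s hi ih =>
    rw [Finset.sum_insert hi, Finset.sum_insert hi,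
      Yf_add hρ hn (hx i (Finset.mem_insert_self _ _))
        (PH.sum s x (fun j hj => hx j (Finset.mem_insert_of_mem hj))) w hw,
      ih (fun j hj => hx j (Finset.mem_insert_of_mem hj))]

/-- naturality and homogeneity of the leading terms -/
lemma Yf_smul (hn : 1 ≤ n) {x : Ser ℕ ℚ} (hx : PH n x) (r : R) (w : List (Fin 2))
    (hw : w.length = n) :
    Yf ρ (r • mapS (algebraMap ℚ R) x) w = algebraMap ℚ R (Yf ρ x w) * r := by
  have hne : w ≠ [] := by
    rintro rfl
    simp at hw
    omega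
  let z : Ser ℕ ℚ[X] := (X : ℚ[X]) • mapS (C : ℚ →+* ℚ[X]) x
  have hC : PH n (mapS (C : ℚ →+* ℚ[X]) x) :=
    ⟨mapS_prim _ hx.1, fun v hv => by rw [mapS_apply, hx.2 v hv, map_zero]⟩
  have hz : PH n z := hC.smul _
  set p : ℚ[X] := Yf ρ z w with hp
  have z_apply : ∀ v, z v = X * C (x v) := fun v => rfl
  -- the image under `X ↦ s`
  have key : ∀ {S : Type} [CommRing S] [Algebra ℚ S] (s : S),
      Yf ρ (s • mapS (algebraMap ℚ S) x) w = eval₂ (algebraMap ℚ S) s p := by
    intro S _ _ s
    have hS : PH n (s • mapS (algebraMap ℚ S) x) := PH.smul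
      ⟨mapS_prim _ hx.1, fun v hv => by rw [mapS_apply, hx.2 v hv, map_zero]⟩ s
    rw [Yf_eq hS.1, hp, Yf_eq hz.1]
    refine nat_U1 hρ (eval₂RingHom (algebraMap ℚ S) s) (expS z) (gl_exp hz.1) _ _ ?_ w
    rw [mapS_expS]
    congr 1
    apply Ser.ext'
    intro v
    rw [mapS_apply, z_apply]
    simp
    exact mul_comm _ _
  -- equivariance
  have h1 : ∀ i : ℕ, i ≠ 1 → p.coeff i = 0 := by
    intro i hi
    let σ : ℚ[X] →+* ℚ[X] := compRingHom (C (2 ^ n) * X)
    have hv : IsGroupLike (scl ((twoU ℚ[X] : ℚ[X]ˣ) : ℚ[X]) (expS z)).cf := gl_scale _ (gl_exp hz.1)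
    have e1 : mapS σ (expS z) = scl ((twoU ℚ[X] : ℚ[X]ˣ) : ℚ[X]) (expS z) := by
      rw [mapS_expS, expS_scl, hz.2.scl]
      congr 1
      apply Ser.ext'
      intro v
      rw [mapS_apply, z_apply, Ser.smul_apply, z_apply, twoU_val]
      change (X * C (x v)).comp (C (2 ^ n) * X) = _
      rw [mul_comp, X_comp, C_comp, C_pow, mul_assoc]
      rfl
    have e2 := nat_U1 hρ σ (expS z) (gl_exp hz.1) _ hv e1 w
    have e3 := (equiv_lead hρ (twoU ℚ[X]) (expS z) (gl_exp hz.1) _ hv rfl
      (triv_exp hρ hn hz)).2 w hw hne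
    rw [e2, ← Yf_eq hz.1, ← hp] at e3
    have e4 := congrArg (fun p : ℚ[X] => p.coeff i) e3
    change (p.comp (C (2 ^ n) * X)).coeff i = ((algebraMap ℚ ℚ[X] 2) ^ n * p).coeff i at e4
    have e5 : algebraMap ℚ ℚ[X] 2 = C 2 := rfl
    rw [comp_C_mul_X_coeff, e5, ← C_pow, coeff_C_mul, ← pow_mul] at e4
    have hi' : n * i ≠ n := by
      intro h
      apply hi
      exact Nat.eq_of_mul_eq_mul_left (show 0 < n by omega) (by rw [h, mul_one])
    have e6 := two_pow_coeff (R := ℚ) hi' (p.coeff i) e4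
    exact e6
  have hp1 : p = C (p.coeff 1) * X := by
    ext i
    rw [coeff_C_mul, coeff_X]
    by_cases h : i = 1
    · rw [h, if_pos rfl, mul_one]
    · rw [h1 i h, if_neg (fun h' => h h'.symm), mul_zero]
  have e1 : Yf ρ x w = p.coeff 1 := by
    have := key (S := ℚ) 1
    have e2 : (1 : ℚ) • mapS (algebraMap ℚ ℚ) x = x := by
      rw [one_smul]
      rfl
    rw [e2] at this
    rw [this, hp1]
    simp
  rw [key r, e1]
  conv_lhs => rw [hp1]
  simp

end Yf

section Grt

variable {n : ℕ} (hn : 1 ≤ n)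

lemma PH_sN {x : FreeLieAlgebra ℚ ℕ} (hx : x ∈ freeWt ℚ n) : PH n (sN x) := ⟨prim_sN x, homW_sN hx⟩

include hρ

lemma grt_of_Yf (hn : 1 ≤ n) {x : Ser ℕ ℚ} (hx : PH n x) :
    ∃ ψ ∈ grt ℚ n, ∀ w : List (Fin 2), w.length = n → coef ψ w = Yf ρ x w := by
  have ht := triv_exp hρ hn hx
  obtain ⟨ψ, h1, h2⟩ := torsor (a := ρ ℚ (U1 (expS x) (gl_exp hx.1))) (b := ρ ℚ 1) hn
    (by rw [rho_lam hρ, hρ.lam]; rfl) (fun w hw => by
      by_cases h : w = []
      · rw [h, GT.isGroupLike _ |>.one, GT.isGroupLike _ |>.one]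
      · rw [ht w h hw, rho_one hρ h]) (AddMonoidHom.id ℚ)
  refine ⟨ψ, h1, fun w hw => ?_⟩
  rw [h2 w hw, Yf_eq hx.1]
  have hne : w ≠ [] := by
    rintro rfl
    simp at hw
    omega
  change (ρ ℚ (U1 (expS x) (gl_exp hx.1))).ser w - (ρ ℚ 1).ser w = _
  rw [rho_one hρ hne, sub_zero]

/-- injectivity of the map of the leading terms -/
lemma eq_zero_of_Yf (hn : 1 ≤ n) {x : FreeLieAlgebra ℚ ℕ} (hx : x ∈ freeWt ℚ n)
    (h : ∀ w : List (Fin 2), w.length = n → Yf ρ (sN x) w = 0) : x = 0 := by
  let D := TrivSqZeroExt ℚ ℚ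
  let ε : D := TrivSqZeroExt.inr 1
  let z : Ser ℕ D := ε • mapS (algebraMap ℚ D) (sN x)
  have z_apply : ∀ v, z v = TrivSqZeroExt.inr (sN x v) := by
    intro v
    change TrivSqZeroExt.inr 1 * TrivSqZeroExt.inl (sN x v) = _
    ext
    · rw [TrivSqZeroExt.fst_mul, TrivSqZeroExt.fst_inr, zero_mul, TrivSqZeroExt.fst_inr]
    · rw [TrivSqZeroExt.snd_mul, TrivSqZeroExt.fst_inr, TrivSqZeroExt.snd_inr,
        TrivSqZeroExt.fst_inl, TrivSqZeroExt.snd_inl, TrivSqZeroExt.snd_inr]
      simp
  have hz : PH n z := PH.smul ⟨mapS_prim _ (prim_sN x), fun v hv => by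
    rw [mapS_apply, homW_sN hx v hv, map_zero]⟩ ε
  set F := ρ D (U1 (expS z) (gl_exp hz.1)) with hF
  have hT : ∀ k, Triv k F := by
    intro k
    induction k with
    | zero => intro w _ h; omega
    | succ k ih =>
      intro w hne hw
      by_cases h1 : w.length < k
      · exact ih w hne h1
      · have hwk : w.length = k := by omega
        rcases lt_trichotomy k n with h2 | h2 | h2
        · exact triv_exp hρ hn hz w hne (by omega)
        · have e1 := Yf_smul hρ hn (PH_sN hx) ε w (by omega)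
          rw [h w (by omega), map_zero, zero_mul, Yf_eq hz.1] at e1
          exact e1
        · let σ : D →+* D := (TrivSqZeroExt.map (R' := ℚ) (((2 : ℚ) ^ n) • LinearMap.id) : D →ₐ[ℚ] D)
          have σ_fst : ∀ y : D, (σ y).fst = y.fst := fun y => TrivSqZeroExt.fst_map _ y
          have σ_snd : ∀ y : D, (σ y).snd = 2 ^ n * y.snd := fun y => TrivSqZeroExt.snd_map _ y
          have hv : IsGroupLike (scl ((twoU D : Dˣ) : D) (expS z)).cf := gl_scale _ (gl_exp hz.1)
          have tpow : ∀ (m : ℕ) (y : D), ((twoU D : Dˣ) : D) ^ m * y = (2 : ℚ) ^ m • y := by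
            intro m y
            rw [twoU_val, ← map_pow, Algebra.smul_def]
          have e1 : mapS σ (expS z) = scl ((twoU D : Dˣ) : D) (expS z) := by
            rw [mapS_expS, expS_scl, hz.2.scl]
            congr 1
            apply Ser.ext'
            intro v
            change σ (z v) = ((twoU D : Dˣ) : D) ^ n * z v
            rw [tpow n (z v), z_apply]
            ext
            · rw [σ_fst, TrivSqZeroExt.fst_smul, TrivSqZeroExt.fst_inr, smul_zero]
            · rw [σ_snd, TrivSqZeroExt.snd_smul, smul_eq_mul]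
          have e2 := nat_U1 hρ σ (expS z) (gl_exp hz.1) _ hv e1 w
          have e3 := (equiv_lead hρ (twoU D) (expS z) (gl_exp hz.1) _ hv rfl ih).2 w hwk hne
          rw [e2, tpow] at e3
          have f1 := congrArg TrivSqZeroExt.fst e3
          have f2 := congrArg TrivSqZeroExt.snd e3
          rw [σ_fst, TrivSqZeroExt.fst_smul, smul_eq_mul] at f1
          rw [σ_snd, TrivSqZeroExt.snd_smul, smul_eq_mul] at f2
          change F.ser w = 0
          ext
          · have e4 : ((2 : ℚ) ^ k - 2 ^ 0) ≠ 0 := two_pow_ne (by omega)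
            have e5 : ((2 : ℚ) ^ k - 2 ^ 0) * (F.ser w).fst = 0 := by
              rw [pow_zero, sub_mul, one_mul, hF, ← f1, sub_self]
            exact (mul_eq_zero.1 e5).resolve_left e4
          · have e4 : ((2 : ℚ) ^ k - 2 ^ n) ≠ 0 := two_pow_ne (by omega)
            have e5 : ((2 : ℚ) ^ k - 2 ^ n) * (F.ser w).snd = 0 := by
              rw [sub_mul, hF, f2, sub_self]
            exact (mul_eq_zero.1 e5).resolve_left e4
  have hF1 : F = ρ D 1 := by
    apply GT_ext
    · rw [hF, rho_lam hρ, hρ.lam]; rfl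
    · intro w
      by_cases hw : w = []
      · rw [hw, F.isGroupLike.one, (ρ D 1).isGroupLike.one]
      · rw [hT (w.length + 1) w hw (by omega), rho_one hρ hw]
  have h2 := congrArg Mot.S (hρ.injective D hF1)
  rw [U1_S, Mot.one_S] at h2
  apply sN_inj
  apply Ser.ext'
  intro v
  by_cases hv : weight v = n
  · have e1 := expS_agree hn hz.2 v (by omega)
    rw [h2, Ser.add_apply, z_apply] at e1
    have e2 := left_eq_add.1 e1
    exact TrivSqZeroExt.inr_injective (e2.trans (TrivSqZeroExt.inr_zero ℚ).symm)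
  · exact homW_sN hx v hv

/-- every element of `grt₁` of degree `n` is a leading term -/
lemma surj_grt (hn : 1 ≤ n) (ψ : F2 ℚ) (hψ : ψ ∈ grt ℚ n) : ∃ x ∈ freeWt ℚ n,
    ∀ w : List (Fin 2), w.length = n → Yf ρ (sN x) w = coef ψ w := by
  let L0 : freeWt ℚ n →+ (List (Fin 2) → ℚ) :=
    { toFun := fun x w => if w.length = n then Yf ρ (sN (x : FreeLieAlgebra ℚ ℕ)) w else 0
      map_zero' := by
        funext w
        by_cases hw : w.length = n
        · have e : sN (((0 : freeWt ℚ n) : FreeLieAlgebra ℚ ℕ)) = 0 := by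
            have := sN_smul 0 (0 : FreeLieAlgebra ℚ ℕ)
            rw [zero_smul, zero_smul] at this
            exact this
          rw [if_pos hw, e, Yf_zero hρ hn w hw]
          rfl
        · rw [if_neg hw]
          rfl
      map_add' := by
        intro x y
        funext w
        rw [Pi.add_apply]
        by_cases hw : w.length = n
        · rw [if_pos hw, if_pos hw, if_pos hw, Submodule.coe_add, sN_add,
            Yf_add hρ hn (PH_sN x.2) (PH_sN y.2) w hw]
        · rw [if_neg hw, if_neg hw, if_neg hw, add_zero] }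
  let L : freeWt ℚ n →ₗ[ℚ] (List (Fin 2) → ℚ) := L0.toRatLinearMap
  have L_apply : ∀ (x : freeWt ℚ n) (w : List (Fin 2)), L x w =
      if w.length = n then Yf ρ (sN (x : FreeLieAlgebra ℚ ℕ)) w else 0 := fun x w => rfl
  let cm : grt ℚ n →ₗ[ℚ] (List (Fin 2) → ℚ) :=
    { toFun := fun ψ w => coef (ψ : F2 ℚ) w
      map_add' := fun x y => by funext w; exact coef_add _ _ _
      map_smul' := fun c x => by funext w; exact coef_smul _ _ _ }
  have hL : Function.Injective L := by
    rw [injective_iff_map_eq_zero]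
    intro x hx
    apply Subtype.ext
    apply eq_zero_of_Yf hρ hn x.2
    intro w hw
    have := congrFun hx w
    rw [L_apply, if_pos hw] at this
    exact this
  have hcm : Function.Injective cm := by
    rw [injective_iff_map_eq_zero]
    intro x hx
    apply Subtype.ext
    apply assoc_injective
    rw [Submodule.coe_zero, map_zero]
    ext w
    exact congrFun hx (FreeMonoid.toList w)
  have hle : LinearMap.range L ≤ LinearMap.range cm := by
    rintro _ ⟨x, rfl⟩
    obtain ⟨φ, h1, h2⟩ := grt_of_Yf hρ hn (PH_sN x.2)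
    refine ⟨⟨φ, h1⟩, ?_⟩
    funext w
    rw [L_apply]
    by_cases hw : w.length = n
    · rw [if_pos hw]; exact h2 w hw
    · rw [if_neg hw]; exact h1.2 w hw
  have heq : LinearMap.range L = LinearMap.range cm := by
    apply Submodule.eq_of_le_of_finrank_le hle
    rw [LinearMap.finrank_range_of_inj hL, LinearMap.finrank_range_of_inj hcm]
    have := rank_grt_le_freeWt (K := ℚ) n
    rw [← Module.finrank_eq_rank, ← Module.finrank_eq_rank] at this
    exact_mod_cast this
  have hmem : cm ⟨ψ, hψ⟩ ∈ LinearMap.range L := by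
    rw [heq]
    exact ⟨_, rfl⟩
  obtain ⟨x, hx⟩ := hmem
  refine ⟨x, x.2, fun w hw => ?_⟩
  have := congrFun hx w
  rw [L_apply, if_pos hw] at this
  exact this

end Grt

section Surj

variable {R : Type} [CommRing R] [Algebra ℚ R]

include hρ

/-- the successive approximation -/
lemma step_approx (t : GT R) {n : ℕ} (hn : 1 ≤ n) (g : Mot R) (hs : g.scal = t.lam)
    (hg : ∀ w : List (Fin 2), w.length < n → (ρ R g).ser w = t.ser w) :
    ∃ g' : Mot R, g'.scal = t.lam ∧
      (∀ w : List (Fin 2), w.length < n + 1 → (ρ R g').ser w = t.ser w) ∧ AgW n g'.S g.S := by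
  classical
  have hl : t.lam = (ρ R g).lam := by rw [hρ.lam, hs]
  have hag : ∀ w : List (Fin 2), w.length < n → t.ser w = (ρ R g).ser w := fun w hw => (hg w hw).symm
  let b := Module.Basis.ofVectorSpace ℚ R
  let J : Finset (Module.Basis.ofVectorSpaceIndex ℚ R) :=
    (wl (n + 1)).biUnion (fun w => (b.repr (dif t (ρ R g) w)).support)
  have hex : ∀ i, ∃ x ∈ freeWt ℚ n, ∀ w : List (Fin 2), w.length = n →
      Yf ρ (sN x) w = b.repr (dif t (ρ R g) w) i := by
    intro i
    obtain ⟨ψ, h1, h2⟩ := torsor hn hl hag (b.coord i).toAddMonoidHom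
    obtain ⟨x, h3, h4⟩ := surj_grt hρ hn ψ h1
    refine ⟨x, h3, fun w hw => ?_⟩
    rw [h4 w hw, h2 w hw]
    rfl
  choose x hx1 hx2 using hex
  have hPx : ∀ i, PH n (b i • mapS (algebraMap ℚ R) (sN (x i))) := fun i => PH.smul
    ⟨mapS_prim _ (prim_sN _), fun v hv => by
      rw [mapS_apply, homW_sN (hx1 i) v hv, map_zero]⟩ (b i)
  let Z : Ser ℕ R := ∑ i ∈ J, b i • mapS (algebraMap ℚ R) (sN (x i))
  have hZ : PH n Z := PH.sum J _ (fun i _ => hPx i)
  have hZY : ∀ w : List (Fin 2), w.length = n → Yf ρ Z w = dif t (ρ R g) w := by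
    intro w hw
    rw [Yf_sum hρ hn J _ (fun i _ => hPx i) w hw]
    have e1 : ∀ i ∈ J, Yf ρ (b i • mapS (algebraMap ℚ R) (sN (x i))) w =
        b.repr (dif t (ρ R g) w) i • b i := by
      intro i _
      rw [Yf_smul hρ hn (PH_sN (hx1 i)) (b i) w hw, hx2 i w hw, Algebra.smul_def]
    rw [Finset.sum_congr rfl e1]
    conv_rhs => rw [← b.linearCombination_repr (dif t (ρ R g) w)]
    rw [Finsupp.linearCombination_apply, Finsupp.sum]
    symm
    apply Finset.sum_subset
    · intro i hi
      rw [Finset.mem_biUnion]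
      exact ⟨w, (mem_wl _ _).2 (by omega), hi⟩
    · intro i _ hi
      rw [Finsupp.notMem_support_iff.1 hi, zero_smul]
  refine ⟨U1 (expS Z) (gl_exp hZ.1) * g, by rw [U1_mul_scal, hs], ?_, ?_⟩
  · intro w hw
    by_cases h : w.length < n
    · rw [rho_add_low hρ n _ _ (agree_exp hn hZ.2) g w h, hg w h]
    · have hw' : w.length = n := by omega
      have hne : w ≠ [] := by
        rintro rfl
        simp at hw'
        omega
      rw [rho_add hρ n _ _ (agree_exp hn hZ.2) g w hw' hne, ← Yf_eq hZ.1, hZY w hw', dif]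
      ring
  · rw [U1_mul_S]
    have := (agree_exp hn hZ.2).mul (AgW.refl n g.S)
    rwa [one_mul] at this

/-- **Every monomorphism `G → GT` over `𝔾_m` is an isomorphism.** -/
theorem surjective_of_isMono : Function.Surjective (ρ R) := by
  intro t
  let P : ℕ → Mot R → Prop := fun n g => g.scal = t.lam ∧
    ∀ w : List (Fin 2), w.length < n + 1 → (ρ R g).ser w = t.ser w
  have h0 : P 0 ⟨(1 : Ser ℕ R).cf, t.lam, gl_one⟩ := by
    refine ⟨rfl, fun w hw => ?_⟩
    have : w = [] := List.length_eq_zero_iff.1 (by omega)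
    rw [this, GT.isGroupLike _ |>.one, GT.isGroupLike _ |>.one]
  have hstep : ∀ n : ℕ, ∀ g : {g : Mot R // P n g}, ∃ g' : {g : Mot R // P (n + 1) g},
      AgW (n + 1) g'.1.S g.1.S := by
    intro n g
    obtain ⟨g', h1, h2, h3⟩ := step_approx hρ t (n := n + 1) (by omega) g.1 g.2.1 g.2.2
    exact ⟨⟨g', h1, h2⟩, h3⟩
  choose nx hnx using hstep
  let G : (n : ℕ) → {g : Mot R // P n g} := fun n => Nat.rec ⟨_, h0⟩ (fun n g => nx n g) n
  have hG : ∀ n, AgW (n + 1) (G (n + 1)).1.S (G n).1.S := fun n => hnx n (G n)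
  have hG2 : ∀ n m, n ≤ m → AgW (n + 1) (G m).1.S (G n).1.S := by
    intro n m hnm
    induction m, hnm using Nat.le_induction with
    | base => exact AgW.refl _ _
    | succ m hm ih => exact (fun w hw => (hG m w (by omega)).trans (ih w hw))
  let v : Ser ℕ R := ⟨fun w => (G (weight w)).1.S w⟩
  have hv : ∀ (m : ℕ) (w : List ℕ), weight w ≤ m → v w = (G m).1.S w :=
    fun m w hw => (hG2 (weight w) m hw w (by omega)).symm
  have hgl : IsGroupLike v.cf := by
    refine ⟨?_, fun p q => ?_⟩
    · exact (G (weight [])).1.isGroupLike.one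
    · set m := weight p + weight q with hm
      have e1 := (G m).1.isGroupLike.shuffle p q
      rw [show v.cf p = (G m).1.ser p from hv m p (by omega),
        show v.cf q = (G m).1.ser q from hv m q (by omega), e1]
      congr 1
      apply List.map_congr_left
      intro s hs
      exact (hv m s (by rw [weight_shuffle p q s hs])).symm
  refine ⟨⟨v.cf, t.lam, hgl⟩, ?_⟩
  apply GT_ext
  · rw [hρ.lam]
  · intro w
    have e1 := rho_agree hρ (w.length + 1) (⟨v.cf, t.lam, hgl⟩ : Mot R) (G w.length).1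
      (G w.length).2.1.symm (fun s hs => hv w.length s (by omega)) w (by omega)
    rw [e1]
    exact (G w.length).2.2 w (by omega)

end Surj

/-- **Every monomorphism `G → GT` is an isomorphism.** -/
theorem bijective_of_isMonomorphism {ρ : ∀ (R : Type) [CommRing R] [Algebra ℚ R], Mot R → GT R}
    (hρ : IsMonomorphism ρ) (R : Type) [CommRing R] [Algebra ℚ R] : Function.Bijective (ρ R) := by
  refine ⟨hρ.injective R, fun t => ?_⟩
  obtain ⟨g, hg⟩ := surjective_of_isMono (R := R) hρ.inv.isMono t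
  exact ⟨g⁻¹, hg⟩

end MP446I
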