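import Pool.Agent.Lib.MP_446dfa_ag.grp.Mot

/-!
# Monomorphisms of group functors from `G` to `GT`
-/

noncomputable section

namespace MP446I

/-- `ρ` is a monomorphism from the group functor `G` to the group functor `GT` on commutative
`ℚ`-algebras: the maps `ρ_R : G(R) → GT(R)` are natural in `R`, they are homomorphisms for
Drinfeld's composition law, and they are injective. -/
structure IsMonomorphism (ρ : ∀ (R : Type) [CommRing R] [Algebra ℚ R], Mot R → GT R) : Prop where
  natural : ∀ (R S : Type) [CommRing R] [Algebra ℚ R] [CommRing S] [Algebra ℚ S] (φ : R →+* S)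
    (g : Mot R), (ρ S (g.map φ)).lam = Units.map φ (ρ R g).lam ∧
      ∀ w : List (Fin 2), (ρ S (g.map φ)).ser w = φ ((ρ R g).ser w)
  mul : ∀ (R : Type) [CommRing R] [Algebra ℚ R] (g h : Mot R),
    IsProduct (ρ R g) (ρ R h) (ρ R (g * h))
  injective : ∀ (R : Type) [CommRing R] [Algebra ℚ R], Function.Injective (ρ R)

end MP446I
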