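import Pool.Agent.Lib.MP_446dfa_ag.grp.Cop

set_option linter.all false

/-!
# The group `G(R)`
-/

noncomputable section

namespace MP446I

section Weight

lemma weight_nil : weight [] = 0 := rfl

lemma weight_cons (i : ℕ) (w : List ℕ) : weight (i :: w) = 2 * i + 3 + weight w := by
  simp [weight]

lemma weight_append (v w : List ℕ) : weight (v ++ w) = weight v + weight w := by
  simp [weight]

lemma weight_take_drop (i : ℕ) (w : List ℕ) : weight (w.take i) + weight (w.drop i) = weight w := by
  rw [← weight_append, List.take_append_drop]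

lemma weight_shuffle (v w : List ℕ) : ∀ s ∈ shuffle v w, weight s = weight v + weight w := by
  induction v generalizing w with
  | nil => intro s hs; simp at hs; subst hs; simp [weight_nil]
  | cons a v ih =>
    induction w with
    | nil => intro s hs; simp at hs; subst hs; simp [weight_nil]
    | cons b w ih2 =>
      intro s hs
      rw [shuffle_cons, List.mem_append, List.mem_map, List.mem_map] at hs
      rcases hs with ⟨t, ht, rfl⟩ | ⟨t, ht, rfl⟩
      · have := ih _ t ht
        simp only [weight_cons] at this ⊢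
        omega
      · have := ih2 t ht
        simp only [weight_cons] at this ⊢
        omega

lemma length_le_weight (w : List ℕ) : w.length ≤ weight w := by
  induction w with
  | nil => simp
  | cons a w ih => rw [List.length_cons, weight_cons]; omega

lemma weight_pos {w : List ℕ} (h : w ≠ []) : 0 < weight w := by
  have := length_le_weight w
  have := List.length_pos_of_ne_nil h
  omega

end Weight

section Scl

variable {R : Type} [CommRing R]

/-- the automorphism `scale`, on series -/
def scl (c : R) (u : Ser ℕ R) : Ser ℕ R := ⟨scale c u.cf⟩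

@[simp] lemma scl_apply (c : R) (u : Ser ℕ R) (w : List ℕ) : scl c u w = c ^ weight w * u w := rfl

lemma scl_mul (c : R) (u v : Ser ℕ R) : scl c (u * v) = scl c u * scl c v := by
  apply Ser.ext'
  intro w
  rw [scl_apply, Ser.mul_apply, Ser.mul_apply, Finset.mul_sum]
  refine Finset.sum_congr rfl (fun i _ => ?_)
  rw [scl_apply, scl_apply, ← weight_take_drop i w, pow_add]
  ring

lemma scl_add (c : R) (u v : Ser ℕ R) : scl c (u + v) = scl c u + scl c v := by
  apply Ser.ext'
  intro w
  simp [mul_add]

lemma scl_one (c : R) : scl c (1 : Ser ℕ R) = 1 := by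
  apply Ser.ext'
  intro w
  cases w with
  | nil => simp [weight_nil]
  | cons a w => simp

lemma scl_scl (c d : R) (u : Ser ℕ R) : scl c (scl d u) = scl (c * d) u := by
  apply Ser.ext'
  intro w
  simp only [scl_apply, mul_pow]
  ring

lemma one_scl (u : Ser ℕ R) : scl 1 u = u := by
  apply Ser.ext'
  intro w
  simp

lemma gl_scale (c : R) {u : List ℕ → R} (hu : IsGroupLike u) : IsGroupLike (scale c u) where
  one := by simp [scale, weight_nil, hu.one]
  shuffle := by
    intro v w
    have h : ((shuffle v w).map (scale c u)) = (shuffle v w).map (fun s => c ^ (weight v + weight w) * u s) := by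
      apply List.map_congr_left
      intro s hs
      rw [scale, weight_shuffle v w s hs]
    rw [h, List.sum_map_mul_left, ← hu.shuffle, scale, scale, pow_add]
    ring

lemma conv_eq (u v : List ℕ → R) : conv u v = ((⟨u⟩ : Ser ℕ R) * ⟨v⟩).cf := rfl

lemma gl_conv {u v : List ℕ → R} (hu : IsGroupLike u) (hv : IsGroupLike v) :
    IsGroupLike (conv u v) := by
  rw [conv_eq]
  exact gl_mul (u := ⟨u⟩) (v := ⟨v⟩) hu hv

lemma exists_inverse {u : List ℕ → R} (hu : IsGroupLike u) :
    ∃ v : List ℕ → R, IsGroupLike v ∧ conv v u = (1 : Ser ℕ R).cf := by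
  obtain ⟨v, h1, -, h3⟩ := gl_inv (u := ⟨u⟩) hu
  exact ⟨v.cf, h1, congrArg Ser.cf h3⟩

end Scl

section Group

variable {R : Type} [CommRing R]

/-- The product `(u, c) (v, d) = (u · c(v), c d)` of `G(R) = U(R) ⋊ Rˣ`. -/
instance : Mul (Mot R) :=
  ⟨fun g h => ⟨conv g.ser (scale (g.scal : R) h.ser), g.scal * h.scal,
    gl_conv g.isGroupLike (gl_scale _ h.isGroupLike)⟩⟩

instance : One (Mot R) := ⟨⟨(1 : Ser ℕ R).cf, 1, gl_one⟩⟩

instance : Inv (Mot R) :=
  ⟨fun g => ⟨scale ((g.scal⁻¹ : Rˣ) : R) (exists_inverse g.isGroupLike).choose, g.scal⁻¹,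
    gl_scale _ (exists_inverse g.isGroupLike).choose_spec.1⟩⟩

/-- the series in `U(R)` -/
def Mot.S (g : Mot R) : Ser ℕ R := ⟨g.ser⟩

lemma Mot.ext'' {g h : Mot R} (h1 : g.S = h.S) (h2 : g.scal = h.scal) : g = h :=
  Mot.ext (congrArg Ser.cf h1) h2

lemma Mot.mul_S (g h : Mot R) : (g * h).S = g.S * scl (g.scal : R) h.S := rfl
lemma Mot.mul_scal (g h : Mot R) : (g * h).scal = g.scal * h.scal := rfl
lemma Mot.one_S : (1 : Mot R).S = 1 := rfl
lemma Mot.one_scal : (1 : Mot R).scal = 1 := rfl

instance : Group (Mot R) where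
  mul_assoc a b c := by
    apply Mot.ext''
    · rw [Mot.mul_S, Mot.mul_S, Mot.mul_S, Mot.mul_S, Mot.mul_scal, scl_mul, scl_scl, mul_assoc,
        Units.val_mul]
    · rw [Mot.mul_scal, Mot.mul_scal, Mot.mul_scal, Mot.mul_scal, mul_assoc]
  one_mul a := by
    apply Mot.ext''
    · rw [Mot.mul_S, Mot.one_S, one_mul, Mot.one_scal, Units.val_one, one_scl]
    · rw [Mot.mul_scal, Mot.one_scal, one_mul]
  mul_one a := by
    apply Mot.ext''
    · rw [Mot.mul_S, Mot.one_S, scl_one, mul_one]
    · rw [Mot.mul_scal, Mot.one_scal, mul_one]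
  inv_mul_cancel a := by
    apply Mot.ext''
    · change scl ((a.scal⁻¹ : Rˣ) : R) (⟨(exists_inverse a.isGroupLike).choose⟩ : Ser ℕ R) *
        scl ((a.scal⁻¹ : Rˣ) : R) a.S = 1
      have h := (exists_inverse a.isGroupLike).choose_spec.2
      have h' : (⟨(exists_inverse a.isGroupLike).choose⟩ : Ser ℕ R) * a.S = 1 :=
        (Ser.eqv ℕ R).injective h
      rw [← scl_mul, h', scl_one]
    · change a.scal⁻¹ * a.scal = 1
      exact inv_mul_cancel a.scal

variable {S : Type} [CommRing S]

/-- the image of a series under a homomorphism of rings -/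
lemma gl_map (φ : R →+* S) {α : Type} {u : List α → R} (hu : IsGroupLike u) :
    IsGroupLike (fun w => φ (u w)) where
  one := by rw [hu.one, map_one]
  shuffle := by
    intro v w
    rw [← map_mul, hu.shuffle, map_list_sum, List.map_map]
    rfl

/-- The homomorphism `G(R) → G(S)` attached to a homomorphism `R → S`. -/
def Mot.map (φ : R →+* S) (g : Mot R) : Mot S :=
  ⟨fun w => φ (g.ser w), Units.map φ g.scal, gl_map φ g.isGroupLike⟩

end Group

end MP446I
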