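import Pool.Agent.Lib.MP_446dfa_ag.grp.Cop
import Pool.Agent.Lib.MP_446dfa_ag.sig.DSW
import Pool.Agent.Lib.MP_446dfa_ag.sig.Desc

set_option linter.all false

/-!
# Series satisfying the linear shuffle relations are Lie series
-/

noncomputable section

namespace MP446I

open MP446 MP446Y MP446Z MP446S

section Sn

variable {M : Type*} [AddCommMonoid M]

/-- the sum over the words of length `n` -/
def Sn : ℕ → (List (Fin 2) → M) → M
  | 0, F => F []
  | n + 1, F => ∑ i : Fin 2, Sn n (fun w => F (i :: w))

lemma Sn_zero (F : List (Fin 2) → M) : Sn 0 F = F [] := rfl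

lemma Sn_succ (n : ℕ) (F : List (Fin 2) → M) :
    Sn (n + 1) F = ∑ i : Fin 2, Sn n (fun w => F (i :: w)) := rfl

lemma Sn_eq (n : ℕ) (F : List (Fin 2) → M) :
    Sn n F = ∑ w ∈ (wl (n + 1)).filter (fun v => v.length = n), F w := by
  induction n generalizing F with
  | zero =>
    have : (wl (0 + 1)).filter (fun v => v.length = 0) = {[]} := by
      ext w
      rw [Finset.mem_filter, mem_wl, Finset.mem_singleton, List.length_eq_zero_iff]
      constructor
      · exact fun h => h.2
      · rintro rfl; simp
    rw [this, Finset.sum_singleton, Sn_zero]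
  | succ n ih =>
    rw [Sn_succ]
    have : (wl (n + 1 + 1)).filter (fun v => v.length = n + 1) =
        (Finset.univ ×ˢ ((wl (n + 1)).filter (fun v => v.length = n))).image
          (fun p => p.1 :: p.2) := by
      ext w
      rw [Finset.mem_filter, mem_wl, Finset.mem_image]
      constructor
      · rintro ⟨-, h⟩
        cases w with
        | nil => simp at h
        | cons i w =>
          refine ⟨(i, w), ?_, rfl⟩
          rw [Finset.mem_product, Finset.mem_filter, mem_wl]
          simp only [List.length_cons, Nat.add_right_cancel_iff] at h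
          exact ⟨Finset.mem_univ _, by dsimp only; omega, h⟩
      · rintro ⟨⟨i, v⟩, h, rfl⟩
        rw [Finset.mem_product, Finset.mem_filter] at h
        have := h.2.2
        simp only at this
        rw [List.length_cons, this]
        exact ⟨by omega, rfl⟩
    rw [this, Finset.sum_image, Finset.sum_product]
    · refine Finset.sum_congr rfl (fun i _ => ?_)
      rw [ih]
    · rintro ⟨i, v⟩ _ ⟨j, v'⟩ _ h
      simp only [List.cons.injEq] at h
      rw [h.1, h.2]

lemma Sn_congr {n : ℕ} {F G : List (Fin 2) → M} (h : ∀ w : List (Fin 2), w.length = n → F w = G w) :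
    Sn n F = Sn n G := by
  induction n generalizing F G with
  | zero => exact h [] rfl
  | succ n ih =>
    rw [Sn_succ, Sn_succ]
    refine Finset.sum_congr rfl (fun i _ => ?_)
    exact ih (fun w hw => h _ (by rw [List.length_cons, hw]))

lemma Sn_add (n : ℕ) (F G : List (Fin 2) → M) : Sn n (fun w => F w + G w) = Sn n F + Sn n G := by
  induction n generalizing F G with
  | zero => rfl
  | succ n ih =>
    rw [Sn_succ, Sn_succ, Sn_succ, ← Finset.sum_add_distrib]
    exact Finset.sum_congr rfl (fun i _ => ih _ _)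

lemma Sn_zero' (n : ℕ) : Sn n (fun _ => (0 : M)) = 0 := by
  induction n with
  | zero => rfl
  | succ n ih => rw [Sn_succ]; exact Finset.sum_eq_zero (fun i _ => ih)

lemma Sn_map {N : Type*} [AddCommMonoid N] (f : M →+ N) (n : ℕ) (F : List (Fin 2) → M) :
    f (Sn n F) = Sn n (fun w => f (F w)) := by
  induction n generalizing F with
  | zero => rfl
  | succ n ih =>
    rw [Sn_succ, Sn_succ, map_sum]
    exact Finset.sum_congr rfl (fun i _ => ih _)

lemma Sn_sum {ι : Type*} (s : Finset ι) (n : ℕ) (F : ι → List (Fin 2) → M) :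
    Sn n (fun w => ∑ i ∈ s, F i w) = ∑ i ∈ s, Sn n (F i) := by
  classical
  induction s using Finset.induction_on with
  | empty => simp only [Finset.sum_empty]; exact Sn_zero' n
  | insert i s hi ih =>
    rw [Finset.sum_insert hi, ← ih, ← Sn_add]
    exact Sn_congr (fun w _ => Finset.sum_insert hi)

end Sn

section Dbl

variable {R : Type} [CommRing R] {E : Type*} [Ring E] [Algebra R E] (x y : Fin 2 → E)

/-- the component of bidegree `(k, l)` -/
def DD (k l : ℕ) (u : Ser (Fin 2) R) : E :=
  Sn k (fun p => Sn l (fun q => cop u p q • ((p.map x).prod * (q.map y).prod)))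

/-- the part of `DD` beginning with a letter `x` -/
def DA : ℕ → ℕ → Ser (Fin 2) R → E
  | 0, _, _ => 0
  | k + 1, l, u => ∑ i : Fin 2, x i * DD x y k l (dl i u)

/-- the part of `DD` beginning with a letter `y` -/
def DB : ℕ → ℕ → Ser (Fin 2) R → E
  | _, 0, _ => 0
  | k, l + 1, u => ∑ i : Fin 2, y i * DD x y k l (dl i u)

variable {x y} (h : ∀ i j, x i * y j = y j * x i)
include h

lemma comm_word (j : Fin 2) (p : List (Fin 2)) : (p.map x).prod * y j = y j * (p.map x).prod := by
  induction p with
  | nil => simp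
  | cons i p ih =>
    rw [List.map_cons, List.prod_cons, mul_assoc, ih, ← mul_assoc, h, mul_assoc]

lemma mulL_Sn (z : E) (n : ℕ) (F : List (Fin 2) → E) : z * Sn n F = Sn n (fun w => z * F w) :=
  Sn_map (AddMonoidHom.mulLeft z) n F

lemma DD_rec (k l : ℕ) (hkl : k + l ≠ 0) (u : Ser (Fin 2) R) :
    DD x y k l u = DA x y k l u + DB x y k l u := by
  cases k with
  | zero =>
    cases l with
    | zero => exact absurd rfl hkl
    | succ l =>
      unfold DA DB
      rw [zero_add]
      unfold DD
      rw [Sn_zero, Sn_succ]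
      refine Finset.sum_congr rfl (fun i _ => ?_)
      rw [Sn_zero, mulL_Sn h]
      refine Sn_congr (fun q _ => ?_)
      rw [cop_nil_left, cop_nil_left, List.map_cons, List.prod_cons, List.map_nil, List.prod_nil,
        one_mul, one_mul, mul_smul_comm]
      rfl
  | succ k =>
    cases l with
    | zero =>
      unfold DA DB
      rw [add_zero]
      unfold DD
      rw [Sn_succ]
      refine Finset.sum_congr rfl (fun i _ => ?_)
      rw [mulL_Sn h]
      refine Sn_congr (fun p _ => ?_)
      rw [Sn_zero, Sn_zero, cop_nil_right, cop_nil_right, List.map_cons, List.prod_cons,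
        List.map_nil, List.prod_nil, mul_one, mul_one, mul_smul_comm]
      rfl
    | succ l =>
      unfold DA DB
      have e1 : ∀ (i j : Fin 2) (p q : List (Fin 2)), cop u (i :: p) (j :: q) •
          (((i :: p).map x).prod * ((j :: q).map y).prod) =
          x i * (cop (dl i u) p (j :: q) • ((p.map x).prod * ((j :: q).map y).prod)) +
          y j * (cop (dl j u) (i :: p) q • (((i :: p).map x).prod * (q.map y).prod)) := by
        intro i j p q
        rw [cop_cons, add_smul, mul_smul_comm, mul_smul_comm]
        congr 2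
        · rw [List.map_cons, List.prod_cons, mul_assoc]
        · rw [List.map_cons (f := y), List.prod_cons (a := y j), ← mul_assoc,
            comm_word h, mul_assoc]
      have e2 : DD x y (k + 1) (l + 1) u = ∑ i : Fin 2, ∑ j : Fin 2,
          (Sn k (fun p => Sn l (fun q => x i * (cop (dl i u) p (j :: q) •
            ((p.map x).prod * ((j :: q).map y).prod)))) +
          Sn k (fun p => Sn l (fun q => y j * (cop (dl j u) (i :: p) q •
            (((i :: p).map x).prod * (q.map y).prod))))) := by
        unfold DD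
        rw [Sn_succ]
        refine Finset.sum_congr rfl (fun i _ => ?_)
        simp only [Sn_succ]
        rw [Sn_sum]
        refine Finset.sum_congr rfl (fun j _ => ?_)
        rw [← Sn_add]
        refine Sn_congr (fun p _ => ?_)
        rw [← Sn_add]
        refine Sn_congr (fun q _ => ?_)
        exact e1 i j p q
      rw [e2]
      simp only [Finset.sum_add_distrib]
      congr 1
      · refine Finset.sum_congr rfl (fun i _ => ?_)
        unfold DD
        rw [mulL_Sn h]
        simp only [mulL_Sn h, Sn_succ, Finset.mul_sum]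
        rw [Sn_sum]
      · rw [Finset.sum_comm]
        refine Finset.sum_congr rfl (fun j _ => ?_)
        unfold DD
        rw [mulL_Sn h, Sn_succ]
        refine Finset.sum_congr rfl (fun i _ => ?_)
        refine Sn_congr (fun p _ => ?_)
        rw [mulL_Sn h]

lemma Sn_dbl (n : ℕ) (u : Ser (Fin 2) R) :
    Sn n (fun w => u w • (w.map (fun i => x i + y i)).prod) =
      ∑ kl ∈ Finset.HasAntidiagonal.antidiagonal n, DD x y kl.1 kl.2 u := by
  induction n generalizing u with
  | zero =>
    rw [Sn_zero, Finset.Nat.antidiagonal_zero, Finset.sum_singleton]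
    unfold DD
    rw [Sn_zero, Sn_zero, cop_nil_left]
    simp
  | succ n ih =>
    have e1 : ∑ kl ∈ Finset.HasAntidiagonal.antidiagonal (n + 1), DD x y kl.1 kl.2 u =
        ∑ kl ∈ Finset.HasAntidiagonal.antidiagonal (n + 1), DA x y kl.1 kl.2 u +
        ∑ kl ∈ Finset.HasAntidiagonal.antidiagonal (n + 1), DB x y kl.1 kl.2 u := by
      rw [← Finset.sum_add_distrib]
      refine Finset.sum_congr rfl (fun kl hkl => ?_)
      rw [Finset.HasAntidiagonal.mem_antidiagonal] at hkl
      exact DD_rec h _ _ (by omega) u
    rw [e1, Finset.Nat.sum_antidiagonal_succ, Finset.Nat.sum_antidiagonal_succ', Sn_succ]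
    have e2 : DA x y 0 (n + 1) u = 0 := rfl
    have e3 : DB x y (n + 1) 0 u = 0 := rfl
    simp only [e2, e3, zero_add, add_zero]
    have e4 : ∀ i : Fin 2, Sn n (fun w => u (i :: w) •
        (((i :: w).map (fun i => x i + y i))).prod) =
        (x i + y i) * ∑ kl ∈ Finset.HasAntidiagonal.antidiagonal n, DD x y kl.1 kl.2 (dl i u) := by
      intro i
      rw [← ih, mulL_Sn h]
      refine Sn_congr (fun w _ => ?_)
      rw [List.map_cons, List.prod_cons, mul_smul_comm]
      rfl
    rw [Finset.sum_congr rfl (fun i _ => e4 i)]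
    simp only [add_mul, Finset.mul_sum, Finset.sum_add_distrib]
    rw [Finset.sum_comm (s := Finset.univ), Finset.sum_comm (s := Finset.univ)]
    rfl

end Dbl

section Part

variable {R : Type} [CommRing R]

/-- the polynomial with the coefficients of `f` at the words of length `n` -/
def prt (f : List (Fin 2) → R) (n : ℕ) : AA R :=
  ∑ v ∈ (wl (n + 1)).filter (fun v => v.length = n), f v • ow R v

lemma cf_prt (f : List (Fin 2) → R) (n : ℕ) (w : List (Fin 2)) :
    cf (prt f n) w = if w.length = n then f w else 0 := by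
  classical
  unfold prt
  rw [cf_sum]
  simp only [cf_smul, cf_ow, mul_ite, mul_one, mul_zero]
  rw [Finset.sum_ite_eq']
  simp only [Finset.mem_filter, mem_wl]
  by_cases h : w.length = n
  · rw [if_pos ⟨by omega, h⟩, if_pos h]
  · rw [if_neg (fun h' => h h'.2), if_neg h]

lemma EV_prt {E : Type*} [Ring E] [Algebra R E] (f : List (Fin 2) → R) (n : ℕ) (A B : E) :
    EV A B (prt f n) = Sn n (fun v => f v • (v.map ![A, B]).prod) := by
  rw [Sn_eq]
  unfold prt
  rw [map_sum]
  refine Finset.sum_congr rfl (fun v _ => ?_)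
  rw [map_smul, EV_ow]

lemma prt_sub (f g : List (Fin 2) → R) (n : ℕ) :
    prt (fun w => f w - g w) n = prt f n - prt g n := by
  apply AA_ext
  intro w
  rw [cf_sub, cf_prt, cf_prt, cf_prt]
  split_ifs
  · rfl
  · rw [sub_zero]

lemma prt_add (f g : List (Fin 2) → R) (n : ℕ) :
    prt (fun w => f w + g w) n = prt f n + prt g n := by
  apply AA_ext
  intro w
  rw [cf_add, cf_prt, cf_prt, cf_prt]
  split_ifs
  · rfl
  · rw [add_zero]

lemma prt_congr {f g : List (Fin 2) → R} {n : ℕ} (h : ∀ w : List (Fin 2), w.length = n → f w = g w) :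
    prt f n = prt g n := by
  apply AA_ext
  intro w
  rw [cf_prt, cf_prt]
  split_ifs with hw
  · exact h w hw
  · rfl

lemma prt_inj {f g : List (Fin 2) → R} {n : ℕ} (h : prt f n = prt g n) (w : List (Fin 2))
    (hw : w.length = n) : f w = g w := by
  have h1 := congrArg (fun X => cf X w) h
  simp only [cf_prt, if_pos hw] at h1
  exact h1

/-- the linear shuffle relations imply additivity -/
lemma EV_add_of_shuffle {d : List (Fin 2) → R} {n : ℕ} (hn : 1 ≤ n)
    (hd : ∀ p q : List (Fin 2), p ≠ [] → q ≠ [] → p.length + q.length = n →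
      ((shuffle p q).map d).sum = 0) {E : Type*} [Ring E] [Algebra R E] (a b a' b' : E)
    (h00 : a * a' = a' * a) (h01 : a * b' = b' * a) (h10 : b * a' = a' * b)
    (h11 : b * b' = b' * b) :
    EV (a + a') (b + b') (prt d n) = EV a b (prt d n) + EV a' b' (prt d n) := by
  have h : ∀ i j : Fin 2, (![a, b] i : E) * ![a', b'] j = ![a', b'] j * ![a, b] i := by
    intro i j
    fin_cases i <;> fin_cases j
    · exact h00
    · exact h01
    · exact h10
    · exact h11
  have e0 : (fun i : Fin 2 => (![a, b] i : E) + ![a', b'] i) = ![a + a', b + b'] := by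
    ext i
    fin_cases i <;> rfl
  have e1 := Sn_dbl h n (⟨d⟩ : Ser (Fin 2) R)
  rw [e0] at e1
  rw [EV_prt, EV_prt, EV_prt]
  change Sn n (fun v => (⟨d⟩ : Ser (Fin 2) R) v • _) = _
  rw [e1]
  obtain ⟨m, rfl⟩ : ∃ m, n = m + 1 := ⟨n - 1, by omega⟩
  rw [Finset.Nat.sum_antidiagonal_succ]
  have hz : ∀ k l : ℕ, k + l = m + 1 → k ≠ 0 → l ≠ 0 →
      DD ![a, b] ![a', b'] k l (⟨d⟩ : Ser (Fin 2) R) = 0 := by
    intro k l hkl hk hl
    unfold DD
    rw [← Sn_zero' (M := E) k]
    refine Sn_congr (fun p hp => ?_)
    rw [← Sn_zero' (M := E) l]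
    refine Sn_congr (fun q hq => ?_)
    rw [cop_apply]
    change ((shuffle p q).map d).sum • _ = _
    rw [hd p q (by rintro rfl; simp at hp; omega) (by rintro rfl; simp at hq; omega) (by omega),
      zero_smul]
  have e2 : ∑ p ∈ Finset.HasAntidiagonal.antidiagonal m,
      DD ![a, b] ![a', b'] (p.1 + 1) p.2 (⟨d⟩ : Ser (Fin 2) R) =
      DD ![a, b] ![a', b'] (m + 1) 0 (⟨d⟩ : Ser (Fin 2) R) := by
    rw [Finset.sum_eq_single (m, 0)]
    · rintro ⟨k, l⟩ hkl hne
      rw [Finset.HasAntidiagonal.mem_antidiagonal] at hkl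
      simp only at hkl ⊢
      apply hz _ _ (by omega) (by omega)
      rintro rfl
      apply hne
      rw [add_zero] at hkl
      rw [hkl]
    · intro h2
      exfalso
      apply h2
      rw [Finset.HasAntidiagonal.mem_antidiagonal]
      rfl
  rw [e2, add_comm]
  congr 1
  · unfold DD
    refine Sn_congr (fun p _ => ?_)
    rw [Sn_zero, cop_nil_right]
    simp
  · unfold DD
    rw [Sn_zero]
    refine Sn_congr (fun q _ => ?_)
    rw [cop_nil_left]
    simp

/-- the linear shuffle relations imply that the Dynkin operator is the multiplication by `n` -/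
theorem Dyn_of_shuffle {d : List (Fin 2) → R} {n : ℕ} (hn : 1 ≤ n)
    (hd : ∀ p q : List (Fin 2), p ≠ [] → q ≠ [] → p.length + q.length = n →
      ((shuffle p q).map d).sum = 0) : MP446S.Dyn (prt d n) = (n : R) • prt d n := by
  have h := EV_add_of_shuffle hn hd (E := Module.End R (TrivSqZeroExt (AA R) (AA R))) (Lop 0)
    (Lop 1) (Rop 0) (Rop 1) (Lop_Rop 0 0) (Lop_Rop 0 1) (Lop_Rop 1 0) (Lop_Rop 1 1)
  have h2 := congrArg (fun f : Module.End R (TrivSqZeroExt (AA R) (AA R)) => (f 1).snd) h
  simp only [LinearMap.add_apply, TrivSqZeroExt.snd_add] at h2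
  obtain ⟨z, hz⟩ := EV_Rop (prt d n)
  rw [EV_LRop, hz, TrivSqZeroExt.snd_inl, add_zero] at h2
  rw [h2]
  apply AA_ext
  intro w
  rw [EV_Lop, cf_smul, cf_prt]
  change (w.length : R) * cf (prt d n) w = _
  rw [cf_prt]
  by_cases h3 : w.length = n
  · rw [h3]
  · rw [if_neg h3, mul_zero, mul_zero]

end Part

end MP446I
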