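import Mathlib

set_option linter.all false

/-!
# The ring of power series in non-commuting variables

A series is given by its coefficients, i.e. it is a function on words (lists of letters).
-/

noncomputable section

namespace MP446I

section Ser

/-- power series in non-commuting variables indexed by `α`, with coefficients in `A` -/
structure Ser (α A : Type) where
  /-- the coefficients -/
  cf : List α → A

instance (α A : Type) : CoeFun (Ser α A) (fun _ => List α → A) := ⟨Ser.cf⟩

@[ext] lemma Ser.ext' {α A : Type} {u v : Ser α A} (h : ∀ w, u w = v w) : u = v := by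
  cases u; cases v; congr; exact funext h

/-- the bijection with the functions on words -/
def Ser.eqv (α A : Type) : Ser α A ≃ (List α → A) where
  toFun u := u.cf
  invFun f := ⟨f⟩
  left_inv _ := rfl
  right_inv _ := rfl

variable {α A : Type} [Ring A]

instance : AddCommGroup (Ser α A) := (Ser.eqv α A).addCommGroup

@[simp] lemma Ser.mk_apply (f : List α → A) (w : List α) : (Ser.mk f) w = f w := rfl
@[simp] lemma Ser.add_apply (u v : Ser α A) (w : List α) : (u + v) w = u w + v w := rfl
@[simp] lemma Ser.zero_apply (w : List α) : (0 : Ser α A) w = 0 := rfl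
@[simp] lemma Ser.neg_apply (u : Ser α A) (w : List α) : (-u) w = -u w := rfl
@[simp] lemma Ser.sub_apply (u v : Ser α A) (w : List α) : (u - v) w = u w - v w := rfl

lemma Ser.sum_apply {ι : Type*} (s : Finset ι) (u : ι → Ser α A) (w : List α) :
    (∑ i ∈ s, u i) w = ∑ i ∈ s, u i w := by
  classical
  induction s using Finset.induction_on with
  | empty => rfl
  | insert i s hi ih => rw [Finset.sum_insert hi, Finset.sum_insert hi, Ser.add_apply, ih]

/-- derivative at a letter -/
def dl (a : α) (u : Ser α A) : Ser α A := ⟨fun w => u (a :: w)⟩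

@[simp] lemma dl_apply (a : α) (u : Ser α A) (w : List α) : dl a u w = u (a :: w) := rfl

instance : Mul (Ser α A) :=
  ⟨fun u v => ⟨fun w => ∑ i ∈ Finset.range (w.length + 1), u (w.take i) * v (w.drop i)⟩⟩

/-- the coefficients of the series `1` -/
def oneF : List α → A
  | [] => 1
  | _ :: _ => 0

instance : One (Ser α A) := ⟨⟨oneF⟩⟩

lemma Ser.mul_apply (u v : Ser α A) (w : List α) :
    (u * v) w = ∑ i ∈ Finset.range (w.length + 1), u (w.take i) * v (w.drop i) := rfl

@[simp] lemma Ser.one_nil : (1 : Ser α A) [] = 1 := rfl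
@[simp] lemma Ser.one_cons (a : α) (w : List α) : (1 : Ser α A) (a :: w) = 0 := rfl

lemma Ser.one_of_ne {w : List α} (h : w ≠ []) : (1 : Ser α A) w = 0 := by
  cases w with
  | nil => exact absurd rfl h
  | cons a w => rfl

@[simp] lemma Ser.mul_nil (u v : Ser α A) : (u * v) [] = u [] * v [] := by
  rw [Ser.mul_apply]
  simp

lemma Ser.mul_cons (u v : Ser α A) (a : α) (w : List α) :
    (u * v) (a :: w) = u [] * v (a :: w) + (dl a u * v) w := by
  rw [Ser.mul_apply, Ser.mul_apply, List.length_cons, Finset.sum_range_succ' _ (w.length + 1),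
    add_comm]
  rfl

lemma Ser.dl_mul (u v : Ser α A) (a : α) :
    dl a (u * v) = ⟨fun w => u [] * dl a v w⟩ + dl a u * v := by
  apply Ser.ext'
  intro w
  exact Ser.mul_cons u v a w

@[simp] lemma dl_add (a : α) (u v : Ser α A) : dl a (u + v) = dl a u + dl a v := rfl
@[simp] lemma dl_zero (a : α) : dl a (0 : Ser α A) = 0 := rfl
@[simp] lemma dl_one (a : α) : dl a (1 : Ser α A) = 0 := rfl

lemma Ser.add_mul' (u v t : Ser α A) : (u + v) * t = u * t + v * t := by
  apply Ser.ext'
  intro w
  rw [Ser.add_apply, Ser.mul_apply, Ser.mul_apply, Ser.mul_apply, ← Finset.sum_add_distrib]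
  refine Finset.sum_congr rfl (fun i _ => ?_)
  rw [Ser.add_apply, add_mul]

lemma Ser.mul_add' (t u v : Ser α A) : t * (u + v) = t * u + t * v := by
  apply Ser.ext'
  intro w
  rw [Ser.add_apply, Ser.mul_apply, Ser.mul_apply, Ser.mul_apply, ← Finset.sum_add_distrib]
  refine Finset.sum_congr rfl (fun i _ => ?_)
  rw [Ser.add_apply, mul_add]

lemma Ser.cmul (c : A) (u v : Ser α A) (w : List α) :
    ((⟨fun w => c * u w⟩ : Ser α A) * v) w = c * (u * v) w := by
  rw [Ser.mul_apply, Ser.mul_apply, Finset.mul_sum]
  refine Finset.sum_congr rfl (fun i _ => ?_)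
  rw [Ser.mk_apply, mul_assoc]

lemma Ser.mul_assoc' (u v t : Ser α A) : u * v * t = u * (v * t) := by
  apply Ser.ext'
  intro w
  induction w generalizing u v with
  | nil => simp only [Ser.mul_nil, mul_assoc]
  | cons a w ih =>
    rw [Ser.mul_cons, Ser.mul_cons, Ser.mul_nil, Ser.dl_mul, Ser.add_mul', Ser.add_apply, ih,
      Ser.mul_cons, Ser.cmul, mul_add, mul_assoc]
    abel

lemma Ser.zero_mul' (u : Ser α A) : 0 * u = 0 := by
  apply Ser.ext'
  intro w
  rw [Ser.mul_apply, Ser.zero_apply]
  refine Finset.sum_eq_zero (fun i _ => ?_)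
  rw [Ser.zero_apply, zero_mul]

lemma Ser.mul_zero' (u : Ser α A) : u * 0 = 0 := by
  apply Ser.ext'
  intro w
  rw [Ser.mul_apply, Ser.zero_apply]
  refine Finset.sum_eq_zero (fun i _ => ?_)
  rw [Ser.zero_apply, mul_zero]

lemma Ser.one_mul' (u : Ser α A) : 1 * u = u := by
  apply Ser.ext'
  intro w
  cases w with
  | nil => rw [Ser.mul_nil, Ser.one_nil, one_mul]
  | cons a w => rw [Ser.mul_cons, Ser.one_nil, one_mul, dl_one, Ser.zero_mul', Ser.zero_apply,
      add_zero]

lemma Ser.mul_one' (u : Ser α A) : u * 1 = u := by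
  apply Ser.ext'
  intro w
  induction w generalizing u with
  | nil => rw [Ser.mul_nil, Ser.one_nil, mul_one]
  | cons a w ih => rw [Ser.mul_cons, Ser.one_cons, mul_zero, zero_add, ih]; rfl

instance : Ring (Ser α A) where
  left_distrib := Ser.mul_add'
  right_distrib := Ser.add_mul'
  zero_mul := Ser.zero_mul'
  mul_zero := Ser.mul_zero'
  mul_assoc := Ser.mul_assoc'
  one_mul := Ser.one_mul'
  mul_one := Ser.mul_one'
  neg_add_cancel := neg_add_cancel
  zsmul := (inferInstance : AddCommGroup (Ser α A)).zsmul
  zsmul_zero' := (inferInstance : AddCommGroup (Ser α A)).zsmul_zero'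
  zsmul_succ' := (inferInstance : AddCommGroup (Ser α A)).zsmul_succ'
  zsmul_neg' := (inferInstance : AddCommGroup (Ser α A)).zsmul_neg'
  nsmul := (inferInstance : AddCommGroup (Ser α A)).nsmul
  nsmul_zero := (inferInstance : AddCommGroup (Ser α A)).nsmul_zero
  nsmul_succ := (inferInstance : AddCommGroup (Ser α A)).nsmul_succ
  sub_eq_add_neg := (inferInstance : AddCommGroup (Ser α A)).sub_eq_add_neg

end Ser

section Conv

variable {α A : Type} [Ring A]

/-- the product at `w` depends only on the coefficients at the words of length `≤ |w|` -/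
lemma Ser.mul_congr {u v u' v' : Ser α A} {w : List α}
    (h : ∀ s : List α, s.length ≤ w.length → u s = u' s)
    (h' : ∀ s : List α, s.length ≤ w.length → v s = v' s) : (u * v) w = (u' * v') w := by
  rw [Ser.mul_apply, Ser.mul_apply]
  refine Finset.sum_congr rfl (fun i _ => ?_)
  rw [h _ (by rw [List.length_take]; omega), h' _ (by rw [List.length_drop]; omega)]

lemma Ser.pow_short {x : Ser α A} (hx : x [] = 0) (k : ℕ) (w : List α) (hw : w.length < k) :
    (x ^ k) w = 0 := by
  induction k generalizing w with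
  | zero => omega
  | succ k ih =>
    rw [pow_succ', Ser.mul_apply]
    refine Finset.sum_eq_zero (fun i _ => ?_)
    by_cases hi : i = 0
    · subst hi
      rw [List.take_zero, hx, zero_mul]
    · by_cases h2 : w = []
      · subst h2
        rw [List.take_nil, hx, zero_mul]
      · rw [ih _ (by
          rw [List.length_drop]
          have := List.length_pos_of_ne_nil h2
          omega), mul_zero]

end Conv

section Comm

variable {α R : Type} [CommRing R]

instance : Module R (Ser α R) := (Ser.eqv α R).module R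

@[simp] lemma Ser.smul_apply (c : R) (u : Ser α R) (w : List α) : (c • u) w = c * u w := rfl

lemma Ser.smul_mul' (c : R) (u v : Ser α R) : (c • u) * v = c • (u * v) := by
  apply Ser.ext'
  intro w
  exact Ser.cmul c u v w

lemma Ser.mul_smul' (c : R) (u v : Ser α R) : u * (c • v) = c • (u * v) := by
  apply Ser.ext'
  intro w
  rw [Ser.smul_apply, Ser.mul_apply, Ser.mul_apply, Finset.mul_sum]
  refine Finset.sum_congr rfl (fun i _ => ?_)
  rw [Ser.smul_apply, mul_left_comm]

instance : Algebra R (Ser α R) := Algebra.ofModule Ser.smul_mul' Ser.mul_smul'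

/-- the locally finite sum `∑_k c_k x^k`, for a series `x` without constant term -/
def lsum (c : ℕ → R) (x : Ser α R) : Ser α R :=
  ⟨fun w => ∑ k ∈ Finset.range (w.length + 1), c k * (x ^ k) w⟩

lemma lsum_apply {c : ℕ → R} {x : Ser α R} (hx : x [] = 0) {w : List α} {M : ℕ}
    (hM : w.length < M) : lsum c x w = (∑ k ∈ Finset.range M, c k • x ^ k) w := by
  unfold lsum
  rw [Ser.sum_apply]
  symm
  rw [← Finset.sum_subset (Finset.range_mono (show w.length + 1 ≤ M by omega))]
  · rfl
  · intro k _ hk
    rw [Finset.mem_range] at hk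
    rw [Ser.smul_apply, Ser.pow_short hx k w (by omega), mul_zero]

@[simp] lemma lsum_nil (c : ℕ → R) (x : Ser α R) : lsum c x [] = c 0 := by
  unfold lsum
  simp

/-- a series with constant term `1` is invertible -/
lemma exists_inv (u : Ser α R) (hu : u [] = 1) : ∃ v : Ser α R, u * v = 1 ∧ v * u = 1 ∧ v [] = 1 := by
  set z : Ser α R := 1 - u with hz
  have hz0 : z [] = 0 := by rw [hz, Ser.sub_apply, hu, Ser.one_nil, sub_self]
  have hu' : u = 1 - z := by rw [hz]; abel
  have h : ∀ (w : List α) (s : List α), s.length ≤ w.length →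
      lsum (fun _ => 1) z s = (∑ k ∈ Finset.range (w.length + 1), z ^ k) s := by
    intro w s hs
    rw [lsum_apply hz0 (M := w.length + 1) (by omega)]
    simp only [one_smul]
  refine ⟨lsum (fun _ => 1) z, ?_, ?_, lsum_nil _ _⟩
  · apply Ser.ext'
    intro w
    rw [Ser.mul_congr (fun s _ => rfl) (h w), hu', mul_neg_geom_sum, Ser.sub_apply,
      Ser.pow_short hz0 _ _ (by omega), sub_zero]
  · apply Ser.ext'
    intro w
    rw [Ser.mul_congr (h w) (fun s _ => rfl), hu', geom_sum_mul_neg, Ser.sub_apply,
      Ser.pow_short hz0 _ _ (by omega), sub_zero]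

end Comm

end MP446I
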