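import Pool.Agent.Lib.MP_446dfa_ag.grp.LeadR
import Pool.Agent.Lib.MP_446dfa_ag.sig.Final
import Pool.Agent.Lib.MP_446dfa_ag.ddi.Grading

set_option linter.all false

/-!
# The leading term of the difference of two elements of `GT(R)` with the same `λ`
-/

noncomputable section

namespace MP446I

open MP446 MP446Y MP446Z MP446S MP446G

section Torsor

variable {R : Type} [CommRing R] [Algebra ℚ R] {a b : GT R} {n : ℕ}

/-- the difference -/
def dif (a b : GT R) : List (Fin 2) → R := fun w => a.ser w - b.ser w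

lemma shuffle_dif (h : ∀ w : List (Fin 2), w.length < n → a.ser w = b.ser w)
    (p q : List (Fin 2)) (hp : p ≠ []) (hq : q ≠ []) (hpq : p.length + q.length = n) :
    ((shuffle p q).map (dif a b)).sum = 0 := by
  have h1 := a.isGroupLike.shuffle p q
  have h2 := b.isGroupLike.shuffle p q
  have hp' := List.length_pos_of_ne_nil hp
  have hq' := List.length_pos_of_ne_nil hq
  have h3 : ∀ l : List (List (Fin 2)), (l.map (dif a b)).sum = (l.map a.ser).sum - (l.map b.ser).sum := by
    intro l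
    induction l with
    | nil => simp
    | cons s l ih =>
      simp only [List.map_cons, List.sum_cons] at ih ⊢
      rw [ih, dif]
      ring
  rw [h3, ← h1, ← h2, h p (by omega), h q (by omega), sub_self]

variable {S : Type} [CommRing S] [Algebra R S] {E : Type} [Ring E]
  [Algebra R E] [Algebra S E] [IsScalarTower R S E] {ε : S}

lemma Cg_app (h : ∀ w : List (Fin 2), w.length < n → a.ser w = b.ser w) (hε : ε ^ (n + 1) = 0)
    {x A y B : E} (hx : Lead ε x A) (hy : Lead ε y B) :
    Cg ε n (app a.ser x y) (app b.ser x y) (EV A B (prt (dif a b) n)) :=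
  ⟨app_diff h hε hx hy, app_one b.isGroupLike.one hε hx hy⟩

lemma pent_R (hn : 1 ≤ n) (h : ∀ w : List (Fin 2), w.length < n → a.ser w = b.ser w) :
    PLt (ee R) (prt (dif a b) n) := by
  set S := TRR R n with hS
  set ε := ter R n with hε'
  have hε : ε ^ (n + 1) = 0 := ter_pow R n
  let E := Module.End S (FA S (Fin 3))
  let x : Fin 4 → Fin 4 → Eˣ := xx (ter_nilp R n)
  have hx : PureBraid x := by
    have h1 := pureBraid_xx (ter_nilp R n)
    exact ⟨h1.tri, h1.far, h1.cross⟩
  have hl : ∀ i j : Fin 4, i < j → Lead ε (x i j : E) (ee S i j) := fun i j hij =>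
    lead_xx (ter_nilp R n) i j hij
  have l01 := hl 0 1 (by decide)
  have l02 := hl 0 2 (by decide)
  have l12 := hl 1 2 (by decide)
  have l13 := hl 1 3 (by decide)
  have l23 := hl 2 3 (by decide)
  have pa := a.pentagon E (n + 1) (epI R E ε) (isNilp_ep hε) x hx
    (fun i j hij => Lead.mem' (hl i j hij))
  have pb := b.pentagon E (n + 1) (epI R E ε) (isNilp_ep hε) x hx
    (fun i j hij => Lead.mem' (hl i j hij))
  have c1 := (Cg_app h hε l01 (l12.mul l13)).mul hn hε (Cg_app h hε (l02.mul l12) l23)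
  have c2 := ((Cg_app h hε l12 l23).mul hn hε (Cg_app h hε (l01.mul l02) (l13.mul l23))).mul hn hε
    (Cg_app h hε l01 l12)
  have key := c1.eq c2 pa pb
  have h2 : PLt (ee S) (ε ^ n • bcr n (prt (dif a b) n)) := by
    unfold PLt
    simp only [map_smul, EV_bcr, ← smul_add]
    exact key
  have h3 := PLt_mm (μ := (AddMonoidHom.id R).comp (muR R n).toAddMonoidHom) h2
  rw [mm_backr] at h3
  have e : mm (AddMonoidHom.id R) (prt (dif a b) n) = prt (dif a b) n := by
    apply AA_ext
    intro w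
    rw [cf_mmr]
    rfl
  rwa [e] at h3

lemma two_half : ∀ c : R, 2 * (algebraMap ℚ R (1 / 2) * (c - 1)) + 1 = c := by
  intro c
  have : (2 : R) * algebraMap ℚ R (1 / 2) = 1 := by
    rw [← map_ofNat (algebraMap ℚ R) 2, ← map_mul]
    norm_num
  rw [← mul_assoc, this]
  ring

lemma nil_smul' {ε : S} (h : IsNilpotent ε) (i : Fin 2) :
    IsNilpotent (ε • lt S i : AA S) := by
  obtain ⟨N, hN⟩ := h
  exact ⟨N, by rw [_root_.smul_pow, hN, zero_smul]⟩

lemma cycle_R (hn : 1 ≤ n) (hl : a.lam = b.lam)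
    (h : ∀ w : List (Fin 2), w.length < n → a.ser w = b.ser w) :
    EV (-lt R 0 - lt R 1) (lt R 0) (prt (dif a b) n) +
      EV (lt R 1) (-lt R 0 - lt R 1) (prt (dif a b) n) + prt (dif a b) n = 0 := by
  set S := TRR R n with hS
  set ε := ter R n with hε'
  have hε : ε ^ (n + 1) = 0 := ter_pow R n
  have hnil : ∀ i : Fin 2, IsNilpotent (ε • lt S i : AA S) := nil_smul' ⟨n + 1, hε⟩
  let x : (AA S)ˣ := (hnil 0).isUnit_one_add.unit
  let y : (AA S)ˣ := (hnil 1).isUnit_one_add.unit
  have lx : Lead ε (x : AA S) (lt S 0) := ⟨0, by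
    change 1 + ε • lt S 0 = _
    rw [smul_zero, add_zero]⟩
  have ly : Lead ε (y : AA S) (lt S 1) := ⟨0, by
    change 1 + ε • lt S 1 = _
    rw [smul_zero, add_zero]⟩
  have lz : Lead ε (((x * y)⁻¹ : (AA S)ˣ) : AA S) (-lt S 0 - lt S 1) := by
    have h : Lead ε ((x * y : (AA S)ˣ) : AA S) (lt S 0 + lt S 1) := by
      rw [Units.val_mul]
      exact lx.mul ly
    have h2 := h.inv
    rwa [neg_add, ← sub_eq_add_neg] at h2
  have hxyz : (x : AA S) * y * (((x * y)⁻¹ : (AA S)ˣ) : AA S) = 1 := by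
    rw [← Units.val_mul, ← Units.val_mul, mul_inv_cancel, Units.val_one]
  set m : R := algebraMap ℚ R (1 / 2) * ((a.lam : R) - 1) with hm
  have ha := a.hexagon (AA S) (n + 1) (epI R (AA S) ε) (isNilp_ep hε) x y
    (((x * y)⁻¹ : (AA S)ˣ) : AA S) (Lead.mem' lx) (Lead.mem' ly) (Lead.mem' lz) hxyz m
    (two_half _)
  have hb := b.hexagon (AA S) (n + 1) (epI R (AA S) ε) (isNilp_ep hε) x y
    (((x * y)⁻¹ : (AA S)ˣ) : AA S) (Lead.mem' lx) (Lead.mem' ly) (Lead.mem' lz) hxyz m
    (by rw [← hl]; exact two_half _)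
  have cx := Cg.refl (n := n) (Lead.one_add (powU_lead hε lx m))
  have cy := Cg.refl (n := n) (Lead.one_add (powU_lead hε ly m))
  have cz := Cg.refl (n := n) (Lead.one_add (powU_lead hε lz m))
  have c1 := (((((Cg_app h hε lz lx).mul hn hε cz).mul hn hε (Cg_app h hε ly lz)).mul hn hε cy).mul
    hn hε (Cg_app h hε lx ly)).mul hn hε cx
  have c2 : Cg ε n (1 : AA S) 1 0 := Cg.refl ⟨0, by simp⟩
  have key := c1.eq c2 ha hb
  rw [smul_zero, add_zero, add_zero, add_zero] at key
  rw [← EV_bcr (n := n) (-lt S 0 - lt S 1) (lt S 0) (prt (dif a b) n),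
    ← EV_bcr (n := n) (lt S 1) (-lt S 0 - lt S 1) (prt (dif a b) n),
    ← EV_bcr (n := n) (lt S 0) (lt S 1) (prt (dif a b) n), EV_self] at key
  have b1 : ∀ i, bcr n (lt R i) = lt S i := by
    intro i
    rw [bcr_eq]
    fin_cases i
    · exact EV_letter_zero _ _
    · exact EV_letter_one _ _
  have b0 : bcr n (-lt R 0 - lt R 1) = -lt S 0 - lt S 1 := by
    rw [← b1, ← b1, bcr_eq, bcr_eq, bcr_eq, map_sub, map_neg]
  have b2 : ∀ U V Q : AA R, EV (bcr n U) (bcr n V) (bcr n Q) = bcr n (EV U V Q) := by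
    intro U V Q
    rw [EV_bcr, bcr_eq, bcr_eq, bcr_eq]
    exact (map_EV (EV (k := R) (lt (TRR R n) 0) (lt (TRR R n) 1)) U V Q).symm
  rw [← b0, ← b1, ← b1, b2, b2] at key
  have e : bcr n (EV (-lt R 0 - lt R 1) (lt R 0) (prt (dif a b) n)) +
      bcr n (EV (lt R 1) (-lt R 0 - lt R 1) (prt (dif a b) n)) + bcr n (prt (dif a b) n) =
      bcr n (EV (-lt R 0 - lt R 1) (lt R 0) (prt (dif a b) n) +
      EV (lt R 1) (-lt R 0 - lt R 1) (prt (dif a b) n) + prt (dif a b) n) := by
    unfold bcr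
    rw [map_add, map_add]
  have z : ter R n ^ n • bcr n (0 : AA R) = 0 := by
    unfold bcr
    rw [map_zero, smul_zero]
  apply bcr_inj (n := n)
  rw [z, ← e]
  exact key

end Torsor

section Low

variable {R : Type} [CommRing R] [Algebra ℚ R] {a b : GT R}

lemma rat_cancel (q : ℚ) (hq : q ≠ 0) (c : R) (h : algebraMap ℚ R q * c = 0) : c = 0 := by
  have h1 : algebraMap ℚ R q⁻¹ * (algebraMap ℚ R q * c) = c := by
    rw [← mul_assoc, ← map_mul, inv_mul_cancel₀ hq, map_one, one_mul]
  rw [← h1, h, mul_zero]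

lemma nat_cancel (m : ℕ) (hm : m ≠ 0) (c : R) (h : (m : R) * c = 0) : c = 0 := by
  apply rat_cancel (m : ℚ) (by exact_mod_cast hm)
  rwa [map_natCast]

lemma EV_prt_one {E : Type} [Ring E] [Algebra R E] (f : List (Fin 2) → R) (A B : E) :
    EV A B (prt f 1) = f [0] • A + f [1] • B := by
  rw [EV_prt, Sn_succ, Fin.sum_univ_two, Sn_zero, Sn_zero]
  simp

lemma EV_prt_two {E : Type} [Ring E] [Algebra R E] (f : List (Fin 2) → R) (A B : E) :
    EV A B (prt f 2) = f [0, 0] • (A * A) + f [0, 1] • (A * B) + (f [1, 0] • (B * A) +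
      f [1, 1] • (B * B)) := by
  rw [EV_prt, Sn_succ, Fin.sum_univ_two, Sn_succ, Sn_succ, Fin.sum_univ_two, Fin.sum_univ_two,
    Sn_zero, Sn_zero, Sn_zero, Sn_zero]
  simp

lemma dif_one (h : ∀ w : List (Fin 2), w.length < 1 → a.ser w = b.ser w) (w : List (Fin 2))
    (hw : w.length = 1) : dif a b w = 0 := by
  have key := pent_R (le_refl 1) h
  unfold PLt at key
  simp only [EV_prt_one] at key
  have k1 := congrArg (fun T : Module.End R (FA R (Fin 3)) => T 1) key
  have t01 : ee R 0 1 = Dij R 0 1 := rfl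
  have t02 : ee R 0 2 = Dij R 0 2 := rfl
  have t12 : ee R 1 2 = Dij R 1 2 := rfl
  have t13 : ee R 1 3 = Lx R (letter R 1) := rfl
  have t23 : ee R 2 3 = Lx R (letter R 2) := rfl
  have D1 : ∀ i j : Fin 3, Dij R i j 1 = 0 := fun i j => derF_one _
  have L1 : ∀ (X Y : FA R (Fin 3)), Lx R X Y = X * Y := fun X Y => rfl
  simp only [t01, t02, t12, t13, t23, LinearMap.add_apply, LinearMap.smul_apply, D1, L1, mul_one,
    smul_add, smul_zero, zero_add, add_zero] at k1
  have k2 : dif a b [1] • letter R (2 : Fin 3) = 0 := by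
    have := sub_eq_zero.2 k1
    rw [← neg_eq_zero, ← this]
    abel
  have e2 : dif a b [1] = 0 := by
    have := congrArg (fun X : FA R (Fin 3) => X.coeff (FreeMonoid.of 2)) k2
    simpa [letter] using this
  have k3 := congrArg (fun T : Module.End R (FA R (Fin 3)) => T (letter R 0)) key
  have D2 : ∀ i j : Fin 3, Dij R i j (letter R 0) = dij R i j 0 := fun i j => derF_letter _ _
  simp only [t01, t02, t12, t13, t23, LinearMap.add_apply, LinearMap.smul_apply, D2, L1,
    smul_add, e2, zero_smul, zero_add, add_zero] at k3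
  have k4 : dif a b [0] • dij R 0 1 0 = 0 := by
    have := sub_eq_zero.2 k3
    rw [← neg_eq_zero, ← this]
    abel
  have e1 : dif a b [0] = 0 := by
    have e : dij R 0 1 0 = letter R 0 * letter R 1 - letter R 1 * letter R 0 := rfl
    have := congrArg (fun X : FA R (Fin 3) => X.coeff (FreeMonoid.of 0 * FreeMonoid.of 1)) k4
    rw [e] at this
    simp only [letter, MonoidAlgebra.of_apply, MonoidAlgebra.single_mul_single, one_mul,
      MonoidAlgebra.coeff_smul, MonoidAlgebra.coeff_sub, MonoidAlgebra.coeff_single,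
      Finsupp.smul_apply, Finsupp.sub_apply] at this
    rw [Finsupp.single_eq_same, Finsupp.single_eq_of_ne (by
      intro h
      have h2 := congrArg FreeMonoid.toList h
      simp at h2)] at this
    simpa using this
  obtain ⟨i, rfl⟩ := List.length_eq_one_iff.1 hw
  fin_cases i
  · exact e1
  · exact e2

lemma dif_two (hl : a.lam = b.lam) (h : ∀ w : List (Fin 2), w.length < 2 → a.ser w = b.ser w)
    (w : List (Fin 2)) (hw : w.length = 2) : dif a b w = 0 := by
  have h00 : dif a b [0, 0] = 0 := by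
    have := shuffle_dif h [0] [0] (by simp) (by simp) rfl
    simp at this
    apply nat_cancel 2 (by norm_num)
    rw [← this]
    push_cast
    ring
  have h11 : dif a b [1, 1] = 0 := by
    have := shuffle_dif h [1] [1] (by simp) (by simp) rfl
    simp at this
    apply nat_cancel 2 (by norm_num)
    rw [← this]
    push_cast
    ring
  have h01 : dif a b [1, 0] = -dif a b [0, 1] := by
    have := shuffle_dif h [0] [1] (by simp) (by simp) rfl
    simp at this
    rw [eq_neg_iff_add_eq_zero, ← this]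
    ring
  have key := cycle_R (by norm_num) hl h
  rw [← EV_self (prt (dif a b) 2)] at key
  rw [EV_self (prt (dif a b) 2)] at key
  have key2 : EV (-lt R 0 - lt R 1) (lt R 0) (prt (dif a b) 2) +
      EV (lt R 1) (-lt R 0 - lt R 1) (prt (dif a b) 2) + EV (lt R 0) (lt R 1) (prt (dif a b) 2) = 0 := by
    rw [EV_self]
    exact key
  simp only [EV_prt_two, h00, h11, h01, zero_smul, zero_add, add_zero, neg_smul,
    ← sub_eq_add_neg, ← smul_sub] at key2
  rw [← smul_add, ← smul_add] at key2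
  have e3 : ((-lt R 0 - lt R 1) * lt R 0 - lt R 0 * (-lt R 0 - lt R 1)) +
      (lt R 1 * (-lt R 0 - lt R 1) - (-lt R 0 - lt R 1) * lt R 1) +
      (lt R 0 * lt R 1 - lt R 1 * lt R 0) = 3 • (ow R [0, 1] - ow R [1, 0]) := by
    have e4 : (ow R [0, 1] : AA R) = lt R 0 * lt R 1 := by
      rw [show [0, 1] = [0] ++ [(1 : Fin 2)] from rfl, ow_append]; rfl
    have e5 : (ow R [1, 0] : AA R) = lt R 1 * lt R 0 := by
      rw [show [1, 0] = [1] ++ [(0 : Fin 2)] from rfl, ow_append]; rfl
    rw [e4, e5]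
    noncomm_ring
  rw [e3] at key2
  have h5 := congrArg (fun X : AA R => cf X [0, 1]) key2
  rw [← Nat.cast_smul_eq_nsmul R] at h5
  simp only [cf_smul, cf_sub, cf_ow, cf_zero] at h5
  have h6 : dif a b [0, 1] = 0 := by
    apply nat_cancel 3 (by norm_num)
    rw [← h5]
    simp
    ring
  obtain ⟨i, j, rfl⟩ := List.length_eq_two.1 hw
  fin_cases i <;> fin_cases j
  · exact h00
  · exact h6
  · change dif a b [1, 0] = 0
    rw [h01, h6, neg_zero]
  · exact h11

/-- **The leading term of the difference of two elements of `GT(R)` is in `R ⊗ grt₁`.** -/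
theorem torsor {n : ℕ} (hn : 1 ≤ n) (hl : a.lam = b.lam)
    (h : ∀ w : List (Fin 2), w.length < n → a.ser w = b.ser w) (ν : R →+ ℚ) :
    ∃ ψ ∈ grt ℚ n, ∀ w : List (Fin 2), w.length = n → coef ψ w = ν (dif a b w) := by
  by_cases h3 : 3 ≤ n
  · have hD := Dyn_of_shuffle (R := R) hn (fun p q hp hq hpq => shuffle_dif h p q hp hq hpq)
    have hD2 : MP446S.Dyn (mm ν (prt (dif a b) n)) = (n : ℚ) • mm ν (prt (dif a b) n) := by
      rw [← mm_Dyn, hD, Nat.cast_smul_eq_nsmul, map_nsmul, Nat.cast_smul_eq_nsmul]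
    obtain ⟨ψ, hψ⟩ := specDSW2 ℚ n (mm ν (prt (dif a b) n)) hn hD2
    have hc : ∀ w : List (Fin 2), coef ψ w = if w.length = n then ν (dif a b w) else 0 := by
      intro w
      rw [coef_eq_cf, hψ, cf_mmr, cf_prt]
      split_ifs
      · rfl
      · exact map_zero ν
    refine ⟨ψ, ⟨?_, fun w hw => by rw [hc w, if_neg hw]⟩, fun w hw => by rw [hc w, if_pos hw]⟩
    apply isGRT_of specS4 specF1 (specF2 specF1 specMODEL)
      (specF3 specMODEL specF1 (specF2 specF1 specMODEL)) h3
    · intro w hw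
      rw [← coef_eq_cf, hc w, if_neg hw]
    · rw [hψ]
      exact PLt_mm (pent_R hn h)
  · refine ⟨0, Submodule.zero_mem _, fun w hw => ?_⟩
    have : dif a b w = 0 := by
      have hn' : n = 1 ∨ n = 2 := by omega
      rcases hn' with rfl | rfl
      · exact dif_one h w hw
      · exact dif_two hl h w hw
    rw [this, map_zero, coef_zero]

end Low

end MP446I
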